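import Pool.Agent.UB.D0
import Pool.Agent.BTG.G5

set_option autoImplicit false

namespace UB

/-- [UB-A1] the facts about `β_m` -/
theorem betaOK (m : ℕ) : BetaOK m :=
  ⟨fun _ h0 h1 => BTG.bk_sq m h0 h1, fun _ h0 h1 => BTG.le_bk m h0 h1,
    fun _ h0 h1 => BTG.one_sub_pow_le_bk m h0 h1, fun _ h0 h1 => BTG.bk_le_one m h0 h1,
    fun _ _ h0 h1 h2 => BTG.bk_mono m h0 h1 h2, fun _ _ h0 h1 h2 h3 => BTG.mul_bk_le' m h2 h3 h0 h1⟩

end UB
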