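import Pool.Agent.UB.P5b

set_option autoImplicit false

open scoped Classical
open Finset BTP

namespace UB

section
variable {D h : ℕ} {p : ℝ}

theorem n5_face_cube {i : Fin D} {x t N : ℕ} (h1 : 1 ≤ x) (hx : x ≤ N) (ht : t ≤ N) :
    face i x t ⊆ cube D N := by
  intro v hv
  rw [mem_face] at hv
  rw [mem_cube]
  intro m
  by_cases hm : m = i
  · subst hm
    rw [hv.1]
    constructor
    · exact_mod_cast h1
    · exact_mod_cast hx
  · obtain ⟨h3, h4⟩ := hv.2 m hm
    refine ⟨h3, h4.trans ?_⟩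
    exact_mod_cast ht

theorem n5_mks_mono {A B : Finset (Site D)} (h1 : A ⊆ B) : mks A h ⊆ mks B h := by
  intro w hw
  rw [mem_mks] at hw ⊢
  exact ⟨h1 hw.1, hw.2⟩

theorem n5_face_disj {i : Fin D} {x y t t' : ℕ} (h : x ≠ y) :
    Disjoint (face i x t) (face i y t') := by
  rw [Finset.disjoint_left]
  intro v h1 h2
  rw [mem_face] at h1 h2
  apply h
  have h3 := h1.1.symm.trans h2.1
  exact_mod_cast h3

theorem n5_mks_disj {A B : Finset (Site D)} (h1 : Disjoint A B) :
    Disjoint (mks A h) (mks B h) := by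
  rw [Finset.disjoint_left] at h1 ⊢
  intro w h2 h3
  rw [mem_mks] at h2 h3
  exact h1 h2.1 h3.1

theorem n5_bk_nonneg (hB : BetaOK (h + 1)) (hp0 : 0 ≤ p) (hp1 : p ≤ 1) (m : ℕ) :
    0 ≤ BTR.bk (h + 1) (uu p m) :=
  (uu_nonneg hp0 hp1 m).trans (hB.2.1 _ (uu_nonneg hp0 hp1 m) (uu_le_one hp1 m))

/-- [UB-N5] probability of standard growth.
PROOF. The event of direction `i` depends on `B i = (Ioc a b).biUnion (fun x => mks (face i x (x - 2)) h)` (`Dep_Sq`); for `i ≠ j` these are disjoint: if `v ∈ face i x (x-2)` and `v ∈ face j y (y-2)`, then `y = v j ≤ x - 2` and `x = v i ≤ y - 2` (`1 ≤ v j`, `1 ≤ v i`), impossible. `Pr_all_dep` with `Finset.univ`, then `Sq_ge` for each `i` (`m x = (x-2)^(D-1)`, `card_face`; for `x < y` the faces `face i x _`, `face i y _` are disjoint; `face i x (x-2) ⊆ cube D N`), `Finset.prod_le_prod`, `Finset.prod_const`. -/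
theorem Pr_St (hB : BetaOK (h + 1)) (hp0 : 0 ≤ p) (hp1 : p ≤ 1) {a b N : ℕ} (hab : a ≤ b) (hN : b ≤ N)
    (c : ℝ) (hc0 : 0 ≤ c) (hc1 : c ≤ 1) (hc : a < b → c ≤ uu p ((a + 1 - 2) ^ (D - 1))) :
    (c * ∏ x ∈ Finset.Ioc a b, BTR.bk (h + 1) (uu p ((x - 2) ^ (D - 1)))) ^ D ≤
      Pr (mks (cube D N) h) p (St h a b) := by
  have h1 : Pr (mks (cube D N) h) p (St h a b) =
      ∏ i ∈ (Finset.univ : Finset (Fin D)),
        Pr (mks (cube D N) h) p (Sq h (fun x => face i x (x - 2)) a b) := by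
    rw [← Pr_all_dep (mks (cube D N) h) (Finset.univ : Finset (Fin D))
      (fun i => (Finset.Ioc a b).biUnion (fun x => mks (face i x (x - 2)) h))
      (fun i => Sq h (fun x => face i x (x - 2)) a b)]
    · refine Pr_congr fun U _ => ?_
      unfold St
      exact ⟨fun h i _ => h i, fun h i => h i (Finset.mem_univ i)⟩
    · intro i _
      refine Dep_Sq h _ a b ?_
      intro x hx1 hx2
      exact Finset.subset_biUnion_of_mem (fun x => mks (face i x (x - 2)) h)
        (Finset.mem_Ioc.mpr ⟨hx1, hx2⟩)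
    · intro i _ j _ hij
      rw [Finset.disjoint_left]
      intro w hw1 hw2
      rw [Finset.mem_biUnion] at hw1 hw2
      obtain ⟨x, _, hx⟩ := hw1
      obtain ⟨y, _, hy⟩ := hw2
      rw [mem_mks, mem_face] at hx hy
      have e1 := hx.1.1
      have e2 := hy.1.1
      have e3 := hx.1.2 j (Ne.symm hij)
      have e4 := hy.1.2 i hij
      rw [e2] at e3
      rw [e1] at e4
      omega
  rw [h1]
  have h2 : ∀ i ∈ (Finset.univ : Finset (Fin D)),
      c * ∏ x ∈ Finset.Ioc a b, BTR.bk (h + 1) (uu p ((x - 2) ^ (D - 1))) ≤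
        Pr (mks (cube D N) h) p (Sq h (fun x => face i x (x - 2)) a b) := by
    intro i _
    refine Sq_ge h hB (mks (cube D N) h) hp0 hp1 (fun x => face i x (x - 2))
      (fun x => (x - 2) ^ (D - 1)) a b hab ?_ ?_ ?_ ?_ c hc0 hc1 hc
    · intro x hx1 hx2
      exact n5_mks_mono (n5_face_cube (by omega) (by omega) (by omega))
    · intro x y _ hxy _
      exact n5_face_disj (by omega)
    · intro x _ _
      exact card_face i x (x - 2)
    · intro x y _ hxy _
      exact Nat.pow_le_pow_left (by omega) _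
  calc (c * ∏ x ∈ Finset.Ioc a b, BTR.bk (h + 1) (uu p ((x - 2) ^ (D - 1)))) ^ D
      = ∏ _i ∈ (Finset.univ : Finset (Fin D)),
        (c * ∏ x ∈ Finset.Ioc a b, BTR.bk (h + 1) (uu p ((x - 2) ^ (D - 1)))) := by
        rw [Finset.prod_const, Finset.card_univ, Fintype.card_fin]
    _ ≤ _ := by
        refine Finset.prod_le_prod (fun i _ => ?_) h2
        exact mul_nonneg hc0 (Finset.prod_nonneg fun x _ => n5_bk_nonneg hB hp0 hp1 _)

/-- the frozen part -/
theorem n5_frozen (hB : BetaOK (h + 1)) (hp0 : 0 ≤ p) (hp1 : p ≤ 1) {s y e N : ℕ} (i : Fin D)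
    (hs : s ≤ y) (he : y ≤ e) (hN : e ≤ N) :
    uu p (s ^ (D - 1)) * BTR.bk (h + 1) (uu p (s ^ (D - 1))) ^ (e - y) ≤
    Pr (mks (cube D N) h) p (Sq h (fun x => face i x s) y e) := by
  have h1 := Sq_ge h hB (mks (cube D N) h) hp0 hp1 (fun x => face i x s)
      (fun _ => s ^ (D - 1)) y e he
      (fun x hx1 hx2 => n5_mks_mono (n5_face_cube (by omega) (by omega) (by omega)))
      (fun x y _ hxy _ => n5_face_disj (by omega))
      (fun x _ _ => card_face i x s)
      (fun x y _ hxy _ => le_rfl)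
      (uu p (s ^ (D - 1))) (uu_nonneg hp0 hp1 _) (uu_le_one hp1 _) (fun _ => le_rfl)
  rw [Finset.prod_const, Nat.card_Ioc] at h1
  exact h1

/-- [UB-N5] a double gap between two pieces, frozen faces.
PROOF. Independence (`Pr_and_dep`; the faces `face i x s` of different levels are disjoint): `Pr = Pr_not_res * (Pr_not_res * (Pr_hit * Pr (Sq ..)))`, `card_face`, and `Sq_ge` with constant `m` and `c = u`. -/
theorem Pr_gap (hB : BetaOK (h + 1)) (hp0 : 0 ≤ p) (hp1 : p ≤ 1) {s y e N : ℕ} (i : Fin D)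
    (hy : s ≤ y) (he : y + 3 ≤ e) (hN : e ≤ N) :
    (1 - uu p (s ^ (D - 1))) ^ (2 * (h + 1)) * uu p (s ^ (D - 1)) ^ 2 *
      BTR.bk (h + 1) (uu p (s ^ (D - 1))) ^ (e - (y + 3)) ≤
    Pr (mks (cube D N) h) p (fun U => ¬ res h (face i (y + 1) s) U ∧ ¬ res h (face i (y + 2) s) U ∧
      hit (face i (y + 3) s) 0 U ∧ Sq h (fun x => face i x s) (y + 3) e U) := by
  -- the marks of the levels above `a`
  have hsub : ∀ a x : ℕ, a < x → x ≤ e → mks (face i x s) h ⊆
      (Finset.Ioc a e).biUnion (fun x => mks (face i x s) h) := fun a x h1 h2 =>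
    Finset.subset_biUnion_of_mem (fun x => mks (face i x s) h) (Finset.mem_Ioc.mpr ⟨h1, h2⟩)
  have hdis : ∀ a x : ℕ, x ≤ a → Disjoint (mks (face i x s) h)
      ((Finset.Ioc a e).biUnion (fun x => mks (face i x s) h)) := by
    intro a x hx
    rw [Finset.disjoint_biUnion_right]
    intro z hz
    exact n5_mks_disj (n5_face_disj (by have := (Finset.mem_Ioc.mp hz).1; omega))
  have hhit : ∀ x : ℕ, Dep (mks (face i x s) h) (hit (face i x s) 0) := by
    intro x
    refine Dep.mono (Dep_hit (face i x s) 0) ?_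
    intro w hw
    rw [Finset.mem_product, Finset.mem_singleton] at hw
    rw [mem_mks]
    exact ⟨hw.1, by omega⟩
  have hV : ∀ x : ℕ, y < x → x ≤ e → mks (face i x s) h ⊆ mks (cube D N) h := fun x h1 h2 =>
    n5_mks_mono (n5_face_cube (by omega) (by omega) (by omega))
  have hSq : ∀ a : ℕ, a ≤ y + 3 → Dep ((Finset.Ioc a e).biUnion (fun x => mks (face i x s) h))
      (Sq h (fun x => face i x s) (y + 3) e) := by
    intro a ha
    exact Dep_Sq h _ (y + 3) e fun x h1 h2 => hsub a x (by omega) h2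
  have e1 : Pr (mks (cube D N) h) p (fun U => ¬ res h (face i (y + 1) s) U ∧
      ¬ res h (face i (y + 2) s) U ∧
      hit (face i (y + 3) s) 0 U ∧ Sq h (fun x => face i x s) (y + 3) e U) =
      (1 - uu p (s ^ (D - 1))) ^ (h + 1) * ((1 - uu p (s ^ (D - 1))) ^ (h + 1) *
        (uu p (s ^ (D - 1)) *
          Pr (mks (cube D N) h) p (Sq h (fun x => face i x s) (y + 3) e))) := by
    rw [Pr_and_dep (B := mks (face i (y + 1) s) h)
      (B' := (Finset.Ioc (y + 1) e).biUnion (fun x => mks (face i x s) h))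
      (E := fun U => ¬ res h (face i (y + 1) s) U)
      (F := fun U => ¬ res h (face i (y + 2) s) U ∧
        hit (face i (y + 3) s) 0 U ∧ Sq h (fun x => face i x s) (y + 3) e U)
      (mks (cube D N) h) (Dep.not (Dep_res h _))
      (Dep.and (Dep.mono (Dep.not (Dep_res h _)) (hsub (y + 1) (y + 2) (by omega) (by omega)))
        (Dep.and (Dep.mono (hhit (y + 3)) (hsub (y + 1) (y + 3) (by omega) (by omega)))
          (hSq (y + 1) (by omega))))
      (hdis (y + 1) (y + 1) le_rfl)]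
    rw [Pr_and_dep (B := mks (face i (y + 2) s) h)
      (B' := (Finset.Ioc (y + 2) e).biUnion (fun x => mks (face i x s) h))
      (E := fun U => ¬ res h (face i (y + 2) s) U)
      (F := fun U => hit (face i (y + 3) s) 0 U ∧ Sq h (fun x => face i x s) (y + 3) e U)
      (mks (cube D N) h) (Dep.not (Dep_res h _))
      (Dep.and (Dep.mono (hhit (y + 3)) (hsub (y + 2) (y + 3) (by omega) (by omega)))
          (hSq (y + 2) (by omega)))
      (hdis (y + 2) (y + 2) le_rfl)]
    rw [Pr_and_dep (B := mks (face i (y + 3) s) h)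
      (B' := (Finset.Ioc (y + 3) e).biUnion (fun x => mks (face i x s) h))
      (E := hit (face i (y + 3) s) 0)
      (F := Sq h (fun x => face i x s) (y + 3) e)
      (mks (cube D N) h) (hhit (y + 3)) (hSq (y + 3) le_rfl)
      (hdis (y + 3) (y + 3) le_rfl)]
    rw [Pr_not_res (hV (y + 1) (by omega) (by omega)),
      Pr_not_res (hV (y + 2) (by omega) (by omega)), Pr_hit, card_face, card_face, card_face]
    refine Finset.Subset.trans ?_ (hV (y + 3) (by omega) (by omega))
    intro w hw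
    rw [Finset.mem_product, Finset.mem_singleton] at hw
    rw [mem_mks]
    exact ⟨hw.1, by omega⟩
  rw [e1]
  have h2 := n5_frozen (h := h) hB hp0 hp1 (s := s) (y := y + 3) (e := e) (N := N) i
    (by omega) he hN
  have hu0 := uu_nonneg hp0 hp1 (s ^ (D - 1))
  have hu1 := uu_le_one hp1 (s ^ (D - 1))
  calc (1 - uu p (s ^ (D - 1))) ^ (2 * (h + 1)) * uu p (s ^ (D - 1)) ^ 2 *
      BTR.bk (h + 1) (uu p (s ^ (D - 1))) ^ (e - (y + 3))
      = (1 - uu p (s ^ (D - 1))) ^ (h + 1) * ((1 - uu p (s ^ (D - 1))) ^ (h + 1) *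
        (uu p (s ^ (D - 1)) * (uu p (s ^ (D - 1)) *
          BTR.bk (h + 1) (uu p (s ^ (D - 1))) ^ (e - (y + 3))))) := by
        rw [two_mul, pow_add]
        ring
    _ ≤ _ := by
        have h3 : 0 ≤ (1 - uu p (s ^ (D - 1))) ^ (h + 1) := pow_nonneg (by linarith) _
        exact mul_le_mul_of_nonneg_left (mul_le_mul_of_nonneg_left
          (mul_le_mul_of_nonneg_left h2 hu0) h3) h3

/-- [UB-N5] frozen faces without a gap. PROOF. `Sq_ge` with constant `m = s^(D-1)`, `c = u`. -/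
theorem Pr_frozen (hB : BetaOK (h + 1)) (hp0 : 0 ≤ p) (hp1 : p ≤ 1) {s y e N : ℕ} (i : Fin D)
    (hy : s ≤ y) (he : y ≤ e) (hN : e ≤ N) :
    uu p (s ^ (D - 1)) * BTR.bk (h + 1) (uu p (s ^ (D - 1))) ^ (e - y) ≤
    Pr (mks (cube D N) h) p (Sq h (fun x => face i x s) y e) :=
  n5_frozen hB hp0 hp1 i hy he hN

end

end UB
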