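import Pool.Agent.UB.N9a
import Pool.Agent.UB.N5
import Pool.Agent.UB.A1

set_option autoImplicit false

open scoped Classical
open Finset BTP

namespace UB

/-- the product over consecutive windows -/
theorem n9b_prod (β : ℕ → ℝ) (a₀ l : ℕ) : ∀ J : ℕ,
    ∏ j ∈ Finset.range J, ∏ x ∈ Finset.Ioc (a₀ + j * l) (a₀ + j * l + l), β x =
      ∏ x ∈ Finset.Ioc a₀ (a₀ + J * l), β x
  | 0 => by simp
  | J + 1 => by
    rw [Finset.prod_range_succ, n9b_prod β a₀ l J,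
      show a₀ + (J + 1) * l = a₀ + J * l + l by ring]
    exact Finset.prod_Ioc_consecutive β (by omega) (by omega)

theorem n9b_uu_one (p : ℝ) : uu p 1 = p := by
  unfold uu
  ring

/-- [UB-N9b] lower bound with a factor two for each window.
PROOF. `Q_pieces`. `Pr_St` (`betaOK`) with `c = p` for `(2, a₀)` (first level `3`: `uu p ((3-2)^(D+1)) = uu p 1 = p`) and for `(a₀ + J l, b)` (`uu p ((x-2)^(D+1)) ≥ uu p 1 = p` for `x ≥ 3`, `uu_mono`); the windows by `hwin`. The product of the products over the intervals `(2, a₀]`, `(a₀ + j l, a₀ + (j+1) l]`, `(a₀ + J l, b]` is the product over `(2, b]` (`Finset.prod_Ioc_consecutive`, induction on `J`); the constants are `p^(2^(D+2)) * p^(D+2) * 2^J * p^(D+2)`. -/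
theorem Q_lower (D h : ℕ) {p : ℝ} (hp0 : 0 ≤ p) (hp1 : p ≤ 1) {a₀ l w J b : ℕ} (ha : 2 ≤ a₀)
    (hb : a₀ + J * l ≤ b)
    (hwin : ∀ j < J, 2 * (∏ x ∈ Finset.Ioc (a₀ + j * l) (a₀ + j * l + l),
      BTR.bk (h + 1) (uu p ((x - 2) ^ (D + 1)))) ^ (D + 2) ≤
        Pr (mks (cube (D + 2) b) h) p (Win h (a₀ + j * l) l w)) :
    p ^ (2 ^ (D + 2) + 2 * (D + 2)) * 2 ^ J *
      (∏ x ∈ Finset.Ioc 2 b, BTR.bk (h + 1) (uu p ((x - 2) ^ (D + 1)))) ^ (D + 2) ≤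
      Q (D + 2) 2 h b p := by
  set β : ℕ → ℝ := fun x => BTR.bk (h + 1) (uu p ((x - 2) ^ (D + 1))) with hβ
  have hβ0 : ∀ x, 0 ≤ β x := fun x => n5_bk_nonneg (betaOK (h + 1)) hp0 hp1 _
  have hP0 : ∀ s : Finset ℕ, 0 ≤ ∏ x ∈ s, β x := fun s => Finset.prod_nonneg fun x _ => hβ0 x
  have hpu : ∀ m : ℕ, 1 ≤ m → p ≤ uu p m := by
    intro m hm
    have := uu_mono hp0 hp1 hm
    rwa [n9b_uu_one] at this
  have hJ : a₀ ≤ a₀ + J * l := Nat.le_add_right _ _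
  have h1 : (p * ∏ x ∈ Finset.Ioc 2 a₀, β x) ^ (D + 2) ≤
      Pr (mks (cube (D + 2) b) h) p (St h 2 a₀) :=
    Pr_St (D := D + 2) (betaOK (h + 1)) hp0 hp1 ha (hJ.trans hb) p hp0 hp1
      (fun _ => hpu _ (Nat.one_le_pow _ _ (by omega)))
  have h2 : (p * ∏ x ∈ Finset.Ioc (a₀ + J * l) b, β x) ^ (D + 2) ≤
      Pr (mks (cube (D + 2) b) h) p (St h (a₀ + J * l) b) :=
    Pr_St (D := D + 2) (betaOK (h + 1)) hp0 hp1 hb le_rfl p hp0 hp1
      (fun _ => hpu _ (Nat.one_le_pow _ _ (by omega)))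
  have h3 : ∏ j ∈ Finset.range J,
      (2 * (∏ x ∈ Finset.Ioc (a₀ + j * l) (a₀ + j * l + l), β x) ^ (D + 2)) ≤
      ∏ j ∈ Finset.range J, Pr (mks (cube (D + 2) b) h) p (Win h (a₀ + j * l) l w) := by
    refine Finset.prod_le_prod (fun j _ => ?_) (fun j hj => hwin j (Finset.mem_range.mp hj))
    exact mul_nonneg (by norm_num) (pow_nonneg (hP0 _) _)
  rw [Finset.prod_mul_distrib, Finset.prod_const, Finset.card_range, Finset.prod_pow,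
    n9b_prod] at h3
  have e1 : (∏ x ∈ Finset.Ioc 2 b, β x) = (∏ x ∈ Finset.Ioc 2 a₀, β x) *
      ((∏ x ∈ Finset.Ioc a₀ (a₀ + J * l), β x) * ∏ x ∈ Finset.Ioc (a₀ + J * l) b, β x) := by
    rw [Finset.prod_Ioc_consecutive β hJ hb, Finset.prod_Ioc_consecutive β ha (hJ.trans hb)]
  have k1 : 0 ≤ (p * ∏ x ∈ Finset.Ioc 2 a₀, β x) ^ (D + 2) := pow_nonneg (mul_nonneg hp0 (hP0 _)) _
  have k2 : 0 ≤ (p * ∏ x ∈ Finset.Ioc (a₀ + J * l) b, β x) ^ (D + 2) :=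
    pow_nonneg (mul_nonneg hp0 (hP0 _)) _
  have k3 : (0:ℝ) ≤ 2 ^ J * (∏ x ∈ Finset.Ioc a₀ (a₀ + J * l), β x) ^ (D + 2) :=
    mul_nonneg (by positivity) (pow_nonneg (hP0 _) _)
  have h4 := mul_le_mul h1 (mul_le_mul h3 h2 k2 (k3.trans h3)) (mul_nonneg k3 k2) (k1.trans h1)
  have h5 := mul_le_mul_of_nonneg_left h4 (pow_nonneg hp0 (2 ^ (D + 2)))
  refine le_trans (le_of_eq ?_) (h5.trans (Q_pieces hp0 hp1 ha hb))
  rw [e1]
  ring

end UB
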