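import Pool.Agent.UB.P2

set_option autoImplicit false

open scoped Classical
open Finset BTP

namespace UB

section
variable {D : ℕ} {p : ℝ}

theorem p4_mem_mks {B : Finset (Site D)} {h : ℕ} {w : Mk D} : w ∈ mks B h ↔ w.1 ∈ B ∧ w.2 ≤ h := by
  unfold mks
  rw [Finset.mem_product, Finset.mem_range, Nat.lt_succ_iff]

/-- [UB-P4] PROOF. `hit F j U ↔ ∃ v ∈ U, v ∈ F ×ˢ {j}` (`Pr_congr`), `BTP.p7_hit_prob` (BTP/P7), `(F ×ˢ {j}).card = F.card`. -/
theorem Pr_hit {F : Finset (Site D)} {j : ℕ} {V : Finset (Mk D)} (hV : F ×ˢ {j} ⊆ V) :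
    Pr V p (hit F j) = uu p F.card := by
  have h := BTP.p7_hit_prob (p := p) hV
  rw [Finset.card_product, Finset.card_singleton, mul_one] at h
  unfold uu
  rw [← h]
  refine BTP.Pr_congr fun U _ => ⟨?_, ?_⟩
  · rintro ⟨v, hv, hU⟩
    exact ⟨(v, j), hU, Finset.mem_product.2 ⟨hv, Finset.mem_singleton_self j⟩⟩
  · rintro ⟨w, hU, hw⟩
    obtain ⟨h1, h2⟩ := Finset.mem_product.1 hw
    rw [Finset.mem_singleton] at h2
    exact ⟨w.1, h1, by rw [← h2]; exact hU⟩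

/-- [UB-P4] PROOF. `¬ res h F U ↔ ¬ ∃ v ∈ U, v ∈ mks F h`, `BTP.Pr_avoid`, `(mks F h).card = F.card * (h + 1)`, `pow_mul`, `1 - uu p m = (1-p)^m`. -/
theorem Pr_not_res {F : Finset (Site D)} {h : ℕ} {V : Finset (Mk D)} (hV : mks F h ⊆ V) :
    Pr V p (fun U => ¬ res h F U) = (1 - uu p F.card) ^ (h + 1) := by
  have h1 := BTP.Pr_avoid (p := p) hV
  have h2 : (mks F h).card = F.card * (h + 1) := by
    unfold mks
    rw [Finset.card_product, Finset.card_range]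
  have h3 : (1 - uu p F.card) ^ (h + 1) = (1 - p) ^ (mks F h).card := by
    unfold uu
    rw [h2, pow_mul, sub_sub_cancel]
  rw [h3, ← h1]
  refine BTP.Pr_congr fun U _ => not_congr ⟨?_, ?_⟩
  · rintro ⟨j, hj, v, hv, hU⟩
    exact ⟨(v, j), hU, p4_mem_mks.2 ⟨hv, hj⟩⟩
  · rintro ⟨w, hU, hw⟩
    obtain ⟨h4, h5⟩ := p4_mem_mks.1 hw
    exact ⟨w.2, h5, w.1, h4, hU⟩

/-- [UB-P4] PROOF. `Pr_compl`, `Pr_not_res`. -/
theorem Pr_res {F : Finset (Site D)} {h : ℕ} {V : Finset (Mk D)} (hV : mks F h ⊆ V) :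
    Pr V p (res h F) = 1 - (1 - uu p F.card) ^ (h + 1) := by
  have h1 : Pr V p (fun U => ¬ res h F U) = 1 - Pr V p (res h F) := BTP.Pr_compl
  rw [Pr_not_res hV] at h1
  linarith

/-- [UB-P4] `0 ≤ u ≤ 1`, monotone in `m`. -/
theorem uu_nonneg {p : ℝ} (hp0 : 0 ≤ p) (hp1 : p ≤ 1) (m : ℕ) : 0 ≤ uu p m := by
  unfold uu
  have h1 : (1 - p) ^ m ≤ 1 := pow_le_one₀ (by linarith) (by linarith)
  linarith

theorem uu_le_one {p : ℝ} (hp1 : p ≤ 1) (m : ℕ) : uu p m ≤ 1 := by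
  unfold uu
  have h1 : 0 ≤ (1 - p) ^ m := pow_nonneg (by linarith) m
  linarith

theorem uu_mono {p : ℝ} (hp0 : 0 ≤ p) (hp1 : p ≤ 1) {m m' : ℕ} (h : m ≤ m') : uu p m ≤ uu p m' := by
  unfold uu
  have h1 : (1 - p) ^ m' ≤ (1 - p) ^ m := pow_le_pow_of_le_one (by linarith) (by linarith) h
  linarith

theorem uu_one {p : ℝ} : uu p 1 = p := by
  unfold uu
  ring

/-- [UB-P4] PROOF. `Pi.card_Icc`, `Int.card_Icc`: the factor of `i` is `1`, the others are `t`; `Finset.prod_erase`-type splitting (`Fintype.prod_eq_mul_prod_compl` or `Finset.prod_ite_eq`), `D - 1` factors `t`. -/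
theorem card_face (i : Fin D) (x t : ℕ) : (face i x t).card = t ^ (D - 1) := by
  unfold face
  rw [Pi.card_Icc, ← Finset.mul_prod_erase Finset.univ _ (Finset.mem_univ i)]
  have h1 : (Finset.Icc (if i = i then (x : ℤ) else 1) (if i = i then (x : ℤ) else (t : ℤ))).card = 1 := by
    rw [if_pos rfl, if_pos rfl, Int.card_Icc]
    simp
  have h2 : ∀ m ∈ Finset.univ.erase i,
      (Finset.Icc (if m = i then (x : ℤ) else 1) (if m = i then (x : ℤ) else (t : ℤ))).card = t := by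
    intro m hm
    have hne := (Finset.mem_erase.1 hm).1
    rw [if_neg hne, if_neg hne, Int.card_Icc]
    simp
  rw [h1, one_mul, Finset.prod_congr rfl h2, Finset.prod_const, Finset.card_erase_of_mem (Finset.mem_univ i),
    Finset.card_univ, Fintype.card_fin]

theorem mem_face {i : Fin D} {x t : ℕ} {v : Site D} :
    v ∈ face i x t ↔ v i = x ∧ ∀ m, m ≠ i → 1 ≤ v m ∧ v m ≤ t := by
  unfold face
  rw [Finset.mem_Icc, Pi.le_def, Pi.le_def]
  constructor
  · rintro ⟨h1, h2⟩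
    refine ⟨?_, fun m hm => ?_⟩
    · have h3 := h1 i
      have h4 := h2 i
      simp only [if_true] at h3 h4
      exact le_antisymm h4 h3
    · have h3 := h1 m
      have h4 := h2 m
      simp only [if_neg hm] at h3 h4
      exact ⟨h3, h4⟩
  · rintro ⟨h1, h2⟩
    refine ⟨fun m => ?_, fun m => ?_⟩
    · by_cases hm : m = i
      · simp only [if_pos hm]
        rw [hm, h1]
      · simp only [if_neg hm]
        exact (h2 m hm).1
    · by_cases hm : m = i
      · simp only [if_pos hm]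
        rw [hm, h1]
      · simp only [if_neg hm]
        exact (h2 m hm).2

theorem mem_cube {b : ℕ} {v : Site D} : v ∈ cube D b ↔ ∀ m, 1 ≤ v m ∧ v m ≤ b := by
  unfold cube cubeAt
  rw [Finset.mem_Icc, Pi.le_def, Pi.le_def]
  simp only [zero_add]
  exact ⟨fun h m => ⟨h.1 m, h.2 m⟩, fun h => ⟨fun m => (h m).1, fun m => (h m).2⟩⟩

theorem card_cube (b : ℕ) : (cube D b).card = b ^ D := by
  unfold cube cubeAt
  rw [Pi.card_Icc]
  have h2 : ∀ m ∈ (Finset.univ : Finset (Fin D)), (Finset.Icc ((0 : ℤ) + 1) (0 + (b : ℤ))).card = b := by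
    intro m _
    rw [Int.card_Icc]
    simp
  rw [Finset.prod_congr rfl h2, Finset.prod_const, Finset.card_univ, Fintype.card_fin]

theorem mem_mks {B : Finset (Site D)} {h : ℕ} {w : Mk D} : w ∈ mks B h ↔ w.1 ∈ B ∧ w.2 ≤ h :=
  p4_mem_mks

end

end UB
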