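import Pool.Agent.UB.A1
import Pool.Agent.UB.P4

set_option autoImplicit false

open scoped Classical
open Finset

namespace UB

/-- [UB-N9c] `A = p^(-1/κ)`. -/
theorem Ap_pow {kap : ℕ} (hk : 1 ≤ kap) {p : ℝ} (hp : 0 < p) : p * Ap kap p ^ kap = 1 := by
  have hkap : (kap : ℝ) ≠ 0 := by
    have : kap ≠ 0 := by omega
    exact_mod_cast this
  unfold Ap
  rw [← Real.rpow_natCast, ← Real.rpow_mul hp.le]
  have e : -(1 / (kap : ℝ)) * kap = -1 := by field_simp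
  rw [e, Real.rpow_neg_one]
  exact mul_inv_cancel₀ hp.ne'

theorem Ap_pos (kap : ℕ) {p : ℝ} (hp : 0 < p) : 0 < Ap kap p := by
  exact Real.rpow_pos_of_pos hp _

/-- [UB-N9c] `A → ∞` as `p → 0`. PROOF. `Ap kap p ≥ B ↔ p ≤ B^(-kap)`; take `p0 = min 1 (B^(-kap))`-like (`Ap_pow`: `A^kap = 1/p ≥ B^kap`, `lt_of_pow_lt_pow_left₀`). -/
theorem Ap_large {kap : ℕ} (hk : 1 ≤ kap) (B : ℝ) : ∃ p0 : ℝ, 0 < p0 ∧ ∀ p, 0 < p → p ≤ p0 → B ≤ Ap kap p := by
  have hM : 0 < max B 1 := lt_of_lt_of_le one_pos (le_max_right _ _)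
  refine ⟨((max B 1) ^ kap)⁻¹, inv_pos.mpr (pow_pos hM _), ?_⟩
  intro p hp hpp
  have h1 := Ap_pow hk hp
  have h2 : (max B 1) ^ kap ≤ Ap kap p ^ kap := by
    have h3 : Ap kap p ^ kap = p⁻¹ := by
      field_simp
      linarith [h1]
    rw [h3]
    rw [le_inv_comm₀ (pow_pos hM _) hp]
    exact hpp
  have h4 : max B 1 ≤ Ap kap p := by
    by_contra hcon
    push Not at hcon
    have h5 := pow_lt_pow_left₀ hcon (Ap_pos kap hp).le (by omega : kap ≠ 0)
    linarith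
  exact le_trans (le_max_left _ _) h4

/-- [UB-N9c] the standard product.
PROOF. `q = -log(1-p) ≥ p` (`Real.log_le_sub_one_of_pos`), `uu p m = 1 - exp(-(q m))`, so for `x ≥ 3` `bk k (uu p ((x-2)^kap)) = exp(-gk k (q (x-2)^kap))` (`BTG.exp_neg_gk`, `BTG.bz`; `q (x-2)^kap > 0`). The product is `exp(-∑_{y < b-2} gk k (q (y+1)^kap))` (`Finset.prod_Ioc` reindexed by `x = y + 3`; for `b ≤ 2` the product is empty), `BTG.sum_gk_le`, `q^(-(1/kap)) ≤ p^(-(1/kap)) = Ap kap p` (`Real.rpow_le_rpow_of_exponent_nonpos`), `BTG.lamk_nonneg`. -/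
theorem prod_ge {kap : ℕ} (hk : 1 ≤ kap) (k b : ℕ) {p : ℝ} (hp0 : 0 < p) (hp1 : p < 1) :
    Real.exp (-(BTR.lamk kap k * Ap kap p)) ≤
      ∏ x ∈ Finset.Ioc 2 b, BTR.bk k (uu p ((x - 2) ^ kap)) := by
  set q : ℝ := -Real.log (1 - p) with hqdef
  have h1p : 0 < 1 - p := by linarith
  have hqp : p ≤ q := by
    have h := Real.log_le_sub_one_of_pos h1p
    rw [hqdef]
    linarith
  have hq : 0 < q := lt_of_lt_of_le hp0 hqp
  have huu : ∀ m : ℕ, uu p m = 1 - Real.exp (-(q * (m : ℝ))) := by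
    intro m
    unfold uu
    have e : -(q * (m : ℝ)) = Real.log (1 - p) * m := by
      rw [hqdef]
      ring
    rw [e, ← Real.rpow_def_of_pos h1p, Real.rpow_natCast]
  have hbk : ∀ m : ℕ, 1 ≤ m → BTR.bk k (uu p (m ^ kap)) = Real.exp (-BTR.gk k (q * (m : ℝ) ^ kap)) := by
    intro m hm
    have hm0 : (0 : ℝ) < m := by exact_mod_cast hm
    rw [BTG.exp_neg_gk k (mul_pos hq (pow_pos hm0 kap)), BTG.bz_eq, huu]
    push_cast
    rfl
  have hprod : ∀ c : ℕ, ∏ x ∈ Finset.Ioc 2 c, BTR.bk k (uu p ((x - 2) ^ kap)) =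
      Real.exp (-∑ y ∈ Finset.range (c - 2), BTR.gk k (q * ((y : ℝ) + 1) ^ kap)) := by
    intro c
    induction c with
    | zero => simp
    | succ c ih =>
      rcases Nat.lt_or_ge c 2 with hc | hc
      · have e1 : Finset.Ioc 2 (c + 1) = ∅ := by
          apply Finset.Ioc_eq_empty
          omega
        have e2 : c + 1 - 2 = 0 := by omega
        rw [e1, e2]
        simp
      · rw [Finset.prod_Ioc_succ_top hc, ih]
        have e2 : c + 1 - 2 = (c - 2) + 1 := by omega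
        rw [e2, Finset.sum_range_succ, neg_add, Real.exp_add]
        congr 1
        rw [hbk (c - 2 + 1) (by omega)]
        push_cast
        rfl
  rw [hprod b]
  apply Real.exp_le_exp.mpr
  apply neg_le_neg
  have h5 := BTG.sum_gk_le k hk hq (b - 2)
  have h6 : q ^ (-(1 / (kap : ℝ))) ≤ Ap kap p := by
    unfold Ap
    apply Real.rpow_le_rpow_of_nonpos hp0 hqp
    have : (0 : ℝ) ≤ 1 / (kap : ℝ) := by positivity
    linarith
  calc ∑ y ∈ Finset.range (b - 2), BTR.gk k (q * ((y : ℝ) + 1) ^ kap)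
      ≤ q ^ (-(1 / (kap : ℝ))) * BTR.lamk kap k := h5
    _ ≤ Ap kap p * BTR.lamk kap k := mul_le_mul_of_nonneg_right h6 (BTG.lamk_nonneg k kap)
    _ = BTR.lamk kap k * Ap kap p := mul_comm _ _

end UB
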