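import Pool.Agent.UB.N8c
import Pool.Agent.UB.N9b
import Pool.Agent.UB.N9c

set_option autoImplicit false

open scoped Classical
open Finset BTP

namespace UB

theorem n9d_num {K C A sA y : ℝ} (hK : 0 < K) (hC : 0 ≤ C) (hy : 4 * (K + 2) * (4 * C + 1) + 16 ≤ y)
    (hsA : sA = y ^ 2) (hA : A = sA ^ 2) :
    C * Real.log A + 1 / 2 ≤ sA / (4 * (K + 2)) := by
  have hK2 : 0 < 4 * (K + 2) := by linarith
  have h1 : 0 ≤ 4 * (K + 2) * (4 * C + 1) := by positivity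
  have hy0 : 0 < y := by linarith
  have h2 : Real.log A = 4 * Real.log y := by
    rw [hA, hsA, ← pow_mul, Real.log_pow]
    norm_num
  have h3 : Real.log y ≤ y := (Real.log_le_sub_one_of_pos hy0).trans (by linarith)
  have h4 : C * Real.log A ≤ 4 * C * y := by
    rw [h2]
    have h5 := mul_le_mul_of_nonneg_left h3 hC
    linarith
  have h5 : 4 * C * y + 1 / 2 ≤ y * (4 * C + 1) := by
    have h6 : y * (4 * C + 1) = 4 * C * y + y := by ring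
    rw [h6]
    linarith
  have h6 : y * (4 * C + 1) ≤ sA / (4 * (K + 2)) := by
    rw [le_div_iff₀ hK2, hsA]
    have h7 := mul_le_mul_of_nonneg_left (by linarith : 4 * (K + 2) * (4 * C + 1) ≤ y) hy0.le
    calc y * (4 * C + 1) * (4 * (K + 2)) = y * (4 * (K + 2) * (4 * C + 1)) := by ring
      _ ≤ y * y := h7
      _ = y ^ 2 := by ring
  linarith

theorem n9d_exp {D M J : ℕ} {K A sA p c : ℝ} (hK : 0 < K) (hp : 0 < p) (hA : 0 < A)
    (hpA : p * A ^ (D + 1) = 1) (hJ : sA / (K + 2) - 1 ≤ J) (hc : c = 1 / (4 * (K + 2)))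
    (hnum : ((M : ℝ) * (D + 1)) * Real.log A + 1 / 2 ≤ sA / (4 * (K + 2))) :
    Real.exp (c * sA) ≤ p ^ M * 2 ^ J := by
  have h1 : Real.log p = -(((D : ℝ) + 1) * Real.log A) := by
    have h2 := congrArg Real.log hpA
    rw [Real.log_mul hp.ne' (by positivity), Real.log_pow, Real.log_one] at h2
    push_cast at h2
    linarith
  have h3 : p ^ M * 2 ^ J = Real.exp (M * Real.log p + J * Real.log 2) := by
    rw [Real.exp_add, ← Real.log_pow, ← Real.log_pow, Real.exp_log (by positivity),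
      Real.exp_log (by positivity)]
  rw [h3]
  refine Real.exp_le_exp.2 ?_
  have h4 := Real.log_two_gt_d9
  have h5 : (J : ℝ) * (1 / 2) ≤ J * Real.log 2 := by
    refine mul_le_mul_of_nonneg_left (by linarith) (Nat.cast_nonneg J)
  have hK2 : (K + 2) ≠ 0 := by linarith
  have h6 : c * sA = sA / (K + 2) / 4 := by
    rw [hc]
    field_simp
  have h7 : sA / (4 * (K + 2)) = sA / (K + 2) / 4 := by
    field_simp
  rw [h6, h1]
  rw [h7] at hnum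
  have h8 : (M : ℝ) * -(((D : ℝ) + 1) * Real.log A) = -(((M : ℝ) * (D + 1)) * Real.log A) := by ring
  rw [h8]
  linarith

/-- [UB-N9d] nucleation for `s = 2` with the second order gain.
PROOF. `kap = D + 1`, `A = Ap kap p`, `K = 2 / c2 D h > 0`, `a₀ = ⌈A⌉₊ + 1`, `w = ⌈√A⌉₊ + 3`, `l = ⌈K √A⌉₊ + w`, `J = ⌊A / l⌋₊`, so `A + 1 ≤ a₀ ≤ A + 2`, `√A + 3 ≤ w ≤ √A + 4`, `K √A + w ≤ l ≤ (K+1) √A + 5 ≤ (K+2) √A` (A large), `J l ≤ A`, `a₀ + J l ≤ 2A + 2 ≤ 4A ≤ b`. `window` for `a = a₀ + j l`, `j < J` (`a + l ≤ a₀ + J l ≤ 4A`, `N = b`), `Q_lower`, `prod_ge`: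
`Q ≥ p^M * 2^J * exp(-(lam * A))^(D+2)`, `M = 2^(D+2) + 2(D+2)`. `p = A^(-kap)` so `p^M = exp(-(kap M log A))`; `2^J ≥ exp(J/2)` (`log 2 ≥ 1/2`), `J ≥ A/l - 1 ≥ √A/(K+2) - 1`. With `c = 1/(4(K+2))`: `√A/(2(K+2)) - 1/2 - kap M log A ≥ c √A` for `A` large (`Real.log A = o(√A)`: `isLittleO_log_rpow_atTop`, or `log A ≤ 8 A^(1/8)`...). `p0` from `Ap_large`, also `p ≤ 1/2`, `A ≥ 16`. -/
theorem nucl2 (D h : ℕ) : ∃ c p0 : ℝ, 0 < c ∧ 0 < p0 ∧ ∀ p, 0 < p → p ≤ p0 → ∀ b : ℕ,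
    4 * Ap (D + 1) p ≤ b →
    Real.exp (-(((D : ℝ) + 2) * (BTR.lamk (D + 1) (h + 1) * Ap (D + 1) p)) +
      c * Real.sqrt (Ap (D + 1) p)) ≤ Q (D + 2) 2 h b p := by
  obtain ⟨K, hKd⟩ : ∃ K : ℝ, K = 2 / c2 D h := ⟨_, rfl⟩
  have hK : 0 < K := by
    rw [hKd]
    exact div_pos two_pos (c2_pos D h)
  obtain ⟨M, hM⟩ : ∃ M : ℕ, M = 2 ^ (D + 2) + 2 * (D + 2) := ⟨_, rfl⟩
  obtain ⟨C, hCd⟩ : ∃ C : ℝ, C = (M : ℝ) * (D + 1) := ⟨_, rfl⟩
  have hC : 0 ≤ C := by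
    rw [hCd]
    positivity
  obtain ⟨y0, hy0⟩ : ∃ y0 : ℝ, y0 = 4 * (K + 2) * (4 * C + 1) + 16 := ⟨_, rfl⟩
  have hy16 : 16 ≤ y0 := by
    have : 0 ≤ 4 * (K + 2) * (4 * C + 1) := by positivity
    linarith
  obtain ⟨p1, hp1, hlarge⟩ := Ap_large (kap := D + 1) (by omega) ((y0 ^ 2) ^ 2)
  refine ⟨1 / (4 * (K + 2)), min p1 (1 / 2), by positivity, lt_min hp1 (by norm_num), ?_⟩
  intro p hp hple b hb
  have hpp1 : p ≤ p1 := hple.trans (min_le_left _ _)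
  have hp2 : p ≤ 1 / 2 := hple.trans (min_le_right _ _)
  have hAB := hlarge p hp hpp1
  have hApos := Ap_pos (D + 1) hp
  have hpA := Ap_pow (kap := D + 1) (by omega) hp
  have hpr := prod_ge (kap := D + 1) (by omega) (h + 1) b hp (by linarith : p < 1)
  obtain ⟨A, hAd⟩ : ∃ A : ℝ, A = Ap (D + 1) p := ⟨_, rfl⟩
  rw [← hAd] at hb hAB hApos hpA hpr ⊢
  obtain ⟨sA, hsd⟩ : ∃ sA : ℝ, sA = Real.sqrt A := ⟨_, rfl⟩
  have hs2 : A = sA ^ 2 := by rw [hsd, Real.sq_sqrt hApos.le]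
  have hs0 : y0 ^ 2 ≤ sA := by
    rw [hsd]
    exact Real.le_sqrt_of_sq_le hAB
  obtain ⟨y, hyd⟩ : ∃ y : ℝ, y = Real.sqrt sA := ⟨_, rfl⟩
  have hsnn : 0 ≤ sA := by
    rw [hsd]
    exact Real.sqrt_nonneg A
  have hy2 : sA = y ^ 2 := by rw [hyd, Real.sq_sqrt hsnn]
  have hyy : y0 ≤ y := by
    rw [hyd]
    exact Real.le_sqrt_of_sq_le hs0
  have hs16 : 256 ≤ sA := by
    have h1 := pow_le_pow_left₀ (by norm_num) hy16 2
    norm_num at h1
    exact h1.trans hs0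
  have hA16 : 16 ≤ A := by
    have h1 := pow_le_pow_left₀ (by norm_num) hs16 2
    norm_num at h1
    rw [← hs2] at h1
    linarith
  have hnum := n9d_num hK hC (hy0 ▸ hyy) hy2 hs2
  -- the parameters
  obtain ⟨a₀, ha₀⟩ : ∃ a₀ : ℕ, a₀ = ⌈A⌉₊ + 1 := ⟨_, rfl⟩
  obtain ⟨w, hw⟩ : ∃ w : ℕ, w = ⌈sA⌉₊ + 3 := ⟨_, rfl⟩
  obtain ⟨l, hl⟩ : ∃ l : ℕ, l = ⌈K * sA⌉₊ + w := ⟨_, rfl⟩
  obtain ⟨J, hJ⟩ : ∃ J : ℕ, J = ⌊A / l⌋₊ := ⟨_, rfl⟩
  have ha1 : A + 1 ≤ a₀ := by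
    rw [ha₀]
    push_cast
    linarith [Nat.le_ceil A]
  have ha2 : (a₀ : ℝ) ≤ A + 2 := by
    rw [ha₀]
    push_cast
    linarith [Nat.ceil_lt_add_one hApos.le]
  have hw1 : sA + 3 ≤ w := by
    rw [hw]
    push_cast
    linarith [Nat.le_ceil sA]
  have hw2 : (w : ℝ) ≤ sA + 4 := by
    rw [hw]
    push_cast
    linarith [Nat.ceil_lt_add_one hsnn]
  have hKs : 0 ≤ K * sA := by positivity
  have hl1 : K * sA + w ≤ l := by
    rw [hl]
    push_cast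
    linarith [Nat.le_ceil (K * sA)]
  have hl2 : (l : ℝ) ≤ (K + 2) * sA := by
    rw [hl]
    push_cast
    linarith [Nat.ceil_lt_add_one hKs]
  have hl0 : (0 : ℝ) < l := by linarith
  have hJ1 : (J : ℝ) * l ≤ A := by
    rw [← le_div_iff₀ hl0, hJ]
    exact Nat.floor_le (by positivity)
  have hJ2 : sA / (K + 2) - 1 ≤ J := by
    have h1 : A / l < J + 1 := by
      rw [hJ]
      exact Nat.lt_floor_add_one _
    have h2 : sA / (K + 2) ≤ A / l := by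
      rw [div_le_div_iff₀ (by linarith) hl0, hs2]
      calc sA * l ≤ sA * ((K + 2) * sA) := mul_le_mul_of_nonneg_left hl2 hsnn
        _ = sA ^ 2 * (K + 2) := by ring
    linarith
  have hend : (a₀ : ℝ) + J * l ≤ 4 * A := by
    linarith
  have hbn : a₀ + J * l ≤ b := by
    have : ((a₀ + J * l : ℕ) : ℝ) ≤ b := by
      push_cast
      linarith
    exact_mod_cast this
  have hwin : ∀ j < J, 2 * (∏ x ∈ Finset.Ioc (a₀ + j * l) (a₀ + j * l + l),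
      BTR.bk (h + 1) (uu p ((x - 2) ^ (D + 1)))) ^ (D + 2) ≤
        Pr (mks (cube (D + 2) b) h) p (Win h (a₀ + j * l) l w) := by
    intro j hj
    have hjl : a₀ + j * l + l ≤ a₀ + J * l := by
      have h1 : (j + 1) * l ≤ J * l := Nat.mul_le_mul_right l hj
      have h2 : (j + 1) * l = j * l + l := by ring
      omega
    have hjl' : ((a₀ + j * l + l : ℕ) : ℝ) ≤ ((a₀ + J * l : ℕ) : ℝ) := by exact_mod_cast hjl
    push_cast at hjl'
    refine window D h p A (a₀ + j * l) l w b hp hp2 hA16 hpA ?_ ?_ ?_ ?_ ?_ (hjl.trans hbn)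
    · push_cast
      have : (0 : ℝ) ≤ (j : ℝ) * l := by positivity
      linarith
    · push_cast
      linarith
    · rw [← hsd]
      exact hw1
    · rw [← hsd]
      exact hw2
    · rw [← hsd, ← hKd]
      exact hl1
  have ha3 : 2 ≤ a₀ := by
    have : ((2 : ℕ) : ℝ) ≤ a₀ := by
      push_cast
      linarith
    exact_mod_cast this
  have hQ := Q_lower D h hp.le (by linarith : p ≤ 1) ha3 hbn hwin
  rw [← hM] at hQ
  refine le_trans ?_ hQ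
  have hexp := n9d_exp (D := D) (M := M) (J := J) (c := 1 / (4 * (K + 2))) hK hp hApos hpA hJ2 rfl
    (hCd ▸ hnum)
  have hsplit : Real.exp (-(((D : ℝ) + 2) * (BTR.lamk (D + 1) (h + 1) * A)) +
      1 / (4 * (K + 2)) * Real.sqrt A) =
      Real.exp (1 / (4 * (K + 2)) * sA) * Real.exp (-(BTR.lamk (D + 1) (h + 1) * A)) ^ (D + 2) := by
    rw [← Real.exp_nat_mul, ← Real.exp_add, ← hsd]
    congr 1
    push_cast
    ring
  rw [hsplit]
  have h9 : Real.exp (-(BTR.lamk (D + 1) (h + 1) * A)) ^ (D + 2) ≤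
      (∏ x ∈ Finset.Ioc 2 b, BTR.bk (h + 1) (uu p ((x - 2) ^ (D + 1)))) ^ (D + 2) :=
    pow_le_pow_left₀ (Real.exp_nonneg _) hpr _
  exact mul_le_mul hexp h9 (by positivity) (by positivity)

end UB
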