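import Pool.Agent.UB.M1
import Pool.Agent.UB.P4

set_option autoImplicit false

open scoped Classical
open Finset BTP

namespace UB

/-- one summand of `nb` -/
theorem b1_nb_ge {D : ℕ} (S : Set (Site D)) (y : Site D) (i : Fin D)
    (h : Function.update y i (y i + 1) ∈ S ∨ Function.update y i (y i - 1) ∈ S) : 1 ≤ nb S y := by
  unfold nb
  have h1 : (1 : ℕ) ≤ (if Function.update y i (y i + 1) ∈ S then 1 else 0) +
      (if Function.update y i (y i - 1) ∈ S then 1 else 0) := by
    rcases h with h | h
    · rw [if_pos h]; exact Nat.le_add_right _ _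
    · rw [if_pos h]; exact Nat.le_add_left _ _
  refine le_trans h1 ?_
  exact Finset.single_le_sum (f := fun i : Fin D => (if Function.update y i (y i + 1) ∈ S then 1 else 0) +
      (if Function.update y i (y i - 1) ∈ S then 1 else 0)) (fun _ _ => Nat.zero_le _) (Finset.mem_univ i)

/-- induction on the distance -/
theorem b1_aux {D h b : ℕ} {U : Set (Mk D)} {S : Set (Site D)} (hS : Cl 1 h (cube D b) U S)
    {x : Site D} (hx : x ∈ cube D b) (hxS : x ∈ S) :
    ∀ (n : ℕ) (y : Site D), y ∈ cube D b → (∑ i, (y i - x i).natAbs) = n → y ∈ S := by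
  intro n
  induction n with
  | zero =>
    intro y _ hn
    have h0 : ∀ i, y i = x i := by
      intro i
      have h1 := (Finset.sum_eq_zero_iff.mp hn) i (Finset.mem_univ i)
      have h2 : y i - x i = 0 := Int.natAbs_eq_zero.mp h1
      linarith
    have h3 : y = x := funext h0
    rw [h3]; exact hxS
  | succ n ih =>
    intro y hy hn
    have hne : ∃ i, y i ≠ x i := by
      by_contra hcon
      push Not at hcon
      have : (∑ i, (y i - x i).natAbs) = 0 := by
        apply Finset.sum_eq_zero
        intro i _
        rw [hcon i, sub_self]; rfl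
      omega
    obtain ⟨i, hi⟩ := hne
    rw [mem_cube] at hx hy
    -- the neighbour closer to `x`
    have key : ∀ c : ℤ, (c = y i + 1 ∧ y i < x i) ∨ (c = y i - 1 ∧ x i < y i) →
        Function.update y i c ∈ S := by
      intro c hc
      apply ih
      · rw [mem_cube]
        intro m
        by_cases hm : m = i
        · subst hm
          rw [Function.update_self]
          have h1 := hx m
          have h2 := hy m
          rcases hc with ⟨hc, h3⟩ | ⟨hc, h3⟩ <;> constructor <;> omega
        · rw [Function.update_of_ne hm]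
          exact hy m
      · have e1 : (∑ m, (y m - x m).natAbs) = (y i - x i).natAbs +
            ∑ m ∈ Finset.univ.erase i, (y m - x m).natAbs :=
          (Finset.add_sum_erase _ _ (Finset.mem_univ i)).symm
        have e2 : (∑ m, (Function.update y i c m - x m).natAbs) = (Function.update y i c i - x i).natAbs +
            ∑ m ∈ Finset.univ.erase i, (Function.update y i c m - x m).natAbs :=
          (Finset.add_sum_erase _ _ (Finset.mem_univ i)).symm
        have e3 : ∑ m ∈ Finset.univ.erase i, (Function.update y i c m - x m).natAbs =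
            ∑ m ∈ Finset.univ.erase i, (y m - x m).natAbs := by
          refine Finset.sum_congr rfl fun m hm => ?_
          rw [Function.update_of_ne (Finset.ne_of_mem_erase hm)]
        rw [e2, e3, Function.update_self]
        rw [e1] at hn
        have e4 : (c - x i).natAbs + 1 = (y i - x i).natAbs := by
          rcases hc with ⟨hc, h3⟩ | ⟨hc, h3⟩ <;> omega
        omega
    have hnb : 1 ≤ nb S y := by
      apply b1_nb_ge S y i
      rcases lt_or_gt_of_ne hi with h1 | h1
      · left; exact key _ (Or.inl ⟨rfl, h1⟩)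
      · right; exact key _ (Or.inr ⟨rfl, h1⟩)
    have hy' : y ∈ cube D b := mem_cube.mpr hy
    exact (hS y hy').2 (le_trans hnb (Nat.le_add_right _ _))

/-- [UB-B1] in the model with threshold `1` one mark fills the cube.
PROOF. Let `S` be closed, `x ∈ cube D b` with `(x, 0) ∈ U`, so `x ∈ S`. For `y ∈ cube D b` induction on `∑ i, (y i - x i).natAbs`: if `y ≠ x`, choose `i` with `y i ≠ x i`, let `y'` be `y` with `y i` moved by `±1` towards `x i`; `y' ∈ cube D b` (coordinates between those of `x` and `y`), `y' ∈ S` by induction, `y'` is a neighbour of `y`: `nb S y ≥ 1` (the summand of `i`; `Finset.single_le_sum`). -/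
theorem Fill_one {D h b : ℕ} {U : Set (Mk D)} {x : Site D} (hx : x ∈ cube D b) (hxU : (x, 0) ∈ U) :
    Fill 1 h (cube D b) U := by
  intro S hS y hy
  exact b1_aux hS hx ((hS x hx).1 hxU) _ y hy rfl

/-- [UB-B1] PROOF. `Fill_one`: `Q ≥ Pr (hit (cube D b) 0) = uu p (b^D)` (`Pr_hit`, `card_cube`, `Pr_mono`). -/
theorem Q_one {kap h b : ℕ} {p : ℝ} (hp0 : 0 ≤ p) (hp1 : p ≤ 1) :
    1 - (1 - p) ^ (b ^ kap) ≤ Q kap 1 h b p := by
  have hV : (cube kap b) ×ˢ ({0} : Finset ℕ) ⊆ mks (cube kap b) h := by
    intro w hw
    rw [Finset.mem_product, Finset.mem_singleton] at hw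
    rw [mem_mks]
    exact ⟨hw.1, by omega⟩
  have h1 := Pr_hit (D := kap) (p := p) (F := cube kap b) (j := 0) hV
  rw [card_cube] at h1
  have h2 : 1 - (1 - p) ^ (b ^ kap) = Pr (mks (cube kap b) h) p (hit (cube kap b) 0) := by
    rw [h1]; rfl
  rw [h2]
  unfold Q
  refine Pr_mono hp0 hp1 fun U _ hU => ?_
  obtain ⟨v, hv, hvU⟩ := hU
  exact Fill_one hv (by exact_mod_cast hvU)

end UB
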