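import Pool.Agent.UB.P2

set_option autoImplicit false

open scoped Classical
open Finset BTP

namespace UB

theorem p3_filter_insert {α β : Type*} {W : Finset β} {w : β} (φ : β → α) (U : Finset α) :
    (insert w W).filter (fun w' => φ w' ∈ U) =
      if φ w ∈ U then insert w (W.filter (fun w' => φ w' ∈ U)) else W.filter (fun w' => φ w' ∈ U) :=
  Finset.filter_insert _ _ _

theorem p3_dep_filter {α β : Type*} (W : Finset β) (φ : β → α) (E : Finset β → Prop) :
    Dep (W.image φ) (fun U => E (W.filter (fun w => φ w ∈ U))) := by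
  intro U
  have h : W.filter (fun w => φ w ∈ U) = W.filter (fun w => φ w ∈ U ∩ W.image φ) := by
    refine Finset.filter_congr fun w hw => ?_
    rw [Finset.mem_inter]
    exact ⟨fun h => ⟨h, Finset.mem_image_of_mem φ hw⟩, fun h => h.1⟩
  show E (W.filter (fun w => φ w ∈ U)) ↔ E (W.filter (fun w => φ w ∈ U ∩ W.image φ))
  rw [h]

theorem p3_dep_mem {α : Type*} (a : α) : Dep ({a} : Finset α) (fun U => a ∈ U) := by
  intro U
  show a ∈ U ↔ a ∈ U ∩ {a}
  rw [Finset.mem_inter]
  exact ⟨fun h => ⟨h, Finset.mem_singleton_self a⟩, fun h => h.1⟩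

/-- [UB-P3] transport of the product measure along an injection.
PROOF. `Finset.induction_on W`, for all `E`. `W = ∅`: the filter is `∅`, so the left side is `Pr V p (fun _ => E ∅)`, which is `1` or `0` (`Pr_true`, `Pr_false`), as `Pr_empty`.
`insert w W`, `w ∉ W`: put `T U = W.filter (fun w' => φ w' ∈ U)`. `(insert w W).filter (φ · ∈ U) = if φ w ∈ U then insert w (T U) else T U`. So the event is `(φ w ∈ U ∧ E (insert w (T U))) ∨ (φ w ∉ U ∧ E (T U))`, a disjoint union (`BTP.Pr_or_add_and`, the intersection has probability `Pr_false`). `T U` depends only on `U ∩ (W.image φ)` and `φ w ∉ W.image φ` (injectivity), so `Pr_and_dep` with `{φ w}` and `W.image φ`; `Pr V p (fun U => φ w ∈ U) = p` (`BTP.Pr_subset` with `{φ w}`, `Finset.singleton_subset_iff`), `Pr V p (fun U => φ w ∉ U) = 1 - p` (`BTP.Pr_compl`).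
Induction hypothesis for `E` and `fun X => E (insert w X)`; then `BTP.Pr_insert`. -/
theorem Pr_transport {α β : Type*} {p : ℝ} (W : Finset β) (V : Finset α) (φ : β → α)
    (hinj : Set.InjOn φ W) (hmap : ∀ w ∈ W, φ w ∈ V) (E : Finset β → Prop) :
    Pr V p (fun U => E (W.filter (fun w => φ w ∈ U))) = Pr W p E := by
  revert hinj hmap E
  induction W using Finset.induction_on with
  | empty =>
    intro _ _ E
    rw [Pr_empty]
    have h : Pr V p (fun U => E ((∅ : Finset β).filter (fun w => φ w ∈ U))) =
        Pr V p (fun _ => E ∅) := Pr_congr fun U _ => by rw [Finset.filter_empty]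
    rw [h]
    by_cases hE : E ∅
    · rw [if_pos hE, ← Pr_true (V := V) (p := p)]
      exact Pr_congr fun _ _ => iff_of_true hE trivial
    · rw [if_neg hE, ← Pr_false (V := V) (p := p)]
      exact Pr_congr fun _ _ => iff_of_false hE id
  | insert w W hw ih =>
    intro hinj hmap E
    have hinj' : Set.InjOn φ W := hinj.mono (by
      intro x hx
      exact Finset.mem_coe.mpr (Finset.mem_insert_of_mem (Finset.mem_coe.mp hx)))
    have hmap' : ∀ w ∈ W, φ w ∈ V := fun x hx => hmap x (Finset.mem_insert_of_mem hx)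
    have hnot : φ w ∉ W.image φ := by
      intro h
      obtain ⟨x, hx, hxw⟩ := Finset.mem_image.mp h
      have : x = w := hinj (Finset.mem_coe.mpr (Finset.mem_insert_of_mem hx))
        (Finset.mem_coe.mpr (Finset.mem_insert_self w W)) hxw
      exact hw (this ▸ hx)
    have hdisj : Disjoint ({φ w} : Finset α) (W.image φ) := Finset.disjoint_singleton_left.mpr hnot
    have hmem : Pr V p (fun U => φ w ∈ U) = p := by
      have h := Pr_subset (V := V) (W := {φ w}) (p := p)
        (Finset.singleton_subset_iff.mpr (hmap w (Finset.mem_insert_self w W)))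
      rw [Finset.card_singleton, pow_one] at h
      refine Eq.trans ?_ h
      exact Pr_congr fun U _ => Finset.singleton_subset_iff.symm
    have hnmem : Pr V p (fun U => ¬ φ w ∈ U) = 1 - p := by
      rw [Pr_compl, hmem]
    rw [Pr_insert hw, ← ih hinj' hmap' E, ← ih hinj' hmap' (fun X => E (insert w X))]
    have h1 : Pr V p (fun U => φ w ∈ U ∧ E (insert w (W.filter (fun w' => φ w' ∈ U)))) =
        p * Pr V p (fun U => E (insert w (W.filter (fun w' => φ w' ∈ U)))) := by
      rw [Pr_and_dep (E := fun U => φ w ∈ U)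
        (F := fun U => E (insert w (W.filter (fun w' => φ w' ∈ U)))) V (p3_dep_mem (φ w))
        (p3_dep_filter W φ (fun X => E (insert w X))) hdisj, hmem]
    have h2 : Pr V p (fun U => (¬ φ w ∈ U) ∧ E (W.filter (fun w' => φ w' ∈ U))) =
        (1 - p) * Pr V p (fun U => E (W.filter (fun w' => φ w' ∈ U))) := by
      rw [Pr_and_dep (E := fun U => ¬ φ w ∈ U)
        (F := fun U => E (W.filter (fun w' => φ w' ∈ U))) V (Dep.not (p3_dep_mem (φ w)))
        (p3_dep_filter W φ E) hdisj, hnmem]
    have h3 := Pr_or_add_and (V := V) (p := p)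
      (E := fun U => φ w ∈ U ∧ E (insert w (W.filter (fun w' => φ w' ∈ U))))
      (F := fun U => (¬ φ w ∈ U) ∧ E (W.filter (fun w' => φ w' ∈ U)))
    have h4 : Pr V p (fun U => (φ w ∈ U ∧ E (insert w (W.filter (fun w' => φ w' ∈ U)))) ∧
        ((¬ φ w ∈ U) ∧ E (W.filter (fun w' => φ w' ∈ U)))) = 0 := by
      rw [← Pr_false (V := V) (p := p)]
      exact Pr_congr fun U _ => by tauto
    have h5 : Pr V p (fun U => E ((insert w W).filter (fun w' => φ w' ∈ U))) =
        Pr V p (fun U => (φ w ∈ U ∧ E (insert w (W.filter (fun w' => φ w' ∈ U)))) ∨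
          ((¬ φ w ∈ U) ∧ E (W.filter (fun w' => φ w' ∈ U)))) := by
      refine Pr_congr fun U _ => ?_
      rw [p3_filter_insert φ U]
      by_cases hU : φ w ∈ U
      · rw [if_pos hU]
        tauto
      · rw [if_neg hU]
        tauto
    rw [h5]
    rw [h1, h2, h4] at h3
    linarith

end UB
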