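import Pool.Agent.UB.M1
import Pool.Agent.UB.P3
import Pool.Agent.UB.P4

set_option autoImplicit false

open scoped Classical
open Finset BTP

namespace UB

section
variable {D s h : ℕ} {p : ℝ}

theorem m5_mem_cubeAt {z : Site D} {b : ℕ} {v : Site D} :
    v ∈ cubeAt z b ↔ ∀ i, z i + 1 ≤ v i ∧ v i ≤ z i + b := by
  unfold cubeAt
  rw [Finset.mem_Icc, Pi.le_def, Pi.le_def]
  exact ⟨fun h i => ⟨h.1 i, h.2 i⟩, fun h => ⟨fun i => (h i).1, fun i => (h i).2⟩⟩

theorem m5_add_mem {z : Site D} {b : ℕ} {v : Site D} (hv : v ∈ cube D b) : v + z ∈ cubeAt z b := by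
  unfold cube at hv
  rw [m5_mem_cubeAt] at hv ⊢
  intro i
  have := hv i
  simp only [Pi.add_apply]
  constructor <;> linarith

theorem m5_mem_mks {B : Finset (Site D)} {w : Mk D} : w ∈ mks B h ↔ w.1 ∈ B ∧ w.2 ≤ h := by
  unfold mks
  rw [Finset.mem_product, Finset.mem_range, Nat.lt_succ_iff]

theorem m5_ins_right {i : Fin (D + 1)} {c : ℤ} {y y' : Site D}
    (hh : (i.insertNth c y : Site (D + 1)) = i.insertNth c y') : y = y' := by
  funext j
  have := congrFun hh (i.succAbove j)
  simpa using this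

theorem m5_ins_left {i : Fin (D + 1)} {c c' : ℤ} {y y' : Site D}
    (hh : (i.insertNth c y : Site (D + 1)) = i.insertNth c' y') : c = c' := by
  have := congrFun hh i
  simpa using this

/-- [UB-M5] the probability that a cube anywhere is filled.
PROOF. `Fill_trans`; `φ (y, j) = (y + z, j)` maps `W = mks (cube D b) h` injectively into `mks Λ h`; `Fill s h (cube D b) {w | (w.1 + z, w.2) ∈ U} ↔ Fill s h (cube D b) (W.filter (φ · ∈ U))` (`Fill_loc`), then `Pr_transport`. -/
theorem Q_trans (Λ : Finset (Site D)) (z : Site D) (b : ℕ) (hz : cubeAt z b ⊆ Λ) :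
    Pr (mks Λ h) p (fun U => Fill s h (cubeAt z b) (U : Set (Mk D))) = Q D s h b p := by
  have h1 := Pr_transport (p := p) (mks (cube D b) h) (mks Λ h) (fun w : Mk D => ((w.1 + z, w.2) : Mk D))
    (by
      intro w _ w' _ hw
      simp only [Prod.mk.injEq] at hw
      exact Prod.ext (add_right_cancel hw.1) hw.2)
    (by
      intro w hw
      rw [m5_mem_mks] at hw ⊢
      exact ⟨hz (m5_add_mem hw.1), hw.2⟩)
    (fun X : Finset (Mk D) => Fill s h (cube D b) (X : Set (Mk D)))
  unfold Q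
  rw [← h1]
  apply Pr_congr
  intro U _
  rw [Fill_trans]
  apply Fill_loc
  intro x hx j hj
  simp only [Set.mem_setOf_eq, Finset.mem_coe, Finset.mem_filter, m5_mem_mks]
  exact ⟨fun hU => ⟨⟨hx, hj⟩, hU⟩, fun hU => hU.2⟩

/-- [UB-M5] the probability that a cube of a layer is filled with the help of another layer.
PROOF. `Fill_trans`, then `Pr_transport` with `W = mks (cube D b) (h+1)`, `φ (y, j) = (i.insertNth c (y + z), j)` if `j ≤ h`, `φ (y, j) = (i.insertNth c' (y + z), 0)` otherwise (`j = h+1`): injective on `W` because `c ≠ c'` (`Fin.insertNth_injective2` or evaluate at `i` and at `i.succAbove j`), image in `mks Λ h`; `{w | (w.1 + z, w.2) ∈ pull h i c c' U}` and the filter agree on the marks `(y, j)`, `y ∈ cube D b`, `j ≤ h+1` (`Fill_loc`). -/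
theorem Pr_pull_help (Λ : Finset (Site (D + 1))) (z : Site D) (b : ℕ) (i : Fin (D + 1)) (c c' : ℤ)
    (hne : c ≠ c') (h1 : ∀ y ∈ cubeAt z b, (i.insertNth c y : Site (D + 1)) ∈ Λ)
    (h2 : ∀ y ∈ cubeAt z b, (i.insertNth c' y : Site (D + 1)) ∈ Λ) :
    Pr (mks Λ h) p (fun U => Fill s (h + 1) (cubeAt z b) (pull h i c c' (U : Set (Mk (D + 1))))) =
      Q D s (h + 1) b p := by
  have h3 := Pr_transport (p := p) (mks (cube D b) (h + 1)) (mks Λ h)
    (fun w : Mk D => (if w.2 ≤ h then ((i.insertNth c (w.1 + z) : Site (D + 1)), w.2)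
      else ((i.insertNth c' (w.1 + z) : Site (D + 1)), 0) : Mk (D + 1)))
    (by
      intro w hw w' hw' hww
      rw [Finset.mem_coe, m5_mem_mks] at hw hw'
      simp only at hww
      by_cases ha : w.2 ≤ h <;> by_cases hb : w'.2 ≤ h
      · rw [if_pos ha, if_pos hb] at hww
        simp only [Prod.mk.injEq] at hww
        exact Prod.ext (add_right_cancel (m5_ins_right hww.1)) hww.2
      · rw [if_pos ha, if_neg hb] at hww
        simp only [Prod.mk.injEq] at hww
        exact absurd (m5_ins_left hww.1) hne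
      · rw [if_neg ha, if_pos hb] at hww
        simp only [Prod.mk.injEq] at hww
        exact absurd (m5_ins_left hww.1).symm hne
      · rw [if_neg ha, if_neg hb] at hww
        simp only [Prod.mk.injEq] at hww
        refine Prod.ext (add_right_cancel (m5_ins_right hww.1)) ?_
        omega)
    (by
      intro w hw
      rw [m5_mem_mks] at hw
      split_ifs with ha
      · rw [m5_mem_mks]
        exact ⟨h1 _ (m5_add_mem hw.1), ha⟩
      · rw [m5_mem_mks]
        exact ⟨h2 _ (m5_add_mem hw.1), Nat.zero_le _⟩)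
    (fun X : Finset (Mk D) => Fill s (h + 1) (cube D b) (X : Set (Mk D)))
  unfold Q
  rw [← h3]
  apply Pr_congr
  intro U _
  rw [Fill_trans]
  apply Fill_loc
  intro x hx j hj
  simp only [Set.mem_setOf_eq, Finset.mem_coe, Finset.mem_filter, m5_mem_mks, pull]
  by_cases ha : j ≤ h
  · rw [if_pos ha]
    constructor
    · rintro (⟨_, hU⟩ | ⟨hj', _⟩)
      · exact ⟨⟨hx, hj⟩, hU⟩
      · omega
    · intro hU
      exact Or.inl ⟨ha, hU.2⟩
  · rw [if_neg ha]
    constructor
    · rintro (⟨hj', _⟩ | ⟨_, hU⟩)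
      · exact absurd hj' ha
      · exact ⟨⟨hx, hj⟩, hU⟩
    · intro hU
      exact Or.inr ⟨by omega, hU.2⟩

/-- [UB-M5] the probability that a cube of a layer is filled without help (the marks of height `h + 1` of `pull` are not used).
PROOF. `Fill_trans`, `Pr_transport` with `W = mks (cube D b) h`, `φ (y, j) = (i.insertNth c (y + z), j)`; `Fill_loc` (heights `≤ h` only). -/
theorem Pr_pull_nohelp (Λ : Finset (Site (D + 1))) (z : Site D) (b : ℕ) (i : Fin (D + 1)) (c c' : ℤ)
    (h1 : ∀ y ∈ cubeAt z b, (i.insertNth c y : Site (D + 1)) ∈ Λ) :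
    Pr (mks Λ h) p (fun U => Fill s h (cubeAt z b) (pull h i c c' (U : Set (Mk (D + 1))))) =
      Q D s h b p := by
  have h3 := Pr_transport (p := p) (mks (cube D b) h) (mks Λ h)
    (fun w : Mk D => (((i.insertNth c (w.1 + z) : Site (D + 1)), w.2) : Mk (D + 1)))
    (by
      intro w _ w' _ hww
      simp only [Prod.mk.injEq] at hww
      exact Prod.ext (add_right_cancel (m5_ins_right hww.1)) hww.2)
    (by
      intro w hw
      rw [m5_mem_mks] at hw ⊢
      exact ⟨h1 _ (m5_add_mem hw.1), hw.2⟩)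
    (fun X : Finset (Mk D) => Fill s h (cube D b) (X : Set (Mk D)))
  unfold Q
  rw [← h3]
  apply Pr_congr
  intro U _
  rw [Fill_trans]
  apply Fill_loc
  intro x hx j hj
  simp only [Set.mem_setOf_eq, Finset.mem_coe, Finset.mem_filter, m5_mem_mks, pull]
  constructor
  · rintro (⟨_, hU⟩ | ⟨hj', _⟩)
    · exact ⟨⟨hx, hj⟩, hU⟩
    · omega
  · intro hU
    exact Or.inl ⟨hj, hU.2⟩

/-- [UB-M5] -/
theorem Q_nonneg (hp0 : 0 ≤ p) (hp1 : p ≤ 1) (D s h b : ℕ) : 0 ≤ Q D s h b p := by
  exact Pr_nonneg hp0 hp1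

theorem Q_le_one (hp0 : 0 ≤ p) (hp1 : p ≤ 1) (D s h b : ℕ) : Q D s h b p ≤ 1 := by
  exact Pr_le_one hp0 hp1

end

end UB
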