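import Pool.Agent.UB.D0

set_option autoImplicit false

open scoped Classical
open Finset BTP

namespace UB

/-- [UB-P1] Harris inequality for two increasing events (`BTP.Pr`, `BTP.Inc`; lemmas `BTP.Pr_insert`, `BTP.Pr_empty`, `BTP.Pr_mono`, `BTP.Pr_nonneg` in BTP/P1).
PROOF. `Finset.induction_on V`, for all `E, F`. Empty: `Pr_empty`, four cases (`if`s; the product of the indicators is the indicator of the conjunction).
`insert v V`: with `e = Pr V E`, `e' = Pr V (fun U => E (insert v U))`, `f, f'` likewise, `e ≤ e'`, `f ≤ f'` (`Pr_mono`, `hE`, `hF`, `Finset.subset_insert`), the induction hypothesis for `(E, F)` and for the pair of the inserted events: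
`Pr (insert v V) (E ∧ F) ≥ (1-p) e f + p e' f'` and `(1-p) e f + p e' f' - ((1-p) e + p e') ((1-p) f + p f') = p (1-p) (e'-e) (f'-f) ≥ 0`. -/
theorem harris {α : Type*} {p : ℝ} (hp0 : 0 ≤ p) (hp1 : p ≤ 1) (V : Finset α) (E F : Finset α → Prop)
    (hE : Inc E) (hF : Inc F) : Pr V p E * Pr V p F ≤ Pr V p (fun U => E U ∧ F U) := by
  induction V using Finset.induction_on generalizing E F with
  | empty =>
    rw [Pr_empty, Pr_empty, Pr_empty]
    by_cases h1 : E ∅ <;> by_cases h2 : F ∅ <;> simp [h1, h2]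
  | insert v V hv ih =>
    rw [Pr_insert hv, Pr_insert hv, Pr_insert hv]
    have he : Pr V p E ≤ Pr V p (fun U => E (insert v U)) :=
      Pr_mono hp0 hp1 fun U _ h => hE _ _ (Finset.subset_insert _ _) h
    have hf : Pr V p F ≤ Pr V p (fun U => F (insert v U)) :=
      Pr_mono hp0 hp1 fun U _ h => hF _ _ (Finset.subset_insert _ _) h
    have h1 := ih E F hE hF
    have h2 := ih (fun U => E (insert v U)) (fun U => F (insert v U))
      (fun U U' hU h => hE _ _ (Finset.insert_subset_insert v hU) h)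
      (fun U U' hU h => hF _ _ (Finset.insert_subset_insert v hU) h)
    have h3 := mul_le_mul_of_nonneg_left h1 (sub_nonneg.mpr hp1)
    have h4 := mul_le_mul_of_nonneg_left h2 hp0
    have h5 := mul_nonneg (mul_nonneg hp0 (sub_nonneg.mpr hp1))
      (mul_nonneg (sub_nonneg.mpr he) (sub_nonneg.mpr hf))
    nlinarith [h3, h4, h5]

/-- [UB-P1] PROOF. `Finset.induction_on s`; the empty product is `1 = Pr_true`; step: `harris` for `E a` and `fun U => ∀ i ∈ s, E i U` (increasing), `Pr_congr` (`Finset.forall_mem_insert`), `mul_le_mul_of_nonneg_left`. -/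
theorem harrisF {α ι : Type*} {p : ℝ} (hp0 : 0 ≤ p) (hp1 : p ≤ 1) (V : Finset α) (s : Finset ι)
    (E : ι → Finset α → Prop) (hE : ∀ i ∈ s, Inc (E i)) :
    ∏ i ∈ s, Pr V p (E i) ≤ Pr V p (fun U => ∀ i ∈ s, E i U) := by
  induction s using Finset.induction_on with
  | empty =>
    rw [Finset.prod_empty, ← Pr_true (V := V) (p := p)]
    exact (Pr_congr fun U _ => by simp).le
  | insert a s ha ih =>
    rw [Finset.prod_insert ha]
    have h1 := ih (fun i hi => hE i (Finset.mem_insert_of_mem hi))
    have h2 : Inc (fun U => ∀ i ∈ s, E i U) := fun U U' hU h i hi =>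
      hE i (Finset.mem_insert_of_mem hi) _ _ hU (h i hi)
    have h3 := harris hp0 hp1 V (E a) (fun U => ∀ i ∈ s, E i U)
      (hE a (Finset.mem_insert_self _ _)) h2
    refine (mul_le_mul_of_nonneg_left h1 (Pr_nonneg hp0 hp1)).trans (h3.trans ?_)
    exact (Pr_congr fun U _ => (Finset.forall_mem_insert a s (fun i => E i U)).symm).le

end UB
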