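import Pool.Agent.UB.R1a
import Pool.Agent.UB.M5
import Pool.Agent.UB.P1

set_option autoImplicit false

open scoped Classical
open Finset BTP

namespace UB

section
variable {D s h : ℕ}

theorem r1b_mem_cube {b : ℕ} {v : Site D} : v ∈ cube D b ↔ ∀ m, 1 ≤ v m ∧ v m ≤ b := by
  unfold cube
  rw [m5_mem_cubeAt]
  simp only [zero_add]

theorem r1b_pull_mono {i : Fin (D + 1)} {c c' : ℤ} {U U' : Set (Mk (D + 1))} (hU : U ⊆ U') :
    pull h i c c' U ⊆ pull h i c c' U' := by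
  rintro w (⟨h1, h2⟩ | ⟨h1, h2⟩)
  · exact Or.inl ⟨h1, hU h2⟩
  · exact Or.inr ⟨h1, hU h2⟩

/-- the event of the step `a`, direction `i`, corner `ε` -/
def r1b_E (s h : ℕ) (t : ℕ × (Fin (D + 1) × (Fin D → Bool))) (U : Finset (Mk (D + 1))) : Prop :=
  Fill s (h + 1) (cubeAt (fun j => if t.2.2 j then 1 else 0) t.1)
    (pull h t.2.1 (t.1 + 1) (t.1 + 1 + 1) (U : Set (Mk (D + 1))))

theorem r1b_inc (t : ℕ × (Fin (D + 1) × (Fin D → Bool))) : Inc (r1b_E s h t) := by
  intro U U' hU hE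
  exact Fill_mono (r1b_pull_mono (Finset.coe_subset.2 hU)) hE

theorem r1b_layer {b a : ℕ} {i : Fin (D + 1)} {ε : Fin D → Bool} {c : ℤ} (hc1 : 1 ≤ c) (hc2 : c ≤ b)
    (hab : a + 1 ≤ b) :
    ∀ y ∈ cubeAt (fun j => if ε j then 1 else 0) a, (i.insertNth c y : Site (D + 1)) ∈ cube (D + 1) b := by
  intro y hy
  rw [m5_mem_cubeAt] at hy
  rw [r1b_mem_cube]
  intro m
  rcases Fin.eq_self_or_eq_succAbove i m with rfl | ⟨j, rfl⟩
  · rw [Fin.insertNth_apply_same]; exact ⟨hc1, hc2⟩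
  · rw [Fin.insertNth_apply_succAbove]
    have h1 := hy j
    have h2 : ((a : ℤ) + 1) ≤ b := by exact_mod_cast hab
    split_ifs at h1 <;> constructor <;> linarith [h1.1, h1.2]

theorem r1b_card : (Finset.univ : Finset (Fin (D + 1) × (Fin D → Bool))).card = (D + 1) * 2 ^ D := by
  rw [Finset.card_univ, Fintype.card_prod, Fintype.card_fin, Fintype.card_fun, Fintype.card_bool,
    Fintype.card_fin]

theorem r1b_prod (b : ℕ) (hb : 1 ≤ b) {p : ℝ} (hp0 : 0 ≤ p) (hp1 : p ≤ 1) :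
    (∏ a ∈ Finset.Ico 1 (b - 1), Q D s (h + 1) a p ^ ((D + 1) * 2 ^ D)) *
      Q D s h (b - 1) p ^ ((D + 1) * 2 ^ D) ≤
    ∏ t ∈ (Finset.Ico 1 b) ×ˢ (Finset.univ : Finset (Fin (D + 1) × (Fin D → Bool))),
      Pr (mks (cube (D + 1) b) h) p (r1b_E s h t) := by
  rcases Nat.lt_or_ge b 2 with hb2 | hb2
  · have : b = 1 := by omega
    subst this
    simp only [Nat.sub_self, Finset.Ico_self, Finset.empty_product, Finset.prod_empty]
    have h0 : Finset.Ico 1 0 = (∅ : Finset ℕ) := by decide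
    rw [h0, Finset.prod_empty, one_mul]
    exact pow_le_one₀ (Q_nonneg hp0 hp1 _ _ _ _) (Q_le_one hp0 hp1 _ _ _ _)
  · obtain ⟨n, rfl⟩ : ∃ n, b = n + 1 := ⟨b - 1, by omega⟩
    rw [Finset.prod_product, Finset.prod_Ico_succ_top (by omega), Nat.add_sub_cancel]
    have key1 : ∀ a ∈ Finset.Ico 1 n, Q D s (h + 1) a p ^ ((D + 1) * 2 ^ D) =
        ∏ x : Fin (D + 1) × (Fin D → Bool), Pr (mks (cube (D + 1) (n + 1)) h) p (r1b_E s h (a, x)) := by
      intro a ha
      rw [Finset.mem_Ico] at ha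
      rw [← r1b_card, ← Finset.prod_const]
      apply Finset.prod_congr rfl
      intro x _
      unfold r1b_E
      symm
      apply Pr_pull_help
      · linarith
      · apply r1b_layer
        · have := Int.natCast_nonneg (a); linarith
        · push_cast; have : (a : ℤ) < n := by exact_mod_cast ha.2
          linarith
        · omega
      · apply r1b_layer
        · have := Int.natCast_nonneg (a); linarith
        · push_cast; have : (a : ℤ) < n := by exact_mod_cast ha.2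
          linarith
        · omega
    have key2 : Q D s h n p ^ ((D + 1) * 2 ^ D) ≤
        ∏ x : Fin (D + 1) × (Fin D → Bool), Pr (mks (cube (D + 1) (n + 1)) h) p (r1b_E s h (n, x)) := by
      rw [← r1b_card, ← Finset.prod_const]
      apply Finset.prod_le_prod
      · intro x _; exact Q_nonneg hp0 hp1 _ _ _ _
      · intro x _
        have h1 : Pr (mks (cube (D + 1) (n + 1)) h) p (fun U => Fill s h
            (cubeAt (fun j => if x.2 j then 1 else 0) n)
            (pull h x.1 (n + 1) (n + 1 + 1) (U : Set (Mk (D + 1))))) = Q D s h n p := by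
          apply Pr_pull_nohelp
          apply r1b_layer
          · have := Int.natCast_nonneg (n); linarith
          · push_cast; linarith
          · omega
        rw [← h1]
        apply Pr_mono hp0 hp1
        intro U _ hU
        exact Fill_succ hU
    rw [Finset.prod_congr rfl key1]
    exact mul_le_mul_of_nonneg_left key2
      (Finset.prod_nonneg fun a _ => Finset.prod_nonneg fun x _ => Pr_nonneg hp0 hp1)

/-- [UB-R1b] first recursion.
PROOF. `b = 1`: `1 - 1 = 0`, `Finset.Ico 1 0 = ∅`, `Q D s h 0 = 1` or just `≤ 1` (`Q_le_one`), and `Q_rec_det` with no condition `hF` gives `p = Pr ((1, 0) ∈ U) ≤ Q` (`BTP.Pr_subset` for `{(1, 0)} ⊆ mks (cube (D+1) 1) h`).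
`b ≥ 2`: `V = mks (cube (D+1) b) h`. By `Q_rec_det` and `Pr_mono` (`U ⊆ V`) `Q (D+1) (s+1) h b p ≥ Pr V p (E₀ ∧ ∀ (a, i, ε) ∈ (Finset.Ico 1 b) ×ˢ univ ×ˢ univ, E a i ε)`, `E a i ε U = Fill s (h+1) (cubeAt ε a) (pull h i (a+1) (a+2) U)`; all these events are increasing (`pull` is monotone, `Fill_mono`). `harris`, `harrisF`: `≥ p * ∏_{a ∈ Ico 1 b} ∏_{i, ε} Pr V p (E a i ε)`.
For `a ∈ Ico 1 (b-1)`: `a + 2 ≤ b`, `Pr_pull_help`: the factor is `Q D s (h+1) a p`. For `a = b-1`: `Fill_succ` and `Pr_pull_nohelp`: the factor is `≥ Q D s h (b-1) p`. There are `(D+1) 2^D` pairs `(i, ε)` (`Fintype.card`), `Finset.prod_Ico_succ_top` (`b = (b-1) + 1`). Products of nonnegative factors: `Finset.prod_le_prod`. -/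
theorem Q_rec (D s h b : ℕ) (hb : 1 ≤ b) {p : ℝ} (hp0 : 0 ≤ p) (hp1 : p ≤ 1) :
    p * (∏ a ∈ Finset.Ico 1 (b - 1), Q D s (h + 1) a p ^ ((D + 1) * 2 ^ D)) *
      Q D s h (b - 1) p ^ ((D + 1) * 2 ^ D) ≤ Q (D + 1) (s + 1) h b p := by
  have hE0 : Pr (mks (cube (D + 1) b) h) p
      (fun U => ({((fun _ => 1 : Site (D + 1)), 0)} : Finset (Mk (D + 1))) ⊆ U) = p := by
    rw [BTP.Pr_subset, Finset.card_singleton, pow_one]
    rw [Finset.singleton_subset_iff, m5_mem_mks, r1b_mem_cube]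
    refine ⟨fun m => ⟨le_rfl, ?_⟩, Nat.zero_le _⟩
    change (1 : ℤ) ≤ (b : ℤ)
    exact_mod_cast hb
  have hE0inc : Inc (fun U : Finset (Mk (D + 1)) =>
      ({((fun _ => 1 : Site (D + 1)), 0)} : Finset (Mk (D + 1))) ⊆ U) :=
    fun U U' hU h0 => h0.trans hU
  have h1 := harrisF hp0 hp1 (mks (cube (D + 1) b) h)
    ((Finset.Ico 1 b) ×ˢ (Finset.univ : Finset (Fin (D + 1) × (Fin D → Bool))))
    (r1b_E s h) (fun t _ => r1b_inc t)
  have h2inc : Inc (fun U : Finset (Mk (D + 1)) =>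
      ∀ t ∈ (Finset.Ico 1 b) ×ˢ (Finset.univ : Finset (Fin (D + 1) × (Fin D → Bool))),
        r1b_E s h t U) := fun U U' hU hE t ht => r1b_inc t U U' hU (hE t ht)
  have h2 := harris hp0 hp1 (mks (cube (D + 1) b) h) _ _ hE0inc h2inc
  rw [hE0] at h2
  have h3 := r1b_prod (D := D) (s := s) (h := h) b hb hp0 hp1
  have h4 : Pr (mks (cube (D + 1) b) h) p (fun U =>
      ({((fun _ => 1 : Site (D + 1)), 0)} : Finset (Mk (D + 1))) ⊆ U ∧
      ∀ t ∈ (Finset.Ico 1 b) ×ˢ (Finset.univ : Finset (Fin (D + 1) × (Fin D → Bool))),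
        r1b_E s h t U) ≤ Q (D + 1) (s + 1) h b p := by
    apply Pr_mono hp0 hp1
    rintro U hU ⟨hU0, hUE⟩
    apply Q_rec_det b
    · intro w hw
      exact (m5_mem_mks.1 (hU (Finset.mem_coe.1 hw))).1
    · exact Finset.mem_coe.2 (Finset.singleton_subset_iff.1 hU0)
    · intro a ha1 ha2 i ε
      exact hUE (a, (i, ε)) (Finset.mem_product.2 ⟨Finset.mem_Ico.2 ⟨ha1, ha2⟩, Finset.mem_univ _⟩)
  rw [mul_assoc]
  exact le_trans (mul_le_mul_of_nonneg_left (h3.trans h1) hp0) (h2.trans h4)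

end

end UB
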