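import Pool.Agent.UB.M5

set_option autoImplicit false

open scoped Classical
open Finset BTP

namespace UB

section
variable {D s h : ℕ}

theorem r2b_sub (a b : ℕ) (t : Fin (D + 1) → Fin (a / b)) :
    cubeAt (fun i => ((b * (t i : ℕ) : ℕ) : ℤ)) b ⊆ cube (D + 1) a := by
  intro x hx
  rw [mem_cube]
  rw [cubeAt, Finset.mem_Icc, Pi.le_def, Pi.le_def] at hx
  intro m
  have h1 := hx.1 m
  have h2 := hx.2 m
  have h3 : b * (t m : ℕ) + b ≤ a := by
    have := (t m).2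
    calc b * (t m : ℕ) + b = b * ((t m : ℕ) + 1) := by ring
      _ ≤ b * (a / b) := Nat.mul_le_mul_left _ this
      _ ≤ a := Nat.mul_div_le a b
  have h4 : ((b * (t m : ℕ) : ℕ) : ℤ) + b ≤ a := by exact_mod_cast h3
  have h5 : (0 : ℤ) ≤ ((b * (t m : ℕ) : ℕ) : ℤ) := Int.natCast_nonneg _
  constructor <;> linarith

theorem r2b_lt (b : ℕ) {k l : ℕ} (hkl : k < l) {x : ℤ}
    (h1 : x ≤ ((b * k : ℕ) : ℤ) + b) (h2 : ((b * l : ℕ) : ℤ) + 1 ≤ x) : False := by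
  have h3 : b * k + b ≤ b * l := by
    calc b * k + b = b * (k + 1) := by ring
      _ ≤ b * l := Nat.mul_le_mul_left _ hkl
  have h4 : ((b * k : ℕ) : ℤ) + b ≤ ((b * l : ℕ) : ℤ) := by exact_mod_cast h3
  linarith

theorem r2b_disj (a b : ℕ) (t t' : Fin (D + 1) → Fin (a / b)) (hne : t ≠ t') :
    Disjoint (mks (cubeAt (fun i => ((b * (t i : ℕ) : ℕ) : ℤ)) b) h)
      (mks (cubeAt (fun i => ((b * (t' i : ℕ) : ℕ) : ℤ)) b) h) := by
  rw [Finset.disjoint_left]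
  intro w hw hw'
  rw [mem_mks] at hw hw'
  have hx := hw.1
  have hx' := hw'.1
  rw [cubeAt, Finset.mem_Icc, Pi.le_def, Pi.le_def] at hx hx'
  apply hne
  funext i
  apply Fin.ext
  rcases lt_trichotomy (t i : ℕ) (t' i : ℕ) with hlt | heq | hgt
  · exact (r2b_lt b hlt (hx.2 i) (hx'.1 i)).elim
  · exact heq
  · exact (r2b_lt b hgt (hx'.2 i) (hx.1 i)).elim

/-- [UB-R2b] no block is filled: independence.
PROOF. For `t : Fin (D+1) → Fin (a / b)` the cubes `cubeAt (fun i => b * t i) b ⊆ cube (D+1) a` are pairwise disjoint (`(a/b) * b ≤ a`; if `t i < t' i` then `b t i + b ≤ b t' i < b t' i + 1`), so `Pr_all_dep` (`Finset.univ`, `Dep.not`, `Dep_Fill`) and `Q_trans`, `Pr_compl`; `Fintype.card (Fin (D+1) → Fin (a/b)) = (a/b)^(D+1)`, `Finset.prod_const`. -/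
theorem Pr_no_block (a b : ℕ) (hb : 1 ≤ b) {p : ℝ} (hp0 : 0 ≤ p) (hp1 : p ≤ 1) :
    Pr (mks (cube (D + 1) a) h) p (fun U => ∀ t : Fin (D + 1) → Fin (a / b),
      ¬ Fill (s + 1) h (cubeAt (fun i => ((b * (t i : ℕ) : ℕ) : ℤ)) b) (U : Set (Mk (D + 1)))) =
      (1 - Q (D + 1) (s + 1) h b p) ^ ((a / b) ^ (D + 1)) := by
  have key := Pr_all_dep (p := p) (mks (cube (D + 1) a) h)
    (Finset.univ : Finset (Fin (D + 1) → Fin (a / b)))
    (fun t => mks (cubeAt (fun i => ((b * (t i : ℕ) : ℕ) : ℤ)) b) h)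
    (fun t U => ¬ Fill (s + 1) h (cubeAt (fun i => ((b * (t i : ℕ) : ℕ) : ℤ)) b)
      (U : Set (Mk (D + 1))))
    (fun t _ => Dep.not (Dep_Fill _)) (fun t _ t' _ hne => r2b_disj a b t t' hne)
  have h1 : Pr (mks (cube (D + 1) a) h) p (fun U => ∀ t : Fin (D + 1) → Fin (a / b),
      ¬ Fill (s + 1) h (cubeAt (fun i => ((b * (t i : ℕ) : ℕ) : ℤ)) b) (U : Set (Mk (D + 1)))) =
      Pr (mks (cube (D + 1) a) h) p (fun U => ∀ t ∈ (Finset.univ : Finset (Fin (D + 1) → Fin (a / b))),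
      ¬ Fill (s + 1) h (cubeAt (fun i => ((b * (t i : ℕ) : ℕ) : ℤ)) b) (U : Set (Mk (D + 1)))) :=
    Pr_congr fun U _ => ⟨fun hU t _ => hU t, fun hU t => hU t (Finset.mem_univ t)⟩
  rw [h1, key]
  have h2 : ∀ t ∈ (Finset.univ : Finset (Fin (D + 1) → Fin (a / b))),
      Pr (mks (cube (D + 1) a) h) p (fun U => ¬ Fill (s + 1) h
        (cubeAt (fun i => ((b * (t i : ℕ) : ℕ) : ℤ)) b) (U : Set (Mk (D + 1)))) =
      1 - Q (D + 1) (s + 1) h b p := by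
    intro t _
    rw [Pr_compl, Q_trans _ _ _ (r2b_sub a b t)]
  rw [Finset.prod_congr rfl h2, Finset.prod_const, Finset.card_univ, Fintype.card_fun,
    Fintype.card_fin, Fintype.card_fin]

end

end UB
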