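import Pool.Agent.UB.R2a
import Pool.Agent.UB.R2b

set_option autoImplicit false

open scoped Classical
open Finset BTP

namespace UB

section
variable {D s h : ℕ}

/-- bad cubes of the layers -/
noncomputable def r2c_idx (D a b : ℕ) : Finset (Fin (D + 1) × ℤ × Site D) :=
  Finset.univ ×ˢ (Finset.Icc (1 : ℤ) a ×ˢ Finset.Icc (0 : Site D) (fun _ => (a : ℤ) - b))

theorem r2c_card (D a b : ℕ) (hb : 1 ≤ b) (hab : b ≤ a) :
    ((r2c_idx D a b).card : ℝ) ≤ ((D : ℝ) + 1) * (a : ℝ) ^ (D + 1) := by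
  have h1 : (r2c_idx D a b).card = (D + 1) * (a * (a - b + 1) ^ D) := by
    unfold r2c_idx
    rw [Finset.card_product, Finset.card_product, Finset.card_univ, Fintype.card_fin,
      Int.card_Icc, Pi.card_Icc]
    have h2 : ∀ i ∈ (Finset.univ : Finset (Fin D)),
        (Finset.Icc ((0 : Site D) i) ((fun _ : Fin D => (a : ℤ) - b) i)).card = a - b + 1 := by
      intro i _
      rw [Int.card_Icc]
      simp only [Pi.zero_apply]
      omega
    rw [Finset.prod_congr rfl h2, Finset.prod_const, Finset.card_univ, Fintype.card_fin]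
    congr 2
    omega
  have h3 : (r2c_idx D a b).card ≤ (D + 1) * a ^ (D + 1) := by
    rw [h1, pow_succ, mul_comm (a ^ D) a]
    apply Nat.mul_le_mul_left
    apply Nat.mul_le_mul_left
    apply Nat.pow_le_pow_left
    omega
  calc ((r2c_idx D a b).card : ℝ) ≤ (((D + 1) * a ^ (D + 1) : ℕ) : ℝ) := by exact_mod_cast h3
    _ = _ := by push_cast; ring

/-- [UB-R2c] second recursion.
PROOF. `V = mks (cube (D+1) a) h`. `1 - Q (D+1) (s+1) h a p = Pr V p (¬ Fill (s+1) h (cube (D+1) a) U)` (`Pr_compl`). By `Q_blocks_det` this event implies: (no block of `Pr_no_block` is filled) or (`∃ (i, c, z)` in the finite set `univ ×ˢ Finset.Icc 1 a ×ˢ (functions z with 0 ≤ z j ≤ a - b, e.g. Finset.Icc 0 (fun _ => a - b))` with `¬ Fill s h (cubeAt z b) (pull h i c 0 U)`). `BTP.Pr_or`, `BTP.Pr_union`, `Pr_pull_nohelp` and `Pr_compl`: each term is `1 - Q D s h b p`; their number is `(D+1) * a * (a - b + 1)^D ≤ (D+1) * a^(D+1)`. (If `a / b = 0` the claim is trivial;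 here `b ≤ a`.) -/
theorem Q_blocks (D s h a b : ℕ) (hb : 1 ≤ b) (hab : b ≤ a) {p : ℝ} (hp0 : 0 ≤ p) (hp1 : p ≤ 1) :
    1 - Q (D + 1) (s + 1) h a p ≤
      (1 - Q (D + 1) (s + 1) h b p) ^ ((a / b) ^ (D + 1)) +
      ((D : ℝ) + 1) * (a : ℝ) ^ (D + 1) * (1 - Q D s h b p) := by
  set V : Finset (Mk (D + 1)) := mks (cube (D + 1) a) h with hV
  have e1 : 1 - Q (D + 1) (s + 1) h a p =
      Pr V p (fun U => ¬ Fill (s + 1) h (cube (D + 1) a) (U : Set (Mk (D + 1)))) := by
    rw [Pr_compl]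
    rfl
  have hincl : Pr V p (fun U => ¬ Fill (s + 1) h (cube (D + 1) a) (U : Set (Mk (D + 1)))) ≤
      Pr V p (fun U => (∀ t : Fin (D + 1) → Fin (a / b),
        ¬ Fill (s + 1) h (cubeAt (fun i => ((b * (t i : ℕ) : ℕ) : ℤ)) b) (U : Set (Mk (D + 1)))) ∨
        ∃ w ∈ r2c_idx D a b, ¬ Fill s h (cubeAt w.2.2 b) (pull h w.1 w.2.1 0 (U : Set (Mk (D + 1))))) := by
    refine Pr_mono hp0 hp1 fun U hU hnf => ?_
    by_contra hcon
    push Not at hcon
    obtain ⟨⟨t, ht⟩, hgood⟩ := hcon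
    apply hnf
    refine Q_blocks_det a b hb (U := (U : Set (Mk (D + 1)))) ?_
      (fun i => ((b * (t i : ℕ) : ℕ) : ℤ)) ?_ ht ?_
    · intro w hw
      exact (mem_mks.mp (hU hw)).1
    · intro i
      have h3 : b * (t i : ℕ) + b ≤ a := by
        have := (t i).2
        calc b * (t i : ℕ) + b = b * ((t i : ℕ) + 1) := by ring
          _ ≤ b * (a / b) := Nat.mul_le_mul_left _ this
          _ ≤ a := Nat.mul_div_le a b
      have h4 : ((b * (t i : ℕ) : ℕ) : ℤ) + b ≤ a := by exact_mod_cast h3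
      exact ⟨Int.natCast_nonneg _, h4⟩
    · intro i c hc1 hc2 z hz
      refine hgood (i, c, z) ?_
      unfold r2c_idx
      rw [Finset.mem_product, Finset.mem_product]
      refine ⟨Finset.mem_univ _, Finset.mem_Icc.mpr ⟨hc1, hc2⟩, Finset.mem_Icc.mpr ⟨?_, ?_⟩⟩
      · rw [Pi.le_def]
        intro j
        exact (hz j).1
      · rw [Pi.le_def]
        intro j
        have := (hz j).2
        show z j ≤ (a : ℤ) - b
        linarith
  have hun : Pr V p (fun U => ∃ w ∈ r2c_idx D a b,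
      ¬ Fill s h (cubeAt w.2.2 b) (pull h w.1 w.2.1 0 (U : Set (Mk (D + 1))))) ≤
      ∑ w ∈ r2c_idx D a b, (1 - Q D s h b p) := by
    refine (Pr_union hp0 hp1 (r2c_idx D a b) _).trans (le_of_eq (Finset.sum_congr rfl ?_))
    intro w hw
    unfold r2c_idx at hw
    rw [Finset.mem_product, Finset.mem_product] at hw
    obtain ⟨_, hc, hz⟩ := hw
    rw [Finset.mem_Icc] at hc hz
    rw [Pi.le_def, Pi.le_def] at hz
    rw [Pr_compl, Pr_pull_nohelp]
    intro y hy
    rw [cubeAt, Finset.mem_Icc, Pi.le_def, Pi.le_def] at hy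
    rw [mem_cube]
    intro m
    rcases Fin.eq_self_or_eq_succAbove w.1 m with hm | ⟨j, hm⟩
    · rw [hm, Fin.insertNth_apply_same]
      exact hc
    · rw [hm, Fin.insertNth_apply_succAbove]
      have h1 := hy.1 j
      have h2 := hy.2 j
      have h3 := hz.1 j
      have h4 := hz.2 j
      simp only [Pi.zero_apply] at h3
      constructor <;> linarith
  rw [Finset.sum_const, nsmul_eq_mul] at hun
  have hq : 0 ≤ 1 - Q D s h b p := by
    have := Q_le_one hp0 hp1 D s h b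
    linarith
  have hfin : ((r2c_idx D a b).card : ℝ) * (1 - Q D s h b p) ≤
      ((D : ℝ) + 1) * (a : ℝ) ^ (D + 1) * (1 - Q D s h b p) :=
    mul_le_mul_of_nonneg_right (r2c_card D a b hb hab) hq
  have hnb := Pr_no_block (D := D) (s := s) (h := h) a b hb hp0 hp1
  rw [e1]
  refine hincl.trans ((Pr_or hp0 hp1).trans ?_)
  rw [← hV] at hnb
  rw [hnb]
  linarith

end

end UB
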