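import Pool.Agent.BTP.P6
import Pool.Agent.BTP.P7
import Pool.Agent.BTR.G0

set_option autoImplicit false

open scoped Classical
open Finset

/-! # Upper bound for `r`-neighbour bootstrap percolation (all `d ≥ r ≥ 2`): definitions

Model `M(D, s, h)`: sites `x ∈ ℤ^D`, marks `(x, j)`, `0 ≤ j ≤ h`. A site of the box is infected if `(x, 0)` is a mark, or if
(number of infected neighbours) + (number of marks `(x, j)`, `1 ≤ j ≤ h`) `≥ s`. -/

namespace UB

/-- sites -/
abbrev Site (D : ℕ) := Fin D → ℤ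
/-- marks: `(x, 0)` is the site `x` itself, `(x, j)`, `1 ≤ j ≤ h`, are the helping sites of `x` -/
abbrev Mk (D : ℕ) := Site D × ℕ

section
variable {D : ℕ}

/-- number of neighbours of `x` in `S` -/
noncomputable def nb (S : Set (Site D)) (x : Site D) : ℕ :=
  ∑ i : Fin D, ((if Function.update x i (x i + 1) ∈ S then 1 else 0) +
    (if Function.update x i (x i - 1) ∈ S then 1 else 0))

/-- number of helping marks of `x` -/
noncomputable def mk (h : ℕ) (U : Set (Mk D)) (x : Site D) : ℕ :=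
  ((Finset.Icc 1 h).filter (fun j => (x, j) ∈ U)).card

/-- `S` is closed in the box `B` for the threshold `s` and the marks `U` -/
def Cl (s h : ℕ) (B : Finset (Site D)) (U : Set (Mk D)) (S : Set (Site D)) : Prop :=
  ∀ x ∈ B, ((x, 0) ∈ U → x ∈ S) ∧ (s ≤ nb S x + mk h U x → x ∈ S)

/-- the box `B` is internally filled by the marks `U` -/
def Fill (s h : ℕ) (B : Finset (Site D)) (U : Set (Mk D)) : Prop :=
  ∀ S : Set (Site D), Cl s h B U S → ∀ x ∈ B, x ∈ S

/-- the cube `{z + 1, …, z + b}^D` -/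
noncomputable def cubeAt (z : Site D) (b : ℕ) : Finset (Site D) :=
  Finset.Icc (fun i => z i + 1) (fun i => z i + b)

/-- the marks over `B` -/
noncomputable def mks (B : Finset (Site D)) (h : ℕ) : Finset (Mk D) := B ×ˢ Finset.range (h + 1)

/-- the box `{v : v i = x, 1 ≤ v m ≤ t for m ≠ i}` -/
noncomputable def face (i : Fin D) (x t : ℕ) : Finset (Site D) :=
  Finset.Icc (fun m => if m = i then (x : ℤ) else 1) (fun m => if m = i then (x : ℤ) else (t : ℤ))

/-- the box `∏ {1, …, t i}` -/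
noncomputable def bx (t : Fin D → ℕ) : Finset (Site D) := Finset.Icc (fun _ => 1) (fun i => (t i : ℤ))

/-- a mark of height `j` over `F` -/
def hit (F : Finset (Site D)) (j : ℕ) (U : Finset (Mk D)) : Prop := ∃ v ∈ F, (v, j) ∈ U

/-- a mark of height at most `h` over `F` -/
def res (h : ℕ) (F : Finset (Site D)) (U : Finset (Mk D)) : Prop := ∃ j ≤ h, hit F j U

/-- no double gap at the levels `a < x ≤ b`, the last level is resolved -/
def Sq (h : ℕ) (L : ℕ → Finset (Site D)) (a b : ℕ) (U : Finset (Mk D)) : Prop :=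
  ∀ x, a < x → x ≤ b → res h (L x) U ∨ (x < b ∧ hit (L (x + 1)) 0 U)

/-- standard growth from the cube of side `a` to the cube of side `b` -/
def St (h a b : ℕ) (U : Finset (Mk D)) : Prop :=
  ∀ i : Fin D, Sq h (fun x => face i x (x - 2)) a b U

end

/-- the cube `{1, …, b}^D` -/
noncomputable def cube (D b : ℕ) : Finset (Site D) := cubeAt (fun _ => 0) b

/-- the probability that the cube of side `b` is internally filled in the model `M(D, s, h)` -/
noncomputable def Q (D s h b : ℕ) (p : ℝ) : ℝ :=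
  BTP.Pr (mks (cube D b) h) p (fun U => Fill s h (cube D b) (U : Set (Mk D)))

/-- the marks over `{1, …, b}^D \ {1, …, a}^D` -/
noncomputable def shell (D h a b : ℕ) : Finset (Mk D) := mks (cube D b \ cube D a) h

/-- the marks of the layer `c` in direction `i`, helped by the layer `c'` -/
def pull {D : ℕ} (h : ℕ) (i : Fin (D + 1)) (c c' : ℤ) (U : Set (Mk (D + 1))) : Set (Mk D) :=
  {w | (w.2 ≤ h ∧ ((i.insertNth c w.1 : Site (D + 1)), w.2) ∈ U) ∨
    (w.2 = h + 1 ∧ ((i.insertNth c' w.1 : Site (D + 1)), 0) ∈ U)}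

/-! ## The detour -/

section
variable {D : ℕ}

/-- the sites over the edge of the cube of side `s` in the directions `0`, `1` -/
noncomputable def corner (D s δ : ℕ) : Finset (Site (D + 2)) :=
  Finset.Icc (fun m => if m = 0 then (s + 1 : ℤ) else if m = 1 then (s + δ + 1 : ℤ) else 1)
    (fun m => if m = 0 then (s + 1 : ℤ) else if m = 1 then (s + δ + 1 : ℤ) else (s : ℤ))

/-- the middle part of a detour: growth from the cube of side `s` to the cube of side `s + w`, where direction `0` has a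
double gap at `s + 1` and direction `1` has a double gap at `s + δ + 1` -/
def Mid (h s δ w : ℕ) (U : Finset (Mk (D + 2))) : Prop :=
  (¬ res h (face 0 (s + 1) s) U ∧ ¬ res h (face 0 (s + 2) s) U ∧ hit (face 0 (s + 3) s) 0 U ∧
    Sq h (fun x => face 0 x s) (s + 3) (s + w) U) ∧
  (Sq h (fun x => face 1 x s) s (s + δ) U ∧ ¬ res h (face 1 (s + δ + 1) s) U ∧
    ¬ res h (face 1 (s + δ + 2) s) U ∧ hit (face 1 (s + δ + 3) s) 0 U ∧
    Sq h (fun x => face 1 x s) (s + δ + 3) (s + w) U) ∧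
  (∀ i : Fin (D + 2), i ≠ 0 → i ≠ 1 → Sq h (fun x => face i x s) s (s + w) U) ∧
  hit (corner D s δ) 0 U

/-- a detour at `(i, i + δ)` in the window `a < x ≤ a + l` -/
def Det (h a l w i δ : ℕ) (U : Finset (Mk (D + 2))) : Prop :=
  St h a (a + i) U ∧ Mid h (a + i) δ w U ∧ St h (a + i + w) (a + l) U

/-- a detour in the window -/
def Win (h a l w : ℕ) (U : Finset (Mk (D + 2))) : Prop :=
  ∃ i δ, i + w ≤ l ∧ δ + 3 ≤ w ∧ Det h a l w i δ U

end

/-! ## Parameters -/

/-- `A = p^{-1/κ}` -/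
noncomputable def Ap (kap : ℕ) (p : ℝ) : ℝ := p ^ (-(1 / (kap : ℝ)))

/-- probability that a face with `m` sites is hit -/
noncomputable def uu (p : ℝ) (m : ℕ) : ℝ := 1 - (1 - p) ^ m

/-- the event `E` depends only on `U ∩ B` -/
def Dep {α : Type*} (B : Finset α) (E : Finset α → Prop) : Prop := ∀ U, (E U ↔ E (U ∩ B))

/-- the facts about `β_m` used below (all proved by helper30 (BTG)): -/
def BetaOK (m : ℕ) : Prop :=
  (∀ u, 0 ≤ u → u ≤ 1 → BTR.bk m u ^ 2 = (1 - (1 - u) ^ m) * BTR.bk m u + u * (1 - u) ^ m) ∧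
  (∀ u, 0 ≤ u → u ≤ 1 → u ≤ BTR.bk m u) ∧
  (∀ u, 0 ≤ u → u ≤ 1 → 1 - (1 - u) ^ m ≤ BTR.bk m u) ∧
  (∀ u, 0 ≤ u → u ≤ 1 → BTR.bk m u ≤ 1) ∧
  (∀ u u', 0 ≤ u → u ≤ u' → u' ≤ 1 → BTR.bk m u ≤ BTR.bk m u') ∧
  (∀ c u, 0 ≤ c → c ≤ 1 → 0 ≤ u → u ≤ 1 → c * BTR.bk m u ≤ BTR.bk m (c * u))

end UB
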