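import Pool.Agent.UB.D0

set_option autoImplicit false

open scoped Classical
open Finset BTP

namespace UB

section
variable {D s h : ℕ}

/-- [UB-M1] -/
theorem nb_mono {S S' : Set (Site D)} (hS : S ⊆ S') (x : Site D) : nb S x ≤ nb S' x := by
  unfold nb
  refine Finset.sum_le_sum fun i _ => Nat.add_le_add ?_ ?_
  · by_cases h1 : Function.update x i (x i + 1) ∈ S
    · rw [if_pos h1, if_pos (hS h1)]
    · rw [if_neg h1]
      exact Nat.zero_le _
  · by_cases h1 : Function.update x i (x i - 1) ∈ S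
    · rw [if_pos h1, if_pos (hS h1)]
    · rw [if_neg h1]
      exact Nat.zero_le _

theorem mk_mono {U U' : Set (Mk D)} (hU : U ⊆ U') (x : Site D) : mk h U x ≤ mk h U' x := by
  unfold mk
  refine Finset.card_le_card fun j hj => ?_
  rw [Finset.mem_filter] at hj ⊢
  exact ⟨hj.1, hU hj.2⟩

theorem m1_Cl_anti {B : Finset (Site D)} {U U' : Set (Mk D)} (hU : U ⊆ U') {S : Set (Site D)}
    (hS : Cl s h B U' S) : Cl s h B U S := fun x hx =>
  ⟨fun h0 => (hS x hx).1 (hU h0), fun h1 => (hS x hx).2 (h1.trans (Nat.add_le_add_left (mk_mono hU x) _))⟩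

/-- [UB-M1] PROOF. A set closed for `U'` is closed for `U ⊆ U'`. -/
theorem Fill_mono {B : Finset (Site D)} {U U' : Set (Mk D)} (hU : U ⊆ U') (hF : Fill s h B U) :
    Fill s h B U' := fun S hS => hF S (m1_Cl_anti hU hS)

/-- [UB-M1] -/
theorem Fill_inc (B : Finset (Site D)) : Inc (fun U : Finset (Mk D) => Fill s h B (U : Set (Mk D))) := by
  intro U U' hUU' hF
  exact Fill_mono (Finset.coe_subset.mpr hUU') hF

theorem m1_mk_loc {U U' : Set (Mk D)} {x : Site D} (hU : ∀ j ≤ h, ((x, j) ∈ U ↔ (x, j) ∈ U')) :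
    mk h U x = mk h U' x := by
  unfold mk
  refine congrArg Finset.card (Finset.filter_congr fun j hj => ?_)
  exact hU j (Finset.mem_Icc.mp hj).2

theorem m1_Cl_loc {B : Finset (Site D)} {U U' : Set (Mk D)}
    (hU : ∀ x ∈ B, ∀ j ≤ h, ((x, j) ∈ U ↔ (x, j) ∈ U')) {S : Set (Site D)} (hS : Cl s h B U S) :
    Cl s h B U' S := by
  intro x hx
  have h1 := hS x hx
  rw [m1_mk_loc (hU x hx), hU x hx 0 (Nat.zero_le h)] at h1
  exact h1

/-- [UB-M1] PROOF. `mk h U x` and the condition `(x, 0) ∈ U` depend only on the marks `(x, j)`, `j ≤ h`, `x ∈ B`. -/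
theorem Fill_loc {B : Finset (Site D)} {U U' : Set (Mk D)}
    (hU : ∀ x ∈ B, ∀ j ≤ h, ((x, j) ∈ U ↔ (x, j) ∈ U')) : Fill s h B U ↔ Fill s h B U' :=
  ⟨fun hF S hS => hF S (m1_Cl_loc (fun x hx j hj => (hU x hx j hj).symm) hS),
    fun hF S hS => hF S (m1_Cl_loc hU hS)⟩

/-- [UB-M1] `Dep`. PROOF. `Fill_loc`, `mks B h = B ×ˢ range (h+1)`. -/
theorem Dep_Fill (B : Finset (Site D)) :
    Dep (mks B h) (fun U : Finset (Mk D) => Fill s h B (U : Set (Mk D))) := by
  intro U
  refine Fill_loc fun x hx j hj => ?_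
  rw [Finset.mem_coe, Finset.mem_coe]
  refine ⟨fun h1 => (@Finset.mem_inter _ (fun a b => Classical.propDecidable (a = b)) _ _ _).mpr ⟨h1, ?_⟩,
    fun h1 => ((@Finset.mem_inter _ (fun a b => Classical.propDecidable (a = b)) _ _ _).mp h1).1⟩
  unfold mks
  rw [Finset.mem_product]
  exact ⟨hx, Finset.mem_range.mpr (Nat.lt_succ_of_le hj)⟩

/-- [UB-M1] more helping marks. PROOF. `mk h U x ≤ mk (h+1) U x`. -/
theorem Fill_succ {B : Finset (Site D)} {U : Set (Mk D)} (hF : Fill s h B U) : Fill s (h + 1) B U := by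
  intro S hS
  refine hF S fun x hx => ⟨(hS x hx).1, fun h1 => (hS x hx).2 (h1.trans (Nat.add_le_add_left ?_ _))⟩
  unfold mk
  refine Finset.card_le_card (Finset.filter_subset_filter _ ?_)
  exact Finset.Icc_subset_Icc le_rfl (Nat.le_succ h)

/-- [UB-M1] a set closed in a big box is closed in a small box -/
theorem Cl_sub {B B' : Finset (Site D)} {U : Set (Mk D)} {S : Set (Site D)} (hB : B ⊆ B')
    (hS : Cl s h B' U S) : Cl s h B U S := fun x hx => hS x (hB hx)

theorem m1_mem_cubeAt {z x : Site D} {b : ℕ} :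
    x ∈ cubeAt z b ↔ ∀ i, z i + 1 ≤ x i ∧ x i ≤ z i + b := by
  unfold cubeAt
  rw [Finset.mem_Icc, Pi.le_def, Pi.le_def, ← forall_and]

theorem m1_mem_cube {x : Site D} {b : ℕ} :
    x ∈ cube D b ↔ ∀ i, 1 ≤ x i ∧ x i ≤ b := by
  unfold cube
  rw [m1_mem_cubeAt]
  simp only [zero_add]

theorem m1_update (y z : Site D) (i : Fin D) (a a' : ℤ) (ha : a' = a + z i) :
    Function.update (y + z) i a' = Function.update y i a + z := by
  funext j
  by_cases hj : j = i
  · subst hj
    rw [Pi.add_apply, Function.update_self, Function.update_self, ha]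
  · rw [Pi.add_apply, Function.update_of_ne hj, Function.update_of_ne hj, Pi.add_apply]

theorem m1_nb_trans (S : Set (Site D)) (y z : Site D) : nb {w | w + z ∈ S} y = nb S (y + z) := by
  unfold nb
  refine Finset.sum_congr rfl fun i _ => ?_
  rw [m1_update y z i (y i + 1) ((y + z) i + 1) (by rw [Pi.add_apply]; ring),
    m1_update y z i (y i - 1) ((y + z) i - 1) (by rw [Pi.add_apply]; ring)]
  rfl

theorem m1_Cl_trans (z : Site D) (b : ℕ) (U : Set (Mk D)) (S : Set (Site D)) :
    Cl s h (cubeAt z b) U S ↔ Cl s h (cube D b) {w | (w.1 + z, w.2) ∈ U} {y | y + z ∈ S} := by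
  constructor
  · intro hS y hy
    have hyz : y + z ∈ cubeAt z b := by
      rw [m1_mem_cubeAt]
      rw [m1_mem_cube] at hy
      intro i
      have := hy i
      rw [Pi.add_apply]
      omega
    have h1 := hS (y + z) hyz
    refine ⟨fun h0 => h1.1 h0, fun h2 => h1.2 ?_⟩
    rw [m1_nb_trans] at h2
    exact h2
  · intro hS x hx
    have hxz : x - z ∈ cube D b := by
      rw [m1_mem_cubeAt] at hx
      rw [m1_mem_cube]
      intro i
      have := hx i
      rw [Pi.sub_apply]
      omega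
    have h1 := hS (x - z) hxz
    rw [m1_nb_trans, sub_add_cancel] at h1
    have h2 : (mk h {w : Mk D | (w.1 + z, w.2) ∈ U} (x - z)) = mk h U x := by
      unfold mk
      refine congrArg Finset.card (Finset.filter_congr fun j _ => ?_)
      rw [Set.mem_ofPred_eq, sub_add_cancel]
    rw [h2, Set.mem_ofPred_eq, Set.mem_ofPred_eq, sub_add_cancel] at h1
    exact h1

/-- [UB-M1] translation. PROOF. `S ↦ {y | y + z ∈ S}` (and back) exchanges the closed sets: `nb {y | y + z ∈ S} y = nb S (y + z)` since `Function.update (y + z) i ((y + z) i ± 1) = Function.update y i (y i ± 1) + z`; `y ∈ cube D b ↔ y + z ∈ cubeAt z b`. -/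
theorem Fill_trans (z : Site D) (b : ℕ) (U : Set (Mk D)) :
    Fill s h (cubeAt z b) U ↔ Fill s h (cube D b) {w | (w.1 + z, w.2) ∈ U} := by
  constructor
  · intro hF S' hS' y hy
    have e : {w : Site D | w + z ∈ {x : Site D | x - z ∈ S'}} = S' := by
      ext w
      rw [Set.mem_ofPred_eq, Set.mem_ofPred_eq, add_sub_cancel_right]
    have h1 := hF {x | x - z ∈ S'} ((m1_Cl_trans z b U _).mpr (by rw [e]; exact hS')) (y + z) (by
      rw [m1_mem_cubeAt]
      rw [m1_mem_cube] at hy
      intro i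
      have := hy i
      rw [Pi.add_apply]
      omega)
    rw [Set.mem_ofPred_eq, add_sub_cancel_right] at h1
    exact h1
  · intro hF S hS x hx
    have h1 := hF {y | y + z ∈ S} ((m1_Cl_trans z b U S).mp hS) (x - z) (by
      rw [m1_mem_cubeAt] at hx
      rw [m1_mem_cube]
      intro i
      have := hx i
      rw [Pi.sub_apply]
      omega)
    rw [Set.mem_ofPred_eq, sub_add_cancel] at h1
    exact h1

end

end UB
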