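import Pool.Agent.UB.M1

set_option autoImplicit false

open scoped Classical
open Finset BTP

namespace UB

section
variable {D s h : ℕ}

theorem m2_upd_same (i : Fin (D + 1)) (c : ℤ) (y : Site D) (a : ℤ) :
    Function.update (i.insertNth c y : Site (D + 1)) i a = (i.insertNth a y : Site (D + 1)) := by
  funext k
  rcases Fin.eq_self_or_eq_succAbove i k with rfl | ⟨j, rfl⟩
  · rw [Function.update_self, Fin.insertNth_apply_same]
  · rw [Function.update_of_ne (Fin.succAbove_ne i j), Fin.insertNth_apply_succAbove,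
      Fin.insertNth_apply_succAbove]

theorem m2_upd_succ (i : Fin (D + 1)) (c : ℤ) (y : Site D) (j : Fin D) (a : ℤ) :
    Function.update (i.insertNth c y : Site (D + 1)) (i.succAbove j) a =
      (i.insertNth c (Function.update y j a) : Site (D + 1)) := by
  funext k
  rcases Fin.eq_self_or_eq_succAbove i k with rfl | ⟨j', rfl⟩
  · rw [Function.update_of_ne (Fin.succAbove_ne _ j).symm, Fin.insertNth_apply_same,
      Fin.insertNth_apply_same]
  · rw [Fin.insertNth_apply_succAbove]
    by_cases h : j' = j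
    · subst h
      rw [Function.update_self, Function.update_self]
    · rw [Function.update_of_ne (fun h' => h (Fin.succAbove_right_injective h')),
        Function.update_of_ne h, Fin.insertNth_apply_succAbove]

theorem m2_mk (h : ℕ) (i : Fin (D + 1)) (c c' : ℤ) (U : Set (Mk (D + 1))) (y : Site D) :
    mk (h + 1) (pull h i c c' U) y ≤ mk h U (i.insertNth c y : Site (D + 1)) +
      (if ((i.insertNth c' y : Site (D + 1)), 0) ∈ U then 1 else 0) := by
  unfold mk
  have h1 : (Finset.Icc 1 (h + 1)).filter (fun j => (y, j) ∈ pull h i c c' U) ⊆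
      (Finset.Icc 1 h).filter (fun j => ((i.insertNth c y : Site (D + 1)), j) ∈ U) ∪
      ({h + 1} : Finset ℕ).filter (fun _ => ((i.insertNth c' y : Site (D + 1)), 0) ∈ U) := by
    intro j hj
    rw [Finset.mem_filter, Finset.mem_Icc] at hj
    rw [Finset.mem_union, Finset.mem_filter, Finset.mem_filter, Finset.mem_Icc, Finset.mem_singleton]
    obtain ⟨⟨h2, h3⟩, h4⟩ := hj
    rcases h4 with ⟨h5, h6⟩ | ⟨h5, h6⟩
    · exact Or.inl ⟨⟨h2, h5⟩, h6⟩
    · exact Or.inr ⟨h5, h6⟩
  refine (Finset.card_le_card h1).trans ((Finset.card_union_le _ _).trans ?_)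
  refine Nat.add_le_add_left ?_ _
  split_ifs with h7
  · exact (Finset.card_filter_le _ _).trans (by simp)
  · rw [Finset.filter_false_of_mem (fun _ _ => h7)]
    simp

/-- [UB-M2] the neighbours of a site of a layer.
PROOF. `Fin.sum_univ_succAbove _ i`; `Function.update (i.insertNth c y) i a = i.insertNth a y` (`Fin.update_insertNth` or `funext` with `Fin.eq_self_or_eq_succAbove`), `Function.update (i.insertNth c y) (i.succAbove j) a = i.insertNth c (Function.update y j a)`, `Fin.insertNth_apply_same`, `Fin.insertNth_apply_succAbove`. -/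
theorem nb_insertNth (i : Fin (D + 1)) (c : ℤ) (y : Site D) (S : Set (Site (D + 1))) :
    nb S (i.insertNth c y : Site (D + 1)) =
      (if (i.insertNth (c + 1) y : Site (D + 1)) ∈ S then 1 else 0) +
      (if (i.insertNth (c - 1) y : Site (D + 1)) ∈ S then 1 else 0) +
      nb {z : Site D | (i.insertNth c z : Site (D + 1)) ∈ S} y := by
  unfold nb
  rw [Fin.sum_univ_succAbove _ i]
  have h1 : ∀ a : ℤ, Function.update (i.insertNth c y : Site (D + 1)) i a =
      (i.insertNth a y : Site (D + 1)) := fun a => m2_upd_same i c y a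
  have h2 : (i.insertNth c y : Site (D + 1)) i = c := Fin.insertNth_apply_same (α := fun _ => ℤ) i c y
  rw [h2, h1, h1]
  congr 1
  refine Finset.sum_congr rfl fun j _ => ?_
  have h3 : (i.insertNth c y : Site (D + 1)) (i.succAbove j) = y j :=
    Fin.insertNth_apply_succAbove (α := fun _ => ℤ) i c y j
  rw [h3, m2_upd_succ, m2_upd_succ]
  rfl

/-- [UB-M2] a layer over a filled layer `c - e`, helped by the layer `c + e`.
PROOF. Apply `hF` to `S' = {y | i.insertNth c y ∈ S}`. It is closed in `K` for the threshold `s`, the number `h + 1` and the marks `pull h i c (c+e) U`: let `y ∈ K`.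
If `(y, 0) ∈ pull`, then `(i.insertNth c y, 0) ∈ U` (the second alternative needs `0 = h + 1`), so `i.insertNth c y ∈ S` by the first part of `hS`.
If `s ≤ nb S' y + mk (h+1) pull y`: `mk (h+1) pull y ≤ mk h U (i.insertNth c y) + t`, `t = 1` if `(i.insertNth (c+e) y, 0) ∈ U` and `0` otherwise (`Finset.Icc 1 (h+1) = insert (h+1) (Finset.Icc 1 h)`); if `t = 1` then `i.insertNth (c+e) y ∈ S` (by `hU` it lies in `Λ`, then `hS`). By `nb_insertNth` and `hin`: `nb S (i.insertNth c y) ≥ 1 + t + nb S' y` (both cases `e = ±1`). So `s + 1 ≤ nb S (..) + mk h U (..)`. -/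
theorem layer {Λ : Finset (Site (D + 1))} {U : Set (Mk (D + 1))} {S : Set (Site (D + 1))}
    (hS : Cl (s + 1) h Λ U S) (hU : ∀ w ∈ U, w.1 ∈ Λ) (i : Fin (D + 1)) (c e : ℤ) (he : e = 1 ∨ e = -1)
    {K : Finset (Site D)} (hK : ∀ y ∈ K, (i.insertNth c y : Site (D + 1)) ∈ Λ)
    (hin : ∀ y ∈ K, (i.insertNth (c - e) y : Site (D + 1)) ∈ S)
    (hF : Fill s (h + 1) K (pull h i c (c + e) U)) :
    ∀ y ∈ K, (i.insertNth c y : Site (D + 1)) ∈ S := by
  intro y hy
  refine hF {y | (i.insertNth c y : Site (D + 1)) ∈ S} ?_ y hy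
  intro y hy
  refine ⟨?_, ?_⟩
  · rintro (⟨_, h2⟩ | ⟨h1, _⟩)
    · exact (hS _ (hK y hy)).1 h2
    · exact absurd h1 (by simp)
  · intro hs
    refine (hS _ (hK y hy)).2 ?_
    rw [nb_insertNth]
    have hmk := m2_mk h i c (c + e) U y
    have hhelp : (if ((i.insertNth (c + e) y : Site (D + 1)), 0) ∈ U then 1 else 0) ≤
        (if (i.insertNth (c + e) y : Site (D + 1)) ∈ S then 1 else 0) := by
      split_ifs with h1 h2
      · exact le_rfl
      · exact absurd ((hS _ (hU _ h1)).1 h1) h2
      · exact Nat.zero_le _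
      · exact le_rfl
    have hin' : (i.insertNth (c - e) y : Site (D + 1)) ∈ S := hin y hy
    have hsum : 1 + (if (i.insertNth (c + e) y : Site (D + 1)) ∈ S then 1 else 0) =
        (if (i.insertNth (c + 1) y : Site (D + 1)) ∈ S then 1 else 0) +
        (if (i.insertNth (c - 1) y : Site (D + 1)) ∈ S then 1 else 0) := by
      rcases he with he | he
      · subst he
        rw [if_pos hin', add_comm]
      · subst he
        rw [sub_neg_eq_add] at hin'
        rw [if_pos hin', ← sub_eq_add_neg]
    omega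

end

end UB
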