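import Pool.Agent.UB.M2

set_option autoImplicit false

open scoped Classical
open Finset BTP

namespace UB

section
variable {D s h : ℕ}

theorem m3_eq (i : Fin (D + 1)) (x : Site (D + 1)) :
    x = (i.insertNth (x i) (fun j => x (i.succAbove j)) : Site (D + 1)) := by
  funext k
  rcases Fin.eq_self_or_eq_succAbove i k with rfl | ⟨j, rfl⟩
  · rw [Fin.insertNth_apply_same]
  · rw [Fin.insertNth_apply_succAbove]

/-- [UB-M3] a box with all sides `≥ b` is the union of its cubes of side `b`. PROOF. `z i = min (y i) (hi i - b + 1) - 1`. -/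
theorem cover (lo hi : Site D) (b : ℕ) (hb : 1 ≤ b) (hs : ∀ i, lo i + b ≤ hi i + 1) {y : Site D}
    (hy : y ∈ Finset.Icc lo hi) :
    ∃ z : Site D, (∀ i, lo i ≤ z i + 1 ∧ z i + b ≤ hi i) ∧ y ∈ cubeAt z b := by
  rw [Finset.mem_Icc, Pi.le_def, Pi.le_def] at hy
  refine ⟨fun i => min (y i) (hi i - b + 1) - 1, fun i => ?_, ?_⟩
  · have h1 := hy.1 i
    have h2 := hy.2 i
    have h3 := hs i
    constructor
    · show lo i ≤ min (y i) (hi i - b + 1) - 1 + 1
      rw [sub_add_cancel, le_min_iff]
      exact ⟨h1, by linarith⟩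
    · show min (y i) (hi i - b + 1) - 1 + b ≤ hi i
      have := min_le_right (y i) (hi i - b + 1)
      linarith
  · unfold cubeAt
    rw [Finset.mem_Icc, Pi.le_def, Pi.le_def]
    have hb' : (1 : ℤ) ≤ b := by exact_mod_cast hb
    refine ⟨fun i => ?_, fun i => ?_⟩
    · show min (y i) (hi i - b + 1) - 1 + 1 ≤ y i
      have := min_le_left (y i) (hi i - b + 1)
      linarith
    · show y i ≤ min (y i) (hi i - b + 1) - 1 + b
      have h2 := hy.2 i
      rcases min_choice (y i) (hi i - b + 1) with h | h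
      · rw [h]; linarith
      · rw [h]; linarith

/-- [UB-M3] one step upwards in direction `i`.
PROOF. `x ∈ Icc lo (update hi i (hi i + 1))`: if `x i ≤ hi i`, use `hQ`. Otherwise `x = i.insertNth (hi i + 1) y` with `y = fun j => x (i.succAbove j)` (`Fin.insertNth_self_removeNth`-type lemma or `funext`), `y ∈ Icc (lo ∘ i.succAbove) (hi ∘ i.succAbove)`; `cover` gives `z`, and `layer` with `K = cubeAt z b`, `c = hi i + 1`, `e = 1`: for `y' ∈ K`, `i.insertNth c y' ∈ Icc LO HI ⊆ Λ`, `i.insertNth (c-1) y' ∈ Icc lo hi`. -/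
theorem grow_up {b : ℕ} (hb : 1 ≤ b) {Λ : Finset (Site (D + 1))} {U : Set (Mk (D + 1))}
    {S : Set (Site (D + 1))} (hS : Cl (s + 1) h Λ U S) (hU : ∀ w ∈ U, w.1 ∈ Λ)
    (lo hi : Site (D + 1)) (hside : ∀ i, lo i + b ≤ hi i + 1) (i : Fin (D + 1))
    (hΛ : Finset.Icc lo (Function.update hi i (hi i + 1)) ⊆ Λ) (hQ : ∀ x ∈ Finset.Icc lo hi, x ∈ S)
    (hF : ∀ z : Site D, (∀ j, lo (i.succAbove j) ≤ z j + 1 ∧ z j + b ≤ hi (i.succAbove j)) →
      Fill s (h + 1) (cubeAt z b) (pull h i (hi i + 1) (hi i + 1 + 1) U)) :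
    ∀ x ∈ Finset.Icc lo (Function.update hi i (hi i + 1)), x ∈ S := by
  intro x hx
  rw [Finset.mem_Icc] at hx
  obtain ⟨hx1, hx2⟩ := hx
  by_cases hxi : x i ≤ hi i
  · refine hQ x ?_
    rw [Finset.mem_Icc]
    refine ⟨hx1, fun k => ?_⟩
    by_cases hk : k = i
    · rw [hk]; exact hxi
    · have h1 := hx2 k
      rw [Function.update_of_ne hk] at h1
      exact h1
  · have hb' : (1 : ℤ) ≤ b := by exact_mod_cast hb
    have hxe : x i = hi i + 1 := by
      have h1 : x i ≤ hi i + 1 := by
        have h2 := hx2 i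
        rwa [Function.update_self] at h2
      omega
    set y : Site D := fun j => x (i.succAbove j) with hy
    have hxy : x = (i.insertNth (hi i + 1) y : Site (D + 1)) := by
      rw [← hxe]
      exact m3_eq i x
    have hyI : y ∈ Finset.Icc (fun j => lo (i.succAbove j)) (fun j => hi (i.succAbove j)) := by
      rw [Finset.mem_Icc]
      refine ⟨fun j => hx1 _, fun j => ?_⟩
      have h1 := hx2 (i.succAbove j)
      rw [Function.update_of_ne (Fin.succAbove_ne i j)] at h1
      exact h1
    obtain ⟨z, hz, hyz⟩ := cover _ _ b hb (fun j => hside (i.succAbove j)) hyI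
    have hK : ∀ y' ∈ cubeAt z b, ∀ j, lo (i.succAbove j) ≤ y' j ∧ y' j ≤ hi (i.succAbove j) := by
      intro y' hy' j
      unfold cubeAt at hy'
      rw [Finset.mem_Icc] at hy'
      have h1 := hy'.1 j
      have h2 := hy'.2 j
      have h3 := hz j
      simp only at h1 h2
      constructor
      · linarith [h3.1]
      · linarith [h3.2]
    have hlohi : lo i ≤ hi i := by have := hside i; linarith
    rw [hxy]
    refine layer hS hU i (hi i + 1) 1 (Or.inl rfl) (K := cubeAt z b) ?_ ?_ (hF z hz) y hyz
    · intro y' hy'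
      apply hΛ
      rw [Finset.mem_Icc]
      constructor
      · intro k
        rcases Fin.eq_self_or_eq_succAbove i k with rfl | ⟨j, rfl⟩
        · rw [Fin.insertNth_apply_same]; linarith
        · rw [Fin.insertNth_apply_succAbove]; exact (hK y' hy' j).1
      · intro k
        rcases Fin.eq_self_or_eq_succAbove i k with rfl | ⟨j, rfl⟩
        · rw [Fin.insertNth_apply_same, Function.update_self]
        · rw [Fin.insertNth_apply_succAbove, Function.update_of_ne (Fin.succAbove_ne i j)]
          exact (hK y' hy' j).2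
    · intro y' hy'
      apply hQ
      rw [add_sub_cancel_right, Finset.mem_Icc]
      constructor
      · intro k
        rcases Fin.eq_self_or_eq_succAbove i k with rfl | ⟨j, rfl⟩
        · rw [Fin.insertNth_apply_same]; exact hlohi
        · rw [Fin.insertNth_apply_succAbove]; exact (hK y' hy' j).1
      · intro k
        rcases Fin.eq_self_or_eq_succAbove i k with rfl | ⟨j, rfl⟩
        · rw [Fin.insertNth_apply_same]
        · rw [Fin.insertNth_apply_succAbove]; exact (hK y' hy' j).2

/-- [UB-M3] one step downwards in direction `i` (as `grow_up`, `e = -1`) -/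
theorem grow_dn {b : ℕ} (hb : 1 ≤ b) {Λ : Finset (Site (D + 1))} {U : Set (Mk (D + 1))}
    {S : Set (Site (D + 1))} (hS : Cl (s + 1) h Λ U S) (hU : ∀ w ∈ U, w.1 ∈ Λ)
    (lo hi : Site (D + 1)) (hside : ∀ i, lo i + b ≤ hi i + 1) (i : Fin (D + 1))
    (hΛ : Finset.Icc (Function.update lo i (lo i - 1)) hi ⊆ Λ) (hQ : ∀ x ∈ Finset.Icc lo hi, x ∈ S)
    (hF : ∀ z : Site D, (∀ j, lo (i.succAbove j) ≤ z j + 1 ∧ z j + b ≤ hi (i.succAbove j)) →
      Fill s (h + 1) (cubeAt z b) (pull h i (lo i - 1) (lo i - 1 - 1) U)) :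
    ∀ x ∈ Finset.Icc (Function.update lo i (lo i - 1)) hi, x ∈ S := by
  intro x hx
  rw [Finset.mem_Icc] at hx
  obtain ⟨hx1, hx2⟩ := hx
  by_cases hxi : lo i ≤ x i
  · refine hQ x ?_
    rw [Finset.mem_Icc]
    refine ⟨fun k => ?_, hx2⟩
    by_cases hk : k = i
    · rw [hk]; exact hxi
    · have h1 := hx1 k
      rw [Function.update_of_ne hk] at h1
      exact h1
  · have hb' : (1 : ℤ) ≤ b := by exact_mod_cast hb
    have hxe : x i = lo i - 1 := by
      have h1 : lo i - 1 ≤ x i := by
        have h2 := hx1 i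
        rwa [Function.update_self] at h2
      omega
    set y : Site D := fun j => x (i.succAbove j) with hy
    have hxy : x = (i.insertNth (lo i - 1) y : Site (D + 1)) := by
      rw [← hxe]
      exact m3_eq i x
    have hyI : y ∈ Finset.Icc (fun j => lo (i.succAbove j)) (fun j => hi (i.succAbove j)) := by
      rw [Finset.mem_Icc]
      refine ⟨fun j => ?_, fun j => hx2 _⟩
      have h1 := hx1 (i.succAbove j)
      rw [Function.update_of_ne (Fin.succAbove_ne i j)] at h1
      exact h1
    obtain ⟨z, hz, hyz⟩ := cover _ _ b hb (fun j => hside (i.succAbove j)) hyI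
    have hK : ∀ y' ∈ cubeAt z b, ∀ j, lo (i.succAbove j) ≤ y' j ∧ y' j ≤ hi (i.succAbove j) := by
      intro y' hy' j
      unfold cubeAt at hy'
      rw [Finset.mem_Icc] at hy'
      have h1 := hy'.1 j
      have h2 := hy'.2 j
      have h3 := hz j
      simp only at h1 h2
      constructor
      · linarith [h3.1]
      · linarith [h3.2]
    have hlohi : lo i ≤ hi i := by have := hside i; linarith
    rw [hxy]
    have hF' : Fill s (h + 1) (cubeAt z b) (pull h i (lo i - 1) (lo i - 1 + -1) U) := by
      rw [← sub_eq_add_neg]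
      exact hF z hz
    refine layer hS hU i (lo i - 1) (-1) (Or.inr rfl) (K := cubeAt z b) ?_ ?_ hF' y hyz
    · intro y' hy'
      apply hΛ
      rw [Finset.mem_Icc]
      constructor
      · intro k
        rcases Fin.eq_self_or_eq_succAbove i k with rfl | ⟨j, rfl⟩
        · rw [Fin.insertNth_apply_same, Function.update_self]
        · rw [Fin.insertNth_apply_succAbove, Function.update_of_ne (Fin.succAbove_ne i j)]
          exact (hK y' hy' j).1
      · intro k
        rcases Fin.eq_self_or_eq_succAbove i k with rfl | ⟨j, rfl⟩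
        · rw [Fin.insertNth_apply_same]; linarith
        · rw [Fin.insertNth_apply_succAbove]; exact (hK y' hy' j).2
    · intro y' hy'
      apply hQ
      rw [sub_neg_eq_add, sub_add_cancel, Finset.mem_Icc]
      constructor
      · intro k
        rcases Fin.eq_self_or_eq_succAbove i k with rfl | ⟨j, rfl⟩
        · rw [Fin.insertNth_apply_same]
        · rw [Fin.insertNth_apply_succAbove]; exact (hK y' hy' j).1
      · intro k
        rcases Fin.eq_self_or_eq_succAbove i k with rfl | ⟨j, rfl⟩
        · rw [Fin.insertNth_apply_same]; exact hlohi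
        · rw [Fin.insertNth_apply_succAbove]; exact (hK y' hy' j).2

end

end UB
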