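import Pool.Agent.UB.M3

set_option autoImplicit false

open scoped Classical
open Finset BTP

namespace UB

section
variable {D s h : ℕ}

theorem m4_update_up (hi : Site D) (i j : Fin D) : hi j ≤ Function.update hi i (hi i + 1) j := by
  by_cases hj : j = i
  · subst hj
    rw [Function.update_self]
    omega
  · rw [Function.update_of_ne hj]

theorem m4_update_dn (lo : Site D) (i j : Fin D) : Function.update lo i (lo i - 1) j ≤ lo j := by
  by_cases hj : j = i
  · subst hj
    rw [Function.update_self]
    omega
  · rw [Function.update_of_ne hj]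

/-- [UB-M4] growth of a box to a bigger box.
PROOF. Induction on `n = ∑ i, ((lo i - LO i) + (HI i - hi i)).toNat` (for all `lo hi`). If `lo = LO` and `hi = HI`, done. If `hi i < HI i` for some `i`: `grow_up` (the cubes `z` allowed there satisfy `LO (i.succAbove j) ≤ lo (..) ≤ z j + 1`, `z j + b ≤ hi (..) ≤ HI (..)`; `c = hi i + 1 ≤ HI i`), and the induction hypothesis for `lo`, `Function.update hi i (hi i + 1)` (sides are still `≥ b`; `hup` for `c` above the new `hi` is weaker). If `LO i < lo i`: `grow_dn` in the same way. -/
theorem grow {b : ℕ} (hb : 1 ≤ b) {Λ : Finset (Site (D + 1))} {U : Set (Mk (D + 1))}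
    {S : Set (Site (D + 1))} (hS : Cl (s + 1) h Λ U S) (hU : ∀ w ∈ U, w.1 ∈ Λ)
    (lo hi LO HI : Site (D + 1)) (h1 : LO ≤ lo) (h2 : hi ≤ HI) (hside : ∀ i, lo i + b ≤ hi i + 1)
    (hΛ : Finset.Icc LO HI ⊆ Λ) (hQ : ∀ x ∈ Finset.Icc lo hi, x ∈ S)
    (hup : ∀ i : Fin (D + 1), ∀ c : ℤ, hi i < c → c ≤ HI i → ∀ z : Site D,
      (∀ j, LO (i.succAbove j) ≤ z j + 1 ∧ z j + b ≤ HI (i.succAbove j)) →
      Fill s (h + 1) (cubeAt z b) (pull h i c (c + 1) U))
    (hdn : ∀ i : Fin (D + 1), ∀ c : ℤ, c < lo i → LO i ≤ c → ∀ z : Site D,
      (∀ j, LO (i.succAbove j) ≤ z j + 1 ∧ z j + b ≤ HI (i.succAbove j)) →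
      Fill s (h + 1) (cubeAt z b) (pull h i c (c - 1) U)) :
    ∀ x ∈ Finset.Icc LO HI, x ∈ S := by
  have main : ∀ n : ℕ, ∀ lo hi : Site (D + 1),
      (∑ i, ((lo i - LO i) + (HI i - hi i)).toNat) ≤ n → LO ≤ lo → hi ≤ HI →
      (∀ i, lo i + b ≤ hi i + 1) → (∀ x ∈ Finset.Icc lo hi, x ∈ S) →
      (∀ i : Fin (D + 1), ∀ c : ℤ, hi i < c → c ≤ HI i → ∀ z : Site D,
        (∀ j, LO (i.succAbove j) ≤ z j + 1 ∧ z j + b ≤ HI (i.succAbove j)) →
        Fill s (h + 1) (cubeAt z b) (pull h i c (c + 1) U)) →
      (∀ i : Fin (D + 1), ∀ c : ℤ, c < lo i → LO i ≤ c → ∀ z : Site D,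
        (∀ j, LO (i.succAbove j) ≤ z j + 1 ∧ z j + b ≤ HI (i.succAbove j)) →
        Fill s (h + 1) (cubeAt z b) (pull h i c (c - 1) U)) →
      ∀ x ∈ Finset.Icc LO HI, x ∈ S := by
    intro n
    induction n with
    | zero =>
      intro lo hi hn h1 h2 _ hQ _ _
      have hz : ∀ i, ((lo i - LO i) + (HI i - hi i)).toNat = 0 := by
        intro i
        have := Finset.single_le_sum (f := fun i => ((lo i - LO i) + (HI i - hi i)).toNat)
          (fun j _ => Nat.zero_le _) (Finset.mem_univ i)
        exact Nat.le_zero.mp (this.trans hn)
      have e1 : lo = LO := by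
        funext i
        have a1 := hz i
        have a2 : LO i ≤ lo i := h1 i
        have a3 : hi i ≤ HI i := h2 i
        omega
      have e2 : hi = HI := by
        funext i
        have a1 := hz i
        have a2 : LO i ≤ lo i := h1 i
        have a3 : hi i ≤ HI i := h2 i
        omega
      subst e1
      subst e2
      exact hQ
    | succ n ih =>
      intro lo hi hn h1 h2 hside hQ hup hdn
      by_cases hA : ∃ i, hi i < HI i
      · obtain ⟨i, hi1⟩ := hA
        have hle : Function.update hi i (hi i + 1) ≤ HI := by
          intro j
          by_cases hj : j = i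
          · subst hj
            rw [Function.update_self]
            exact hi1
          · rw [Function.update_of_ne hj]
            exact h2 j
        refine ih lo (Function.update hi i (hi i + 1)) ?_ h1 hle ?_ ?_ ?_ hdn
        · refine Nat.le_of_lt_succ (lt_of_lt_of_le ?_ hn)
          refine Finset.sum_lt_sum (fun j _ => ?_) ⟨i, Finset.mem_univ i, ?_⟩
          · have := m4_update_up hi i j
            omega
          · rw [Function.update_self]
            have : LO i ≤ lo i := h1 i
            omega
        · intro j
          have a1 := m4_update_up hi i j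
          have a2 := hside j
          omega
        · refine grow_up hb hS hU lo hi hside i (fun x hx => hΛ ?_) hQ (fun z hz => ?_)
          · rw [Finset.mem_Icc] at hx ⊢
            exact ⟨h1.trans hx.1, hx.2.trans hle⟩
          · refine hup i (hi i + 1) (by omega) (by omega) z fun j => ?_
            have a1 : LO (i.succAbove j) ≤ lo (i.succAbove j) := h1 (i.succAbove j)
            have a2 : hi (i.succAbove j) ≤ HI (i.succAbove j) := h2 (i.succAbove j)
            have a3 := hz j
            constructor
            · omega
            · omega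
        · intro i' c hc1 hc2 z hz
          exact hup i' c (lt_of_le_of_lt (m4_update_up hi i i') hc1) hc2 z hz
      · by_cases hB : ∃ i, LO i < lo i
        · obtain ⟨i, hi1⟩ := hB
          have hle : LO ≤ Function.update lo i (lo i - 1) := by
            intro j
            by_cases hj : j = i
            · subst hj
              rw [Function.update_self]
              exact Int.le_sub_one_of_lt hi1
            · rw [Function.update_of_ne hj]
              exact h1 j
          refine ih (Function.update lo i (lo i - 1)) hi ?_ hle h2 ?_ ?_ hup ?_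
          · refine Nat.le_of_lt_succ (lt_of_lt_of_le ?_ hn)
            refine Finset.sum_lt_sum (fun j _ => ?_) ⟨i, Finset.mem_univ i, ?_⟩
            · have := m4_update_dn lo i j
              omega
            · rw [Function.update_self]
              have : hi i ≤ HI i := h2 i
              omega
          · intro j
            have a1 := m4_update_dn lo i j
            have a2 := hside j
            omega
          · refine grow_dn hb hS hU lo hi hside i (fun x hx => hΛ ?_) hQ (fun z hz => ?_)
            · rw [Finset.mem_Icc] at hx ⊢
              exact ⟨hle.trans hx.1, hx.2.trans h2⟩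
            · refine hdn i (lo i - 1) (by omega) (by omega) z fun j => ?_
              have a1 : LO (i.succAbove j) ≤ lo (i.succAbove j) := h1 (i.succAbove j)
              have a2 : hi (i.succAbove j) ≤ HI (i.succAbove j) := h2 (i.succAbove j)
              have a3 := hz j
              constructor
              · omega
              · omega
          · intro i' c hc1 hc2 z hz
            exact hdn i' c (lt_of_lt_of_le hc1 (m4_update_dn lo i i')) hc2 z hz
        · push Not at hA hB
          have e1 : lo = LO := le_antisymm hB h1
          have e2 : hi = HI := le_antisymm h2 hA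
          subst e1
          subst e2
          exact hQ
  exact main _ lo hi le_rfl h1 h2 hside hQ hup hdn

end

end UB
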