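import Pool.Agent.UB.P4

set_option autoImplicit false

open scoped Classical
open Finset BTP

namespace UB

section
variable {D h N : ℕ} {S : Set (Site D)}

/-- [UB-N1] -/
theorem mem_bx {t : Fin D → ℕ} {v : Site D} : v ∈ bx t ↔ ∀ m, 1 ≤ v m ∧ v m ≤ t m := by
  unfold bx
  rw [Finset.mem_Icc, Pi.le_def, Pi.le_def]
  exact ⟨fun h m => ⟨h.1 m, h.2 m⟩, fun h => ⟨fun m => (h m).1, fun m => (h m).2⟩⟩

/-- [UB-N1] -/
theorem cube_eq_bx (b : ℕ) : cube D b = bx (fun _ => b) := by
  ext v
  rw [mem_cube, mem_bx]

/-- the contribution of the direction `i` to `nb` -/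
noncomputable def n1_tm (S : Set (Site D)) (x : Site D) (i : Fin D) : ℕ :=
  (if Function.update x i (x i + 1) ∈ S then 1 else 0) +
    (if Function.update x i (x i - 1) ∈ S then 1 else 0)

theorem n1_nb (S : Set (Site D)) (x : Site D) : nb S x = ∑ i, n1_tm S x i := rfl

theorem n1_tm_one {x : Site D} {i : Fin D}
    (hx : Function.update x i (x i + 1) ∈ S ∨ Function.update x i (x i - 1) ∈ S) :
    1 ≤ n1_tm S x i := by
  unfold n1_tm
  rcases hx with hx | hx
  · rw [if_pos hx]; omega
  · rw [if_pos hx]; omega

theorem n1_one {x : Site D} {i : Fin D}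
    (hx : Function.update x i (x i + 1) ∈ S ∨ Function.update x i (x i - 1) ∈ S) :
    1 ≤ nb S x := by
  rw [n1_nb]
  exact (n1_tm_one hx).trans (Finset.single_le_sum (fun _ _ => Nat.zero_le _) (Finset.mem_univ i))

theorem n1_two {x : Site D} {i m : Fin D} (him : i ≠ m)
    (hx : Function.update x i (x i + 1) ∈ S ∨ Function.update x i (x i - 1) ∈ S)
    (hy : Function.update x m (x m + 1) ∈ S ∨ Function.update x m (x m - 1) ∈ S) :
    2 ≤ nb S x := by
  rw [n1_nb]
  have h1 : ∑ j ∈ ({i, m} : Finset (Fin D)), n1_tm S x j ≤ ∑ j, n1_tm S x j :=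
    Finset.sum_le_sum_of_subset (Finset.subset_univ _)
  rw [Finset.sum_pair him] at h1
  have h2 := n1_tm_one hx
  have h3 := n1_tm_one hy
  omega

theorem n1_same {x : Site D} {i : Fin D}
    (hx : Function.update x i (x i + 1) ∈ S) (hy : Function.update x i (x i - 1) ∈ S) :
    2 ≤ nb S x := by
  rw [n1_nb]
  have h1 : n1_tm S x i ≤ ∑ j, n1_tm S x j :=
    Finset.single_le_sum (fun _ _ => Nat.zero_le _) (Finset.mem_univ i)
  have h2 : n1_tm S x i = 2 := by
    unfold n1_tm
    rw [if_pos hx, if_pos hy]
  omega

theorem n1_le {t : Fin D → ℕ} {i : Fin D} (ht : ∀ m, t m ≤ N) (hi : t i + 1 ≤ N) (m : Fin D) :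
    Function.update t i (t i + 1) m ≤ N := by
  by_cases hm : m = i
  · subst hm
    rw [Function.update_self]
    exact hi
  · rw [Function.update_of_ne hm]
    exact ht m

/-- [UB-N1] threshold two: one infected site of a face of a filled box fills the face.
PROOF. Let `x ∈ bx (update t i (t i + 1))`. If `x i ≤ t i`, then `x ∈ bx t`. Otherwise `x i = t i + 1 = y i`; induction on `∑ m, (x m - y m).natAbs`: if `x = y`, done; otherwise choose `m` with `x m ≠ y m` (so `m ≠ i`), let `x'` be `x` with `x m` moved by `±1` towards `y m`; `x'` is in the same face (its coordinates are between those of `x` and `y`), so `x' ∈ S`. `x` has the infected neighbours `x'` (direction `m`) and `update x i (x i - 1) ∈ bx t` (direction `i ≠ m`), so `nb S x ≥ 2` and `x ∈ cube D N`. -/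
theorem face_fill {U : Set (Mk D)} (hS : Cl 2 h (cube D N) U S) (t : Fin D → ℕ) (ht : ∀ m, t m ≤ N)
    (hbx : ∀ x ∈ bx t, x ∈ S) (i : Fin D) (hti : 1 ≤ t i) (hi : t i + 1 ≤ N) (y : Site D)
    (hyi : y i = t i + 1) (hym : ∀ m, m ≠ i → 1 ≤ y m ∧ y m ≤ t m) (hyS : y ∈ S) :
    ∀ x ∈ bx (Function.update t i (t i + 1)), x ∈ S := by
  have hcube : ∀ x ∈ bx (Function.update t i (t i + 1)), x ∈ cube D N := by
    intro x hx
    rw [mem_bx] at hx
    rw [mem_cube]
    intro m
    have h1 := hx m
    have h2 := n1_le ht hi m
    refine ⟨h1.1, h1.2.trans ?_⟩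
    exact_mod_cast h2
  have key : ∀ n : ℕ, ∀ x ∈ bx (Function.update t i (t i + 1)), x i = t i + 1 →
      ∑ m, (x m - y m).natAbs = n → x ∈ S := by
    intro n
    induction n using Nat.strong_induction_on with
    | _ n ih =>
      intro x hx hxi hn
      by_cases hxy : x = y
      · rw [hxy]; exact hyS
      obtain ⟨m, hm⟩ : ∃ m, x m ≠ y m := by
        by_contra hc
        exact hxy (funext fun m => not_not.1 fun h => hc ⟨m, h⟩)
      have hmi : m ≠ i := by
        rintro rfl
        exact hm (hxi.trans hyi.symm)
      have hxb := mem_bx.1 hx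
      obtain ⟨e, he, he2⟩ : ∃ e : ℤ, (e = 1 ∨ e = -1) ∧
          ((x m + e - y m).natAbs < (x m - y m).natAbs ∧ 1 ≤ x m + e ∧ x m + e ≤ t m) := by
        have h1 := hxb m
        rw [Function.update_of_ne hmi] at h1
        have h2 := hym m hmi
        rcases lt_or_gt_of_ne hm with h3 | h3
        · exact ⟨1, Or.inl rfl, by omega, by omega, by omega⟩
        · exact ⟨-1, Or.inr rfl, by omega, by omega, by omega⟩
      have hx' : Function.update x m (x m + e) ∈ S := by
        refine ih (∑ k, (Function.update x m (x m + e) k - y k).natAbs) ?_ _ ?_ ?_ rfl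
        · rw [← hn]
          refine Finset.sum_lt_sum (fun k _ => ?_) ⟨m, Finset.mem_univ m, ?_⟩
          · by_cases hk : k = m
            · subst hk
              rw [Function.update_self]
              exact he2.1.le
            · rw [Function.update_of_ne hk]
          · rw [Function.update_self]
            exact he2.1
        · rw [mem_bx]
          intro k
          by_cases hk : k = m
          · subst hk
            rw [Function.update_self, Function.update_of_ne hmi]
            exact he2.2
          · rw [Function.update_of_ne hk]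
            exact hxb k
        · rw [Function.update_of_ne (Ne.symm hmi)]
          exact hxi
      have hd : Function.update x i (x i - 1) ∈ S := by
        apply hbx
        rw [mem_bx]
        intro k
        by_cases hk : k = i
        · subst hk
          rw [Function.update_self, hxi]
          constructor
          · omega
          · omega
        · have h1 := hxb k
          rw [Function.update_of_ne hk] at h1 ⊢
          exact h1
      have h2 : 2 ≤ nb S x := by
        refine n1_two (Ne.symm hmi) (Or.inr hd) ?_
        rcases he with he | he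
        · left; rw [← he]; exact hx'
        · right
          have h3 : x m - 1 = x m + e := by omega
          rw [h3]; exact hx'
      exact (hS x (hcube x hx)).2 (by omega)
  intro x hx
  have hxb := mem_bx.1 hx
  by_cases hxi : x i ≤ t i
  · apply hbx
    rw [mem_bx]
    intro k
    by_cases hk : k = i
    · subst hk
      exact ⟨(hxb k).1, hxi⟩
    · have h1 := hxb k
      rw [Function.update_of_ne hk] at h1
      exact h1
  · refine key _ x hx ?_ rfl
    have h1 := (hxb i).2
    rw [Function.update_self] at h1
    push_cast at h1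
    omega

/-- [UB-N1] a mark of height `≤ h` over the face fills the face.
PROOF. `y ∈ S`: if `j = 0` by the first part of `Cl`; if `j ≥ 1`, `nb S y ≥ 1` (`update y i (y i - 1) ∈ bx t`) and `mk h U y ≥ 1`. Then `face_fill`. -/
theorem face_mark {U : Set (Mk D)} (hS : Cl 2 h (cube D N) U S) (t : Fin D → ℕ) (ht : ∀ m, t m ≤ N)
    (hbx : ∀ x ∈ bx t, x ∈ S) (i : Fin D) (hti : 1 ≤ t i) (hi : t i + 1 ≤ N) (y : Site D)
    (hyi : y i = t i + 1) (hym : ∀ m, m ≠ i → 1 ≤ y m ∧ y m ≤ t m) (j : ℕ) (hj : j ≤ h)
    (hyU : (y, j) ∈ U) :
    ∀ x ∈ bx (Function.update t i (t i + 1)), x ∈ S := by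
  have hyb : y ∈ cube D N := by
    rw [mem_cube]
    intro m
    by_cases hm : m = i
    · subst hm
      rw [hyi]
      constructor
      · omega
      · exact_mod_cast hi
    · have h1 := hym m hm
      have h2 := ht m
      refine ⟨h1.1, h1.2.trans ?_⟩
      exact_mod_cast h2
  refine face_fill hS t ht hbx i hti hi y hyi hym ?_
  rcases Nat.eq_zero_or_pos j with hj0 | hj0
  · subst hj0
    exact (hS y hyb).1 hyU
  · refine (hS y hyb).2 ?_
    have h1 : 1 ≤ nb S y := by
      refine n1_one (i := i) (Or.inr (hbx _ ?_))
      rw [mem_bx]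
      intro k
      by_cases hk : k = i
      · subst hk
        rw [Function.update_self, hyi]
        constructor
        · omega
        · omega
      · rw [Function.update_of_ne hk]
        exact hym k hk
    have h2 : 1 ≤ mk h U y := by
      unfold mk
      rw [Nat.one_le_iff_ne_zero, ← Nat.pos_iff_ne_zero, Finset.card_pos]
      refine ⟨j, ?_⟩
      rw [Finset.mem_filter, Finset.mem_Icc]
      exact ⟨⟨hj0, hj⟩, hyU⟩
    omega

/-- [UB-N1] a mark of height `0` at distance two over the face fills the face.
PROOF. `y ∈ S` (first part of `Cl`), `y' = update y i (t i + 1)` has the neighbours `y` and `update y i (t i) ∈ bx t` in `S` (both in direction `i`), so `y' ∈ S`; `face_fill`. -/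
theorem face_above {U : Set (Mk D)} (hS : Cl 2 h (cube D N) U S) (t : Fin D → ℕ) (ht : ∀ m, t m ≤ N)
    (hbx : ∀ x ∈ bx t, x ∈ S) (i : Fin D) (hti : 1 ≤ t i) (hi : t i + 2 ≤ N) (y : Site D)
    (hyi : y i = t i + 2) (hym : ∀ m, m ≠ i → 1 ≤ y m ∧ y m ≤ t m) (hyU : (y, 0) ∈ U) :
    ∀ x ∈ bx (Function.update t i (t i + 1)), x ∈ S := by
  have hyb : y ∈ cube D N := by
    rw [mem_cube]
    intro m
    by_cases hm : m = i
    · subst hm
      rw [hyi]
      constructor
      · omega
      · exact_mod_cast hi
    · have h1 := hym m hm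
      have h2 := ht m
      refine ⟨h1.1, h1.2.trans ?_⟩
      exact_mod_cast h2
  have hyS : y ∈ S := (hS y hyb).1 hyU
  have h1 : ∀ m, m ≠ i → Function.update y i (t i + 1 : ℤ) m = y m := fun m hm =>
    Function.update_of_ne hm _ _
  refine face_fill hS t ht hbx i hti (by omega) (Function.update y i (t i + 1 : ℤ))
    (Function.update_self _ _ _) (fun m hm => by rw [h1 m hm]; exact hym m hm) ?_
  refine (hS _ ?_).2 ?_
  · rw [mem_cube]
    intro m
    by_cases hm : m = i
    · subst hm
      rw [Function.update_self]
      constructor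
      · omega
      · exact_mod_cast (by omega : t m + 1 ≤ N)
    · rw [h1 m hm]
      exact (mem_cube.1 hyb) m
  · have h2 : 2 ≤ nb S (Function.update y i (t i + 1 : ℤ)) := by
      refine n1_same (i := i) ?_ ?_
      · rw [Function.update_self, Function.update_idem]
        have h3 : (t i + 1 : ℤ) + 1 = y i := by rw [hyi]; ring
        rw [h3, Function.update_eq_self]
        exact hyS
      · rw [Function.update_self, Function.update_idem]
        apply hbx
        rw [mem_bx]
        intro k
        by_cases hk : k = i
        · subst hk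
          rw [Function.update_self]
          constructor
          · omega
          · omega
        · rw [Function.update_of_ne hk]
          exact hym k hk
    omega

end

end UB
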