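import Pool.Agent.UB.N1

set_option autoImplicit false

open scoped Classical
open Finset BTP

namespace UB

section
variable {D h N : ℕ} {S : Set (Site D)}

/-- [UB-N2] growth in one direction with frozen faces.
PROOF. Show `∀ x ∈ bx (update t i c), x ∈ S` for `t i ≤ c ≤ b` by induction on `c` (`c = t i`: `Function.update_eq_self`). Step `c → c + 1 ≤ b`: the level `c + 1` of `hsq` gives a mark `(v, j)`, `j ≤ h`, `v i = c + 1`, `1 ≤ v m ≤ cap ≤ t m`: `face_mark` for the box `update t i c`; or `c + 1 < b` and a mark `(v, 0)` with `v i = c + 2`: `face_above`. (`Function.update_idem`.) -/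
theorem seq_grow {U : Finset (Mk D)} (hS : Cl 2 h (cube D N) (U : Set (Mk D)) S) (t : Fin D → ℕ)
    (ht : ∀ m, t m ≤ N) (hbx : ∀ x ∈ bx t, x ∈ S) (i : Fin D) (hti : 1 ≤ t i) (b : ℕ) (hb : t i ≤ b)
    (hbN : b ≤ N) (cap : ℕ) (hcap : ∀ m, m ≠ i → cap ≤ t m)
    (hsq : Sq h (fun x => face i x cap) (t i) b U) :
    ∀ x ∈ bx (Function.update t i b), x ∈ S := by
  have key : ∀ c : ℕ, t i ≤ c → c ≤ b → ∀ x ∈ bx (Function.update t i c), x ∈ S := by
    intro c hc
    induction c, hc using Nat.le_induction with
    | base =>
      intro _
      rw [Function.update_eq_self]
      exact hbx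
    | succ c hc ih =>
      intro hcb
      have ih' := ih (by omega)
      have htN : ∀ m, Function.update t i c m ≤ N := by
        intro m
        by_cases hm : m = i
        · subst hm
          rw [Function.update_self]
          omega
        · rw [Function.update_of_ne hm]
          exact ht m
      have hself : Function.update t i c i = c := Function.update_self _ _ _
      have hface : ∀ v : Site D, ∀ z : ℕ, v ∈ face i z cap → ∀ m, m ≠ i → 1 ≤ v m ∧
          v m ≤ (Function.update t i c m : ℕ) := by
        intro v z hv m hm
        have h1 := (mem_face.1 hv).2 m hm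
        have h2 := hcap m hm
        rw [Function.update_of_ne hm]
        exact ⟨h1.1, h1.2.trans (by exact_mod_cast h2)⟩
      have hgoal : Function.update t i (c + 1) =
          Function.update (Function.update t i c) i (Function.update t i c i + 1) := by
        rw [hself, Function.update_idem]
      rw [hgoal]
      rcases hsq (c + 1) (by omega) hcb with ⟨j, hj, v, hv, hvU⟩ | ⟨hlt, v, hv, hvU⟩
      · refine face_mark hS _ htN ih' i (by rw [hself]; omega) (by rw [hself]; omega) v ?_
          (hface v _ hv) j hj (by exact_mod_cast hvU)
        rw [hself, (mem_face.1 hv).1]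
        push_cast
        ring
      · refine face_above hS _ htN ih' i (by rw [hself]; omega) (by rw [hself]; omega) v ?_
          (hface v _ hv) (by exact_mod_cast hvU)
        rw [hself, (mem_face.1 hv).1]
        push_cast
        ring
  exact key b hb le_rfl

/-- [UB-N2] standard growth.
PROOF. Show `∀ x ∈ cube D c, x ∈ S` for `a ≤ c ≤ b` by induction on `c`. Step `c → c + 1 ≤ b`: for each direction `i` the level `c + 1` of `hSt i` gives a mark `(v, j)`, `j ≤ h`, `v ∈ face i (c+1) (c-1)`, or (`c + 1 < b` and) a mark `(v, 0)`, `v ∈ face i (c+2) c`; by `face_mark` / `face_above` with `t = fun _ => c`: `bx (update (fun _ => c) i (c+1)) ⊆ S`. Now let `x ∈ cube D (c+1)`; induction on the number of coordinates `m` with `x m = c + 1`: none: `x ∈ cube D c`; one, `i`: `x ∈ bx (update (fun _ => c) i (c+1))`; at least two, `i ≠ j`: the neighbours `update x i (x i - 1)`, `update x j (x j - 1)` are in `S` by induction (`c ≥ 1`), so `nb S x ≥ 2`. -/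
theorem St_grow {a b : ℕ} (ha : 1 ≤ a) (hab : a ≤ b) (hb : b ≤ N) {U : Finset (Mk D)}
    (hS : Cl 2 h (cube D N) (U : Set (Mk D)) S) (h0 : ∀ x ∈ cube D a, x ∈ S) (hSt : St h a b U) :
    ∀ x ∈ cube D b, x ∈ S := by
  have key : ∀ c : ℕ, a ≤ c → c ≤ b → ∀ x ∈ cube D c, x ∈ S := by
    intro c hc
    induction c, hc using Nat.le_induction with
    | base => exact fun _ => h0
    | succ c hc ih =>
      intro hcb
      have ih' := ih (by omega)
      have hbx : ∀ x ∈ bx (fun _ : Fin D => c), x ∈ S := by
        intro x hx
        apply ih'
        rw [cube_eq_bx]
        exact hx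
      have htN : ∀ m : Fin D, (fun _ : Fin D => c) m ≤ N := fun m => by
        show c ≤ N
        omega
      have hfaces : ∀ i : Fin D, ∀ x ∈ bx (Function.update (fun _ : Fin D => c) i (c + 1)),
          x ∈ S := by
        intro i
        rcases hSt i (c + 1) (by omega) hcb with ⟨j, hj, v, hv, hvU⟩ | ⟨hlt, v, hv, hvU⟩
        · refine face_mark hS (fun _ : Fin D => c) htN hbx i (by show 1 ≤ c; omega)
            (by show c + 1 ≤ N; omega) v ?_ (fun m hm => ?_) j hj (by exact_mod_cast hvU)
          · rw [(mem_face.1 hv).1]
            push_cast
            ring
          · have h1 := (mem_face.1 hv).2 m hm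
            refine ⟨h1.1, h1.2.trans ?_⟩
            exact_mod_cast (by omega : c + 1 - 2 ≤ c)
        · refine face_above hS (fun _ : Fin D => c) htN hbx i (by show 1 ≤ c; omega)
            (by show c + 2 ≤ N; omega) v ?_ (fun m hm => ?_) (by exact_mod_cast hvU)
          · rw [(mem_face.1 hv).1]
            push_cast
            ring
          · have h1 := (mem_face.1 hv).2 m hm
            refine ⟨h1.1, h1.2.trans ?_⟩
            exact_mod_cast (by omega : c + 1 + 1 - 2 ≤ c)
      have key2 : ∀ n : ℕ, ∀ x ∈ cube D (c + 1),
          (Finset.univ.filter fun m => x m = (c : ℤ) + 1).card = n → x ∈ S := by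
        intro n
        induction n using Nat.strong_induction_on with
        | _ n ihn =>
          intro x hx hn
          have hxb := mem_cube.1 hx
          have hsmall : ∀ m, x m ≠ (c : ℤ) + 1 → 1 ≤ x m ∧ x m ≤ c := by
            intro m hm
            have h1 := hxb m
            push_cast at h1
            omega
          by_cases h2 : ∃ i j : Fin D, i ≠ j ∧ x i = (c : ℤ) + 1 ∧ x j = (c : ℤ) + 1
          · obtain ⟨i, j, hij, hi, hj⟩ := h2
            have hstep : ∀ k : Fin D, x k = (c : ℤ) + 1 → Function.update x k (x k - 1) ∈ S := by
              intro k hk
              refine ihn _ ?_ _ ?_ rfl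
              · rw [← hn]
                apply Finset.card_lt_card
                refine ⟨fun m hm => ?_, fun hsub => ?_⟩
                · rw [Finset.mem_filter] at hm ⊢
                  refine ⟨Finset.mem_univ _, ?_⟩
                  by_cases hmk : m = k
                  · subst hmk
                    exact hk
                  · rw [Function.update_of_ne hmk] at hm
                    exact hm.2
                · have h3 : k ∈ Finset.univ.filter fun m => x m = (c : ℤ) + 1 := by
                    rw [Finset.mem_filter]
                    exact ⟨Finset.mem_univ _, hk⟩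
                  have h4 := hsub h3
                  rw [Finset.mem_filter, Function.update_self, hk] at h4
                  have h5 := h4.2
                  omega
              · rw [mem_cube]
                intro m
                by_cases hmk : m = k
                · subst hmk
                  rw [Function.update_self, hk]
                  push_cast
                  omega
                · rw [Function.update_of_ne hmk]
                  exact hxb m
            have h3 : 2 ≤ nb S x := n1_two hij (Or.inr (hstep i hi)) (Or.inr (hstep j hj))
            refine (hS x ?_).2 (by omega)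
            rw [mem_cube]
            intro m
            refine ⟨(hxb m).1, (hxb m).2.trans ?_⟩
            exact_mod_cast (by omega : c + 1 ≤ N)
          · by_cases h3 : ∃ i : Fin D, x i = (c : ℤ) + 1
            · obtain ⟨i, hi⟩ := h3
              apply hfaces i
              rw [mem_bx]
              intro m
              by_cases hm : m = i
              · subst hm
                rw [Function.update_self, hi]
                push_cast
                omega
              · rw [Function.update_of_ne hm]
                exact hsmall m fun h4 => h2 ⟨m, i, hm, h4, hi⟩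
            · apply ih'
              rw [mem_cube]
              exact fun m => hsmall m fun h4 => h3 ⟨m, h4⟩
      exact fun x hx => key2 _ x hx rfl
  exact key b hab le_rfl

end

end UB
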