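import Pool.Agent.UB.N2

set_option autoImplicit false

open scoped Classical
open Finset BTP

namespace UB

section
variable {D h N : ℕ} {S : Set (Site (D + 2))}

/-- the box with sides `a`, `b` in the directions `0`, `1` and `c` in the others -/
def n3a_T (D a b c : ℕ) : Fin (D + 2) → ℕ := fun m => if m = 0 then a else if m = 1 then b else c

theorem n3a_ne : (1 : Fin (D + 2)) ≠ 0 := by
  intro h
  have := congrArg Fin.val h
  simp at this

theorem n3a_T0 (a b c : ℕ) : n3a_T D a b c 0 = a := by
  unfold n3a_T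
  rw [if_pos rfl]

theorem n3a_T1 (a b c : ℕ) : n3a_T D a b c 1 = b := by
  unfold n3a_T
  rw [if_neg n3a_ne, if_pos rfl]

theorem n3a_Tm (a b c : ℕ) {m : Fin (D + 2)} (h0 : m ≠ 0) (h1 : m ≠ 1) : n3a_T D a b c m = c := by
  unfold n3a_T
  rw [if_neg h0, if_neg h1]

theorem n3a_up0 (a b c a' : ℕ) : Function.update (n3a_T D a b c) 0 a' = n3a_T D a' b c := by
  funext m
  by_cases h0 : m = 0
  · subst h0
    rw [Function.update_self, n3a_T0]
  · rw [Function.update_of_ne h0]
    unfold n3a_T
    rw [if_neg h0, if_neg h0]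

theorem n3a_up1 (a b c b' : ℕ) : Function.update (n3a_T D a b c) 1 b' = n3a_T D a b' c := by
  funext m
  by_cases h1 : m = 1
  · subst h1
    rw [Function.update_self, n3a_T1]
  · rw [Function.update_of_ne h1]
    unfold n3a_T
    by_cases h0 : m = 0
    · rw [if_pos h0, if_pos h0]
    · rw [if_neg h0, if_neg h0, if_neg h1, if_neg h1]

theorem n3a_le {a b c M : ℕ} (ha : a ≤ M) (hb : b ≤ M) (hc : c ≤ M) (m : Fin (D + 2)) :
    n3a_T D a b c m ≤ M := by
  unfold n3a_T
  split_ifs <;> assumption

theorem n3a_ge {a b c M : ℕ} (ha : M ≤ a) (hb : M ≤ b) (hc : M ≤ c) (m : Fin (D + 2)) :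
    M ≤ n3a_T D a b c m := by
  unfold n3a_T
  split_ifs <;> assumption

/-- step (1) -/
theorem n3a_rest {s w : ℕ} (hs : 1 ≤ s) (hN : s + w ≤ N) {U : Finset (Mk (D + 2))}
    (hS : Cl 2 h (cube (D + 2) N) (U : Set (Mk (D + 2))) S) (h0 : ∀ x ∈ cube (D + 2) s, x ∈ S)
    (hM : ∀ i : Fin (D + 2), i ≠ 0 → i ≠ 1 → Sq h (fun x => face i x s) s (s + w) U) :
    ∀ x ∈ bx (n3a_T D s s (s + w)), x ∈ S := by
  have key : ∀ F : Finset (Fin (D + 2)), (∀ i ∈ F, i ≠ 0 ∧ i ≠ 1) →
      ∀ x ∈ bx (fun m => if m ∈ F then s + w else s), x ∈ S := by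
    intro F
    induction F using Finset.induction_on with
    | empty =>
      intro _ x hx
      apply h0
      rw [cube_eq_bx]
      simpa using hx
    | insert i F hi ih =>
      intro hF
      have ih' := ih fun j hj => hF j (Finset.mem_insert_of_mem hj)
      have hi' := hF i (Finset.mem_insert_self _ _)
      have hti : (if i ∈ F then s + w else s) = s := if_neg hi
      have h1 := seq_grow hS (fun m => if m ∈ F then s + w else s)
        (fun m => by
          show (if m ∈ F then s + w else s) ≤ N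
          split_ifs <;> omega) ih' i (by rw [hti]; exact hs) (s + w) (by rw [hti]; omega) hN s
        (fun m _ => by
          show s ≤ (if m ∈ F then s + w else s)
          split_ifs <;> omega)
        (by rw [hti]; exact hM i hi'.1 hi'.2)
      have h2 : Function.update (fun m => if m ∈ F then s + w else s) i (s + w) =
          fun m => if m ∈ insert i F then s + w else s := by
        funext m
        by_cases hm : m = i
        · subst hm
          rw [Function.update_self, if_pos (Finset.mem_insert_self _ _)]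
        · rw [Function.update_of_ne hm]
          by_cases hmF : m ∈ F
          · rw [if_pos hmF, if_pos (Finset.mem_insert_of_mem hmF)]
          · rw [if_neg hmF, if_neg]
            rw [Finset.mem_insert]
            exact not_or.2 ⟨hm, hmF⟩
      rw [h2] at h1
      exact h1
  have h1 := key (Finset.univ.filter fun i => i ≠ 0 ∧ i ≠ 1)
    (fun i hi => (Finset.mem_filter.1 hi).2)
  have h2 : (fun m : Fin (D + 2) => if m ∈ (Finset.univ.filter fun i : Fin (D + 2) => i ≠ 0 ∧ i ≠ 1)
      then s + w else s) = n3a_T D s s (s + w) := by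
    funext m
    unfold n3a_T
    by_cases hm0 : m = 0
    · rw [if_pos hm0, if_neg]
      intro hc
      exact (Finset.mem_filter.1 hc).2.1 hm0
    · by_cases hm1 : m = 1
      · rw [if_neg hm0, if_pos hm1, if_neg]
        intro hc
        exact (Finset.mem_filter.1 hc).2.2 hm1
      · rw [if_neg hm0, if_neg hm1, if_pos]
        exact Finset.mem_filter.2 ⟨Finset.mem_univ _, hm0, hm1⟩
  rw [h2] at h1
  exact h1

/-- steps (4) and (5) -/
theorem n3a_jump {U : Finset (Mk (D + 2))} (hS : Cl 2 h (cube (D + 2) N) (U : Set (Mk (D + 2))) S)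
    (t : Fin (D + 2) → ℕ) (ht : ∀ m, t m ≤ N) (hbx : ∀ x ∈ bx t, x ∈ S) (i : Fin (D + 2))
    (hti : 1 ≤ t i) (cap b : ℕ) (hb : t i + 2 ≤ b) (hbN : b ≤ N) (hcap : ∀ m, m ≠ i → cap ≤ t m)
    (hh : hit (face i (t i + 2) cap) 0 U)
    (hsq : Sq h (fun x => face i x cap) (t i + 2) b U) :
    ∀ x ∈ bx (Function.update t i b), x ∈ S := by
  obtain ⟨v, hv, hvU⟩ := hh
  have hv' := mem_face.1 hv
  have hvm : ∀ m, m ≠ i → 1 ≤ v m ∧ v m ≤ t m := by
    intro m hm
    refine ⟨(hv'.2 m hm).1, (hv'.2 m hm).2.trans ?_⟩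
    exact_mod_cast hcap m hm
  have h1 := face_above hS t ht hbx i hti (by omega) v
    (by rw [hv'.1]; push_cast; ring) hvm (by exact_mod_cast hvU)
  have e1 : Function.update t i (t i + 1) i = t i + 1 := Function.update_self _ _ _
  have h2 := face_mark hS (Function.update t i (t i + 1)) (n1_le ht (by omega)) h1 i
    (by rw [e1]; omega) (by rw [e1]; omega) v (by rw [e1, hv'.1]; push_cast; ring)
    (fun m hm => by rw [Function.update_of_ne hm]; exact hvm m hm) 0 (Nat.zero_le _)
    (by exact_mod_cast hvU)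
  rw [e1, Function.update_idem] at h2
  have e2 : Function.update t i (t i + 1 + 1) i = t i + 2 := Function.update_self _ _ _
  have h3 := seq_grow hS (Function.update t i (t i + 1 + 1)) (fun m => by
      by_cases hm : m = i
      · subst hm
        rw [Function.update_self]
        omega
      · rw [Function.update_of_ne hm]
        exact ht m) h2 i (by rw [e2]; omega) b (by rw [e2]; omega) hbN cap
    (fun m hm => by rw [Function.update_of_ne hm]; exact hcap m hm) (by rw [e2]; exact hsq)
  rw [Function.update_idem] at h3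
  exact h3

/-- [UB-N3] the detour fills the bigger cube.
PROOF. Throughout `t : Fin (D+2) → ℕ`, `bx t ⊆ S`, all `t m ≥ s ≥ 1`, `t m ≤ s + w ≤ N`. Start `t = fun _ => s` (`cube_eq_bx`).
(1) For `i ≠ 0, 1`: `seq_grow` with `cap = s` gives `t i = s + w` (induction over the set of these directions, `Finset.induction_on`).
(2) `seq_grow` in direction `1` with `cap = s`: `t 1 = s + δ`.
(3) the corner mark `(v, 0)`: `v 0 = s+1`, `v 1 = s+δ+1`, `1 ≤ v m ≤ s`. `v ∈ S`. `v' = update v 1 (s+δ)` has the neighbours `v` and `update v' 0 s ∈ bx t`, so `v' ∈ S`; `face_fill` in direction `0` with `y = v'`: `t 0 = s + 1`. `face_fill` in direction `1` with `y = v` (`v 0 = s+1 ≤ t 0`): `t 1 = s + δ + 1`.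
(4) direction `0`: the mark of `hit (face 0 (s+3) s) 0`: `face_above` (`t 0 = s+1 → s+2`), `face_mark` with the same mark (`t 0 = s + 3`), `seq_grow` with `cap = s` from `s+3` to `s+w`.
(5) direction `1` in the same way: `face_above` (`s+δ+1 → s+δ+2`), `face_mark` (`s+δ+3`), `seq_grow` to `s+w`. Now `t = fun _ => s + w`. -/
theorem Mid_grow {s δ w : ℕ} (hs : 1 ≤ s) (hw : δ + 3 ≤ w) (hN : s + w ≤ N) {U : Finset (Mk (D + 2))}
    (hS : Cl 2 h (cube (D + 2) N) (U : Set (Mk (D + 2))) S) (h0 : ∀ x ∈ cube (D + 2) s, x ∈ S)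
    (hM : Mid h s δ w U) : ∀ x ∈ cube (D + 2) (s + w), x ∈ S := by
  obtain ⟨⟨-, -, hh0, hsq0⟩, ⟨hsq1, -, -, hh1, hsq1'⟩, hrest, v, hv, hvU⟩ := hM
  have ne10 : (1 : Fin (D + 2)) ≠ 0 := n3a_ne
  -- step (1)
  have b1 := n3a_rest hs hN hS h0 hrest
  -- step (2)
  have b2 := seq_grow hS (n3a_T D s s (s + w)) (n3a_le (by omega) (by omega) hN) b1 1
    (by rw [n3a_T1]; exact hs) (s + δ) (by rw [n3a_T1]; omega) (by omega) s
    (fun m _ => n3a_ge le_rfl le_rfl (by omega) m) (by rw [n3a_T1]; exact hsq1)
  rw [n3a_up1] at b2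
  -- step (3)
  have hv0 : v 0 = (s : ℤ) + 1 := by
    have h1 := (Finset.mem_Icc.1 hv).1 0
    have h2 := (Finset.mem_Icc.1 hv).2 0
    simp only [if_true] at h1 h2
    omega
  have hv1 : v 1 = (s : ℤ) + δ + 1 := by
    have h1 := (Finset.mem_Icc.1 hv).1 1
    have h2 := (Finset.mem_Icc.1 hv).2 1
    simp only [if_neg ne10, if_true] at h1 h2
    omega
  have hvm : ∀ m : Fin (D + 2), m ≠ 0 → m ≠ 1 → 1 ≤ v m ∧ v m ≤ s := by
    intro m hm0 hm1
    have h1 := (Finset.mem_Icc.1 hv).1 m
    have h2 := (Finset.mem_Icc.1 hv).2 m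
    simp only [if_neg hm0, if_neg hm1] at h1 h2
    exact ⟨h1, h2⟩
  have hcN : ((s : ℤ) + w) ≤ N := by exact_mod_cast hN
  have hcw : ((δ : ℤ) + 3) ≤ w := by exact_mod_cast hw
  have hvb : v ∈ cube (D + 2) N := by
    rw [mem_cube]
    intro m
    by_cases hm0 : m = 0
    · subst hm0
      rw [hv0]
      constructor <;> omega
    · by_cases hm1 : m = 1
      · subst hm1
        rw [hv1]
        constructor <;> omega
      · have h1 := hvm m hm0 hm1
        constructor <;> omega
  have hvS : v ∈ S := (hS v hvb).1 (by exact_mod_cast hvU)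
  set v' : Site (D + 2) := Function.update v 1 ((s : ℤ) + δ) with hv'
  have hv'0 : v' 0 = (s : ℤ) + 1 := by
    rw [hv', Function.update_of_ne (Ne.symm ne10), hv0]
  have hv'1 : v' 1 = (s : ℤ) + δ := by
    rw [hv', Function.update_self]
  have hv'm : ∀ m : Fin (D + 2), m ≠ 0 → m ≠ 1 → 1 ≤ v' m ∧ v' m ≤ s := by
    intro m hm0 hm1
    rw [hv', Function.update_of_ne hm1]
    exact hvm m hm0 hm1
  have hv'S : v' ∈ S := by
    refine (hS v' ?_).2 ?_
    · rw [mem_cube]
      intro m
      by_cases hm0 : m = 0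
      · subst hm0
        rw [hv'0]
        constructor <;> omega
      · by_cases hm1 : m = 1
        · subst hm1
          rw [hv'1]
          constructor <;> omega
        · have h1 := hv'm m hm0 hm1
          constructor <;> omega
    · have h2 : 2 ≤ nb S v' := by
        refine n1_two ne10 (Or.inl ?_) (Or.inr ?_)
        · rw [hv'1, hv', Function.update_idem]
          have h3 : (s : ℤ) + δ + 1 = v 1 := hv1.symm
          rw [h3, Function.update_eq_self]
          exact hvS
        · rw [hv'0]
          apply b2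
          rw [mem_bx]
          intro m
          by_cases hm0 : m = 0
          · subst hm0
            rw [Function.update_self, n3a_T0]
            constructor <;> omega
          · rw [Function.update_of_ne hm0]
            by_cases hm1 : m = 1
            · subst hm1
              rw [hv'1, n3a_T1]
              push_cast
              constructor <;> omega
            · rw [n3a_Tm _ _ _ hm0 hm1]
              have h1 := hv'm m hm0 hm1
              push_cast
              constructor <;> omega
      omega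
  have b3 := face_fill hS (n3a_T D s (s + δ) (s + w)) (n3a_le (by omega) (by omega) hN) b2 0
    (by rw [n3a_T0]; exact hs) (by rw [n3a_T0]; omega) v' (by rw [hv'0, n3a_T0])
    (fun m hm0 => by
      by_cases hm1 : m = 1
      · subst hm1
        rw [hv'1, n3a_T1]
        push_cast
        constructor <;> omega
      · rw [n3a_Tm _ _ _ hm0 hm1]
        have h1 := hv'm m hm0 hm1
        push_cast
        constructor <;> omega) hv'S
  rw [n3a_T0, n3a_up0] at b3
  have b4 := face_fill hS (n3a_T D (s + 1) (s + δ) (s + w)) (n3a_le (by omega) (by omega) hN) b3 1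
    (by rw [n3a_T1]; omega) (by rw [n3a_T1]; omega) v (by rw [hv1, n3a_T1]; push_cast; ring)
    (fun m hm1 => by
      by_cases hm0 : m = 0
      · subst hm0
        rw [hv0, n3a_T0]
        push_cast
        constructor <;> omega
      · rw [n3a_Tm _ _ _ hm0 hm1]
        have h1 := hvm m hm0 hm1
        push_cast
        constructor <;> omega) hvS
  rw [n3a_T1, n3a_up1] at b4
  -- step (4)
  have b5 := n3a_jump hS (n3a_T D (s + 1) (s + δ + 1) (s + w))
    (n3a_le (by omega) (by omega) hN) b4 0 (by rw [n3a_T0]; omega) s (s + w)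
    (by rw [n3a_T0]; omega) hN (fun m _ => n3a_ge (by omega) (by omega) (by omega) m)
    (by rw [n3a_T0]; exact hh0) (by rw [n3a_T0]; exact hsq0)
  rw [n3a_up0] at b5
  -- step (5)
  have b6 := n3a_jump hS (n3a_T D (s + w) (s + δ + 1) (s + w))
    (n3a_le hN (by omega) hN) b5 1 (by rw [n3a_T1]; omega) s (s + w)
    (by rw [n3a_T1]; omega) hN (fun m _ => n3a_ge (by omega) (by omega) (by omega) m)
    (by rw [n3a_T1]; exact hh1) (by rw [n3a_T1]; exact hsq1')
  rw [n3a_up1] at b6
  have h7 : n3a_T D (s + w) (s + w) (s + w) = fun _ => s + w := by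
    funext m
    unfold n3a_T
    split_ifs <;> rfl
  rw [h7] at b6
  intro x hx
  apply b6
  rw [← cube_eq_bx]
  exact hx

end

end UB
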