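import Pool.Agent.UB.N3a

set_option autoImplicit false

open scoped Classical
open Finset BTP

namespace UB

section
variable {D h N : ℕ} {S : Set (Site (D + 2))}

/-- [UB-N3] PROOF. `St_grow`, `Mid_grow`, `St_grow`. -/
theorem Win_grow {a l w : ℕ} (ha : 1 ≤ a) (hN : a + l ≤ N) {U : Finset (Mk (D + 2))}
    (hS : Cl 2 h (cube (D + 2) N) (U : Set (Mk (D + 2))) S) (h0 : ∀ x ∈ cube (D + 2) a, x ∈ S)
    (hW : Win h a l w U) : ∀ x ∈ cube (D + 2) (a + l), x ∈ S := by
  obtain ⟨i, δ, hiw, hδw, h1, h2, h3⟩ := hW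
  have g1 := St_grow ha (Nat.le_add_right a i) (by omega) hS h0 h1
  have g2 := Mid_grow (by omega : 1 ≤ a + i) hδw (by omega) hS g1 h2
  exact St_grow (by omega : 1 ≤ a + i + w) (by omega) hN hS g2 h3

/-- [UB-N3] PROOF. Induction on `J`. -/
theorem chain_grow {a l w : ℕ} (ha : 1 ≤ a) (J : ℕ) (hN : a + J * l ≤ N) {U : Finset (Mk (D + 2))}
    (hS : Cl 2 h (cube (D + 2) N) (U : Set (Mk (D + 2))) S) (h0 : ∀ x ∈ cube (D + 2) a, x ∈ S)
    (hW : ∀ j < J, Win h (a + j * l) l w U) : ∀ x ∈ cube (D + 2) (a + J * l), x ∈ S := by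
  induction J with
  | zero => simpa using h0
  | succ J ih =>
    have e : a + (J + 1) * l = a + J * l + l := by ring
    rw [e] at hN ⊢
    have g := ih (by omega) (fun j hj => hW j (by omega))
    exact Win_grow (by omega : 1 ≤ a + J * l) hN hS g (hW J (by omega))

end

end UB
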