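import Pool.Agent.UB.P4

set_option autoImplicit false

open scoped Classical
open Finset BTP

namespace UB

section
variable {D h : ℕ}

/-- [UB-N4] -/
theorem mem_shell {a b : ℕ} {w : Mk D} :
    w ∈ shell D h a b ↔ ((∀ m, 1 ≤ w.1 m ∧ w.1 m ≤ b) ∧ ∃ m, (a : ℤ) < w.1 m) ∧ w.2 ≤ h := by
  unfold shell
  rw [mem_mks, Finset.mem_sdiff, mem_cube, mem_cube]
  constructor
  · rintro ⟨⟨h1, h2⟩, h3⟩
    refine ⟨⟨h1, ?_⟩, h3⟩
    by_contra h4
    push Not at h4
    exact h2 fun m => ⟨(h1 m).1, h4 m⟩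
  · rintro ⟨⟨h1, m, hm⟩, h3⟩
    refine ⟨⟨h1, fun h4 => ?_⟩, h3⟩
    have := (h4 m).2
    omega

/-- [UB-N4] -/
theorem shell_disjoint {a b c : ℕ} : Disjoint (shell D h a b) (shell D h b c) := by
  rw [Finset.disjoint_left]
  intro w h1 h2
  rw [mem_shell] at h1 h2
  obtain ⟨⟨h3, _⟩, _⟩ := h1
  obtain ⟨⟨_, m, hm⟩, _⟩ := h2
  have := (h3 m).2
  omega

theorem shell_mono {a a' b b' : ℕ} (h1 : a' ≤ a) (h2 : b ≤ b') : shell D h a b ⊆ shell D h a' b' := by
  intro w hw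
  rw [mem_shell] at hw ⊢
  obtain ⟨⟨h3, m, hm⟩, h4⟩ := hw
  refine ⟨⟨fun m => ⟨(h3 m).1, ?_⟩, m, ?_⟩, h4⟩
  · have := (h3 m).2
    omega
  · omega

theorem shell_sub {a b N : ℕ} (h2 : b ≤ N) : shell D h a b ⊆ mks (cube D N) h := by
  intro w hw
  rw [mem_shell] at hw
  obtain ⟨⟨h3, _⟩, h4⟩ := hw
  rw [mem_mks, mem_cube]
  refine ⟨fun m => ⟨(h3 m).1, ?_⟩, h4⟩
  have := (h3 m).2
  omega

/-- [UB-N4] the marks over a face with `t < x` are in the shell of the level `x` -/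
theorem face_shell {i : Fin D} {x t : ℕ} (hx : t < x) : mks (face i x t) h ⊆ shell D h (x - 1) x := by
  intro w hw
  rw [mem_mks, mem_face] at hw
  obtain ⟨⟨h1, h2⟩, h3⟩ := hw
  rw [mem_shell]
  refine ⟨⟨fun m => ?_, i, ?_⟩, h3⟩
  · by_cases hm : m = i
    · subst hm
      rw [h1]
      omega
    · have := h2 m hm
      omega
  · rw [h1]
    omega

theorem n4_face {i : Fin D} {x t a b : ℕ} (hx : t < x) (ha : a < x) (hb : x ≤ b) :
    mks (face i x t) h ⊆ shell D h a b :=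
  (face_shell hx).trans (shell_mono (by omega) hb)

theorem n4_res {F : Finset (Site D)} {B : Finset (Mk D)} (hF : mks F h ⊆ B) : Dep B (res h F) :=
  (Dep_res h F).mono hF

theorem n4_hit {F : Finset (Site D)} {B : Finset (Mk D)} (hF : mks F h ⊆ B) : Dep B (hit F 0) := by
  refine (Dep_hit F 0).mono (Finset.Subset.trans ?_ hF)
  intro w hw
  rw [Finset.mem_product, Finset.mem_singleton] at hw
  rw [mem_mks]
  refine ⟨hw.1, ?_⟩
  rw [hw.2]
  exact Nat.zero_le _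

/-- [UB-N4] PROOF. `Dep.all`, `Dep_Sq`, `face_shell` (`x - 2 < x` for `x ≥ 1`), `shell_mono`. -/
theorem Dep_St (a b : ℕ) : Dep (shell D h a b) (St h a b) := by
  refine Dep.all (B := shell D h a b)
    (E := fun (i : Fin D) U => Sq h (fun x => face i x (x - 2)) a b U) fun i => ?_
  refine Dep_Sq h _ a b fun x h1 h2 => ?_
  exact n4_face (by omega) h1 h2

theorem n4_mem_corner {s δ : ℕ} {v : Site (D + 2)} (hv : v ∈ corner D s δ) :
    v 0 = s + 1 ∧ v 1 = s + δ + 1 ∧ ∀ m, m ≠ 0 → m ≠ 1 → 1 ≤ v m ∧ v m ≤ s := by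
  unfold corner at hv
  rw [Finset.mem_Icc, Pi.le_def, Pi.le_def] at hv
  obtain ⟨h1, h2⟩ := hv
  refine ⟨?_, ?_, fun m hm0 hm1 => ?_⟩
  · have h3 := h1 0
    have h4 := h2 0
    rw [if_pos rfl] at h3 h4
    omega
  · have h3 := h1 1
    have h4 := h2 1
    rw [if_neg one_ne_zero, if_pos rfl] at h3 h4
    omega
  · have h3 := h1 m
    have h4 := h2 m
    rw [if_neg hm0, if_neg hm1] at h3 h4
    omega

theorem n4_corner {s δ w : ℕ} (hw : δ + 3 ≤ w) :
    mks (corner D s δ) h ⊆ shell (D + 2) h s (s + w) := by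
  intro u hu
  rw [mem_mks] at hu
  obtain ⟨h1, h2, h3⟩ := n4_mem_corner hu.1
  rw [mem_shell]
  refine ⟨⟨fun m => ?_, 0, ?_⟩, hu.2⟩
  · by_cases hm0 : m = 0
    · subst hm0
      rw [h1]
      push_cast
      omega
    · by_cases hm1 : m = 1
      · subst hm1
        rw [h2]
        push_cast
        omega
      · have h4 := h3 m hm0 hm1
        push_cast
        omega
  · rw [h1]
    omega

/-- [UB-N4] PROOF. `Dep.and`, `Dep.not`, `Dep_res`, `Dep_hit`, `Dep_Sq`, `Dep.mono`; the frozen faces `face i x s`, `s < x ≤ s + w`, and the corner are in the shell. -/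
theorem Dep_Mid {s δ w : ℕ} (hw : δ + 3 ≤ w) : Dep (shell (D + 2) h s (s + w)) (Mid h s δ w) := by
  have hf : ∀ (i : Fin (D + 2)) (x : ℕ), s < x → x ≤ s + w →
      mks (face i x s) h ⊆ shell (D + 2) h s (s + w) := fun i x h1 h2 => n4_face h1 h1 h2
  have hSq : ∀ (i : Fin (D + 2)) (a b : ℕ), s ≤ a → b ≤ s + w →
      Dep (shell (D + 2) h s (s + w)) (Sq h (fun x => face i x s) a b) := fun i a b ha hb =>
    Dep_Sq h _ a b fun x h1 h2 => hf i x (by omega) (by omega)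
  show Dep (shell (D + 2) h s (s + w)) (fun U => Mid h s δ w U)
  unfold Mid
  refine Dep.and ?_ (Dep.and ?_ (Dep.and ?_ ?_))
  · exact Dep.and (Dep.not (n4_res (hf 0 _ (by omega) (by omega))))
      (Dep.and (Dep.not (n4_res (hf 0 _ (by omega) (by omega))))
        (Dep.and (n4_hit (hf 0 _ (by omega) (by omega))) (hSq 0 _ _ (by omega) le_rfl)))
  · exact Dep.and (hSq 1 _ _ le_rfl (by omega))
      (Dep.and (Dep.not (n4_res (hf 1 _ (by omega) (by omega))))
        (Dep.and (Dep.not (n4_res (hf 1 _ (by omega) (by omega))))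
          (Dep.and (n4_hit (hf 1 _ (by omega) (by omega))) (hSq 1 _ _ (by omega) le_rfl))))
  · exact Dep.all fun i => Dep.all fun _ => Dep.all fun _ => hSq i _ _ le_rfl le_rfl
  · exact n4_hit (n4_corner hw)

/-- [UB-N4] -/
theorem Dep_Det {a l w i δ : ℕ} (hi : i + w ≤ l) (hw : δ + 3 ≤ w) :
    Dep (shell (D + 2) h a (a + l)) (Det h a l w i δ) := by
  show Dep (shell (D + 2) h a (a + l)) (fun U => Det h a l w i δ U)
  unfold Det
  exact Dep.and ((Dep_St a (a + i)).mono (shell_mono le_rfl (by omega)))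
    (Dep.and ((Dep_Mid hw).mono (shell_mono (by omega) (by omega)))
      ((Dep_St (a + i + w) (a + l)).mono (shell_mono (by omega) le_rfl)))

/-- [UB-N4] (the quantifiers of `Win` contain the conditions `i + w ≤ l`, `δ + 3 ≤ w`) -/
theorem Dep_Win {a l w : ℕ} : Dep (shell (D + 2) h a (a + l)) (Win h a l w) := by
  show Dep (shell (D + 2) h a (a + l)) (fun U => Win h a l w U)
  unfold Win
  refine Dep.ex fun i => Dep.ex fun δ => ?_
  by_cases h1 : i + w ≤ l ∧ δ + 3 ≤ w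
  · exact Dep.and Dep.const (Dep.and Dep.const (Dep_Det h1.1 h1.2))
  · intro U
    constructor
    · rintro ⟨h2, h3, _⟩
      exact absurd ⟨h2, h3⟩ h1
    · rintro ⟨h2, h3, _⟩
      exact absurd ⟨h2, h3⟩ h1

/-- [UB-N4] PROOF. `Pr_and_dep` twice: `Dep_St`, `Dep_Mid`, `shell_disjoint`, `shell_mono` (shells `(a, a+i]`, `(a+i, a+i+w]`, `(a+i+w, a+l]`). -/
theorem Pr_Det {a l w i δ : ℕ} {p : ℝ} (V : Finset (Mk (D + 2))) (hi : i + w ≤ l) (hw : δ + 3 ≤ w) :
    Pr V p (Det h a l w i δ) =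
      Pr V p (St h a (a + i)) * (Pr V p (Mid h (a + i) δ w) * Pr V p (St h (a + i + w) (a + l))) := by
  have h1 := Pr_and_dep (p := p) V (Dep_Mid (D := D) (h := h) (s := a + i) hw)
    (Dep_St (D := D + 2) (h := h) (a + i + w) (a + l)) shell_disjoint
  have h2 : Dep (shell (D + 2) h (a + i) (a + l))
      (fun U => Mid h (a + i) δ w U ∧ St h (a + i + w) (a + l) U) :=
    Dep.and ((Dep_Mid hw).mono (shell_mono le_rfl (by omega)))
      ((Dep_St (a + i + w) (a + l)).mono (shell_mono (by omega) le_rfl))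
  have h3 := Pr_and_dep (p := p) V (Dep_St (D := D + 2) (h := h) a (a + i)) h2 shell_disjoint
  rw [← h1, ← h3]
  rfl

end

end UB
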