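import Pool.Agent.UB.N5

set_option autoImplicit false

open scoped Classical
open Finset BTP

namespace UB

section
variable {D h : ℕ} {p : ℝ}

/-- the marks over the frozen faces of the levels `a < x ≤ b` -/
noncomputable def n6_B (h : ℕ) (i : Fin D) (s a b : ℕ) : Finset (Mk D) :=
  (Finset.Ioc a b).biUnion (fun x => mks (face i x s) h)

theorem n6_mem {i : Fin D} {s a b : ℕ} {w : Mk D} (hw : w ∈ n6_B h i s a b) :
    ((a : ℤ) < w.1 i ∧ w.1 i ≤ b) ∧ ∀ m, m ≠ i → w.1 m ≤ s := by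
  unfold n6_B at hw
  rw [Finset.mem_biUnion] at hw
  obtain ⟨x, hx, hw⟩ := hw
  rw [Finset.mem_Ioc] at hx
  rw [mem_mks, mem_face] at hw
  obtain ⟨⟨h1, h2⟩, _⟩ := hw
  refine ⟨?_, fun m hm => (h2 m hm).2⟩
  rw [h1]
  omega

theorem n6_sub {i : Fin D} {s a b x : ℕ} (h1 : a < x) (h2 : x ≤ b) :
    mks (face i x s) h ⊆ n6_B h i s a b := by
  unfold n6_B
  exact Finset.subset_biUnion_of_mem (fun x => mks (face i x s) h) (Finset.mem_Ioc.2 ⟨h1, h2⟩)

theorem n6_mono {i : Fin D} {s a b a' b' : ℕ} (h1 : a' ≤ a) (h2 : b ≤ b') :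
    n6_B h i s a b ⊆ n6_B h i s a' b' := by
  intro w hw
  unfold n6_B at hw ⊢
  rw [Finset.mem_biUnion] at hw ⊢
  obtain ⟨x, hx, hw⟩ := hw
  rw [Finset.mem_Ioc] at hx
  exact ⟨x, Finset.mem_Ioc.2 ⟨by omega, by omega⟩, hw⟩

theorem n6_res {F : Finset (Site D)} {B : Finset (Mk D)} (hF : mks F h ⊆ B) : Dep B (res h F) :=
  (Dep_res h F).mono hF

theorem n6_hit {F : Finset (Site D)} {B : Finset (Mk D)} (hF : mks F h ⊆ B) : Dep B (hit F 0) := by
  refine (Dep_hit F 0).mono (Finset.Subset.trans ?_ hF)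
  intro w hw
  rw [Finset.mem_product, Finset.mem_singleton] at hw
  rw [mem_mks]
  refine ⟨hw.1, ?_⟩
  rw [hw.2]
  exact Nat.zero_le _

theorem n6_Sq {i : Fin D} {s a b : ℕ} : Dep (n6_B h i s a b) (Sq h (fun x => face i x s) a b) :=
  Dep_Sq h _ a b fun _ h1 h2 => n6_sub h1 h2

/-- the double gap and the piece after it -/
def n6_gap (h : ℕ) (i : Fin D) (s y e : ℕ) (U : Finset (Mk D)) : Prop :=
  ¬ res h (face i (y + 1) s) U ∧ ¬ res h (face i (y + 2) s) U ∧
      hit (face i (y + 3) s) 0 U ∧ Sq h (fun x => face i x s) (y + 3) e U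

theorem n6_Dep_gap {i : Fin D} {s y e : ℕ} (he : y + 3 ≤ e) :
    Dep (n6_B h i s y e) (n6_gap h i s y e) := by
  show Dep (n6_B h i s y e) (fun U => n6_gap h i s y e U)
  unfold n6_gap
  exact Dep.and (Dep.not (n6_res (n6_sub (by omega) (by omega))))
    (Dep.and (Dep.not (n6_res (n6_sub (by omega) (by omega))))
      (Dep.and (n6_hit (n6_sub (by omega) (by omega))) (n6_Sq.mono (n6_mono (by omega) le_rfl))))

theorem n6_corner {s δ : ℕ} {v : Site (D + 2)} (hv : v ∈ corner D s δ) :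
    (s : ℤ) < v 0 ∧ (s : ℤ) < v 1 := by
  unfold corner at hv
  rw [Finset.mem_Icc, Pi.le_def, Pi.le_def] at hv
  obtain ⟨h1, h2⟩ := hv
  refine ⟨?_, ?_⟩
  · have h3 := h1 0
    rw [if_pos rfl] at h3
    omega
  · have h3 := h1 1
    rw [if_neg one_ne_zero, if_pos rfl] at h3
    omega

theorem n6_corner_sub {s δ N : ℕ} (hN : s + δ + 1 ≤ N) :
    corner D s δ ⊆ cube (D + 2) N := by
  intro v hv
  unfold corner at hv
  rw [Finset.mem_Icc, Pi.le_def, Pi.le_def] at hv
  obtain ⟨h1, h2⟩ := hv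
  rw [mem_cube]
  intro m
  have h3 := h1 m
  have h4 := h2 m
  split_ifs at h3 h4
  · omega
  · omega
  · omega

theorem n6_card (D s δ : ℕ) : (corner D s δ).card = s ^ D := by
  unfold corner
  rw [Pi.card_Icc, Fin.prod_univ_succ, Fin.prod_univ_succ]
  have h1 : ∀ k : Fin D, (Fin.succ (Fin.succ k) : Fin (D + 2)) ≠ 0 := fun k => Fin.succ_ne_zero _
  have h2 : ∀ k : Fin D, (Fin.succ (Fin.succ k) : Fin (D + 2)) ≠ 1 := by
    intro k hk
    have := congrArg Fin.val hk
    simp at this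
  have h3 : (Fin.succ 0 : Fin (D + 2)) = 1 := rfl
  rw [h3]
  simp only [if_neg (h1 _), if_neg (h2 _), if_neg (one_ne_zero : (1 : Fin (D + 2)) ≠ 0), if_true,
    Int.card_Icc, Finset.prod_const, Finset.card_univ, Fintype.card_fin]
  have h4 : ((s : ℤ) + 1 + 1 - (s + 1)).toNat = 1 := by omega
  have h5 : ((s : ℤ) + δ + 1 + 1 - (s + δ + 1)).toNat = 1 := by omega
  have h6 : ((s : ℤ) + 1 - 1).toNat = s := by omega
  rw [h4, h5, h6, one_mul, one_mul]

theorem n6_mks_mono {B B' : Finset (Site D)} (hB : B ⊆ B') : mks B h ⊆ mks B' h := by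
  intro w hw
  rw [mem_mks] at hw ⊢
  exact ⟨hB hw.1, hw.2⟩

theorem n6_Mid_iff {s δ w : ℕ} (U : Finset (Mk (D + 2))) : Mid h s δ w U ↔
    (n6_gap h 0 s s (s + w) U ∧ ((Sq h (fun x => face 1 x s) s (s + δ) U ∧
      n6_gap h 1 s (s + δ) (s + w) U) ∧
      ((∀ i ∈ ((Finset.univ : Finset (Fin (D + 2))).erase 0).erase 1,
        Sq h (fun x => face i x s) s (s + w) U) ∧ hit (corner D s δ) 0 U))) := by
  unfold Mid n6_gap
  have h1 : (∀ i : Fin (D + 2), i ≠ 0 → i ≠ 1 → Sq h (fun x => face i x s) s (s + w) U) ↔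
      ∀ i ∈ ((Finset.univ : Finset (Fin (D + 2))).erase 0).erase 1,
        Sq h (fun x => face i x s) s (s + w) U := by
    constructor
    · intro h1 i hi
      rw [Finset.mem_erase, Finset.mem_erase] at hi
      exact h1 i hi.2.1 hi.1
    · intro h1 i hi0 hi1
      exact h1 i (Finset.mem_erase.2 ⟨hi1, Finset.mem_erase.2 ⟨hi0, Finset.mem_univ _⟩⟩)
  rw [h1]

/-- [UB-N6] probability of the middle part, `u = uu p (s^(D+1))`.
PROOF. `Mid` is `E₀ ∧ E₁ ∧ (∀ i, i ≠ 0 → i ≠ 1 → E i) ∧ C`. With `B i = (Ioc s (s+w)).biUnion (fun x => mks (face i x s) h)`: `E₀` depends on `B 0`, `E₁` on `B 1`, `E i` on `B i`, `C` on `mks (corner D s δ) h`. These sets are disjoint: if `v ∈ face i x s`, `x > s`, then `v i > s` and `v m ≤ s` for `m ≠ i`; a corner site has `v 0 > s` and `v 1 > s`. So (`Pr_and_dep`, `Pr_all_dep` with the events `E' i U = (i ≠ 0 → i ≠ 1 → E i U)` over `Finset.univ` or over `(univ.erase 0).erase 1`, which has `D` elements) the probability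 is the product. `Pr E₀ ≥ (1-u)^(2(h+1)) u² β^(w-3)` (`Pr_gap`, `y = s`), `Pr E₁ ≥ (u β^δ) ((1-u)^(2(h+1)) u² β^(w-δ-3))` (`Pr_frozen`, `Pr_gap` with `y = s + δ`, independent), `Pr (E i) ≥ u β^w` (`Pr_frozen`), `Pr C = uu p (s^D)` (`Pr_hit`, `card (corner D s δ) = s^D`). Total exponent of `u`: `2 + 3 + D = D + 5`, of `β`: `(w-3) + (w-3) + D w ≤ (D+2) w`, `β ≤ 1`. -/
theorem Pr_Mid (hB : BetaOK (h + 1)) (hp0 : 0 ≤ p) (hp1 : p ≤ 1) {s δ w N : ℕ} (hw : δ + 3 ≤ w)
    (hN : s + w ≤ N) :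
    (1 - uu p (s ^ (D + 1))) ^ (4 * (h + 1)) * uu p (s ^ (D + 1)) ^ (D + 5) *
      BTR.bk (h + 1) (uu p (s ^ (D + 1))) ^ ((D + 2) * w) * uu p (s ^ D) ≤
    Pr (mks (cube (D + 2) N) h) p (Mid h s δ w) := by
  set V := mks (cube (D + 2) N) h with hV
  set T : Finset (Fin (D + 2)) := ((Finset.univ : Finset (Fin (D + 2))).erase 0).erase 1 with hT
  have hTmem : ∀ i ∈ T, i ≠ 0 ∧ i ≠ 1 := by
    intro i hi
    rw [hT, Finset.mem_erase, Finset.mem_erase] at hi
    exact ⟨hi.2.1, hi.1⟩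
  have hTcard : T.card = D := by
    rw [hT, Finset.card_erase_of_mem, Finset.card_erase_of_mem (Finset.mem_univ _), Finset.card_univ,
      Fintype.card_fin]
    · omega
    · exact Finset.mem_erase.2 ⟨one_ne_zero, Finset.mem_univ _⟩
  set B3 : Finset (Mk (D + 2)) := mks (corner D s δ) h with hB3
  set B2 : Finset (Mk (D + 2)) := T.biUnion (fun i => n6_B h i s s (s + w)) with hB2
  have d3 : Dep B3 (hit (corner D s δ) 0) := n6_hit (Finset.Subset.refl _)
  have d2 : Dep B2 (fun U => ∀ i ∈ T, Sq h (fun x => face i x s) s (s + w) U) := by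
    refine Dep.all fun i => ?_
    by_cases hi : i ∈ T
    · refine Dep.all fun _ => ?_
      exact (n6_Sq (h := h) (i := i)).mono
        (Finset.subset_biUnion_of_mem (fun i => n6_B h i s s (s + w)) hi)
    · intro U
      constructor
      · intro _ h2
        exact absurd h2 hi
      · intro _ h2
        exact absurd h2 hi
  have d1a : Dep (n6_B (D := D + 2) h 1 s s (s + δ)) (Sq h (fun x => face 1 x s) s (s + δ)) := n6_Sq
  have d1b : Dep (n6_B (D := D + 2) h 1 s (s + δ) (s + w)) (n6_gap h 1 s (s + δ) (s + w)) :=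
    n6_Dep_gap (by omega)
  have d0 : Dep (n6_B (D := D + 2) h 0 s s (s + w)) (n6_gap h 0 s s (s + w)) := n6_Dep_gap (by omega)
  -- disjointness
  have e1 : Disjoint (n6_B (D := D + 2) h 1 s s (s + δ)) (n6_B (D := D + 2) h 1 s (s + δ) (s + w)) := by
    rw [Finset.disjoint_left]
    intro v h1 h2
    have h3 := (n6_mem h1).1.2
    have h4 := (n6_mem h2).1.1
    omega
  have e2 : Disjoint B2 B3 := by
    rw [Finset.disjoint_left]
    intro v h1 h2
    rw [hB2, Finset.mem_biUnion] at h1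
    obtain ⟨i, hi, h1⟩ := h1
    have h3 := (n6_mem h1).2 0 (hTmem i hi).1.symm
    rw [hB3, mem_mks] at h2
    have h4 := (n6_corner h2.1).1
    omega
  have e3 : Disjoint (n6_B (D := D + 2) h 1 s s (s + w)) (B2 ∪ B3) := by
    rw [Finset.disjoint_left]
    intro v h1 h2
    rcases Finset.mem_union.1 h2 with h2 | h2
    · rw [hB2, Finset.mem_biUnion] at h2
      obtain ⟨i, hi, h2⟩ := h2
      have h3 := (n6_mem h1).1.1
      have h4 := (n6_mem h2).2 1 (hTmem i hi).2.symm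
      omega
    · have h3 := (n6_mem h1).2 0 (one_ne_zero (α := Fin (D + 2))).symm
      rw [hB3, mem_mks] at h2
      have h4 := (n6_corner h2.1).1
      omega
  have e4 : Disjoint (n6_B (D := D + 2) h 0 s s (s + w))
      (n6_B (D := D + 2) h 1 s s (s + w) ∪ (B2 ∪ B3)) := by
    rw [Finset.disjoint_left]
    intro v h1 h2
    rcases Finset.mem_union.1 h2 with h2 | h2
    · have h3 := (n6_mem h1).2 1 (one_ne_zero (α := Fin (D + 2)))
      have h4 := (n6_mem h2).1.1
      omega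
    · rcases Finset.mem_union.1 h2 with h2 | h2
      · rw [hB2, Finset.mem_biUnion] at h2
        obtain ⟨i, hi, h2⟩ := h2
        have h3 := (n6_mem h1).1.1
        have h4 := (n6_mem h2).2 0 (hTmem i hi).1.symm
        omega
      · have h3 := (n6_mem h1).2 1 (one_ne_zero (α := Fin (D + 2)))
        rw [hB3, mem_mks] at h2
        have h4 := (n6_corner h2.1).2
        omega
  -- the product
  have d1 : Dep (n6_B (D := D + 2) h 1 s s (s + w)) (fun U => Sq h (fun x => face 1 x s) s (s + δ) U ∧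
      n6_gap h 1 s (s + δ) (s + w) U) :=
    Dep.and (d1a.mono (n6_mono le_rfl (by omega))) (d1b.mono (n6_mono (by omega) le_rfl))
  have d23 : Dep (B2 ∪ B3) (fun U => (∀ i ∈ T, Sq h (fun x => face i x s) s (s + w) U) ∧
      hit (corner D s δ) 0 U) :=
    Dep.and (d2.mono Finset.subset_union_left) (d3.mono Finset.subset_union_right)
  have d123 := Dep.and (d1.mono (Finset.subset_union_left (s₂ := B2 ∪ B3)))
    (d23.mono (Finset.subset_union_right (s₁ := n6_B (D := D + 2) h 1 s s (s + w))))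
  have p0 := Pr_and_dep (p := p) V d0 d123 e4
  have p1 := Pr_and_dep (p := p) V d1 d23 e3
  have p2 := Pr_and_dep (p := p) V d2 d3 e2
  have p3 := Pr_and_dep (p := p) V d1a d1b e1
  have p4 := Pr_all_dep (p := p) V T (fun i => n6_B h i s s (s + w))
    (fun i => Sq h (fun x => face i x s) s (s + w)) (fun i _ => n6_Sq) (fun i _ j _ hij => by
      rw [Finset.disjoint_left]
      intro v h1 h2
      have h3 := (n6_mem h1).1.1
      have h4 := (n6_mem h2).2 i hij
      omega)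
  have p5 : Pr V p (hit (corner D s δ) 0) = uu p (s ^ D) := by
    rw [Pr_hit, n6_card]
    intro v hv
    rw [Finset.mem_product, Finset.mem_singleton] at hv
    rw [hV, mem_mks]
    refine ⟨n6_corner_sub (by omega) hv.1, ?_⟩
    rw [hv.2]
    exact Nat.zero_le _
  have hMid : Pr V p (Mid h s δ w) = Pr V p (n6_gap h 0 s s (s + w)) *
      ((Pr V p (Sq h (fun x => face 1 x s) s (s + δ)) * Pr V p (n6_gap h 1 s (s + δ) (s + w))) *
        ((∏ i ∈ T, Pr V p (Sq h (fun x => face i x s) s (s + w))) * uu p (s ^ D))) := by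
    rw [← p5, ← p4, ← p3, ← p2, ← p1, ← p0]
    exact Pr_congr fun U _ => n6_Mid_iff U
  have hd : D + 2 - 1 = D + 1 := rfl
  set u := uu p (s ^ (D + 1)) with hu
  set β := BTR.bk (h + 1) u with hβ
  have hu0 : 0 ≤ u := uu_nonneg hp0 hp1 _
  have hu1 : u ≤ 1 := uu_le_one hp1 _
  have hb0 : 0 ≤ β := hu0.trans (hB.2.1 u hu0 hu1)
  have hb1 : β ≤ 1 := hB.2.2.2.1 u hu0 hu1
  have g0 := Pr_gap (D := D + 2) (h := h) hB hp0 hp1 (s := s) (y := s) (e := s + w) (N := N) 0 le_rfl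
    (by omega) hN
  have g1 := Pr_gap (D := D + 2) (h := h) hB hp0 hp1 (s := s) (y := s + δ) (e := s + w) (N := N) 1
    (by omega) (by omega) hN
  have g2 := Pr_frozen (D := D + 2) (h := h) hB hp0 hp1 (s := s) (y := s) (e := s + δ) (N := N) 1
    le_rfl (by omega) (by omega)
  have g3 := fun i : Fin (D + 2) => Pr_frozen (D := D + 2) (h := h) hB hp0 hp1 (s := s) (y := s)
    (e := s + w) (N := N) i le_rfl (by omega) hN
  rw [hd, ← hu, ← hβ, ← hV] at g0 g1 g2
  simp only [hd, ← hu, ← hβ, ← hV] at g3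
  have x0 : s + w - (s + 3) = w - 3 := by omega
  have x1 : s + w - (s + δ + 3) = w - δ - 3 := by omega
  have x2 : s + δ - s = δ := by omega
  have x3 : s + w - s = w := by omega
  rw [x0] at g0
  rw [x1] at g1
  rw [x2] at g2
  simp only [x3] at g3
  have g4 : (u * β ^ w) ^ D ≤ ∏ i ∈ T, Pr V p (Sq h (fun x => face i x s) s (s + w)) := by
    have h1 : ∏ _i ∈ T, (u * β ^ w) ≤ ∏ i ∈ T, Pr V p (Sq h (fun x => face i x s) s (s + w)) :=
      Finset.prod_le_prod (fun _ _ => mul_nonneg hu0 (pow_nonneg hb0 _)) (fun i _ => g3 i)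
    rwa [Finset.prod_const, hTcard] at h1
  have hq0 : 0 ≤ uu p (s ^ D) := uu_nonneg hp0 hp1 _
  have hv0 : 0 ≤ 1 - u := sub_nonneg.2 hu1
  rw [hMid]
  calc (1 - u) ^ (4 * (h + 1)) * u ^ (D + 5) * β ^ ((D + 2) * w) * uu p (s ^ D)
      ≤ (1 - u) ^ (4 * (h + 1)) * u ^ (D + 5) * β ^ ((w - 3) + δ + (w - δ - 3) + w * D) *
        uu p (s ^ D) := by
        refine mul_le_mul_of_nonneg_right (mul_le_mul_of_nonneg_left ?_ (by positivity)) hq0
        refine pow_le_pow_of_le_one hb0 hb1 ?_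
        have h1 : (D + 2) * w = w * D + 2 * w := by ring
        rw [h1]
        omega
    _ = ((1 - u) ^ (2 * (h + 1)) * u ^ 2 * β ^ (w - 3)) *
        (((u * β ^ δ) * ((1 - u) ^ (2 * (h + 1)) * u ^ 2 * β ^ (w - δ - 3))) *
          ((u * β ^ w) ^ D * uu p (s ^ D))) := by
        rw [mul_pow, ← pow_mul, pow_add β, pow_add β, pow_add β]
        have h1 : (1 - u) ^ (4 * (h + 1)) = (1 - u) ^ (2 * (h + 1)) * (1 - u) ^ (2 * (h + 1)) := by
          rw [← pow_add]
          congr 1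
          ring
        have h2 : u ^ (D + 5) = u ^ D * u ^ 5 := pow_add _ _ _
        rw [h1, h2]
        ring
    _ ≤ _ := by
        refine mul_le_mul g0 ?_ (by positivity) (Pr_nonneg hp0 hp1)
        refine mul_le_mul (mul_le_mul g2 g1 (by positivity) (Pr_nonneg hp0 hp1)) ?_ (by positivity)
          (mul_nonneg (Pr_nonneg hp0 hp1) (Pr_nonneg hp0 hp1))
        exact mul_le_mul_of_nonneg_right g4 hq0

end

end UB
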