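import Pool.Agent.UB.N4

set_option autoImplicit false

open scoped Classical
open Finset BTP

namespace UB

/-- [UB-N7] PROOF. `Finset.induction_on s`: `Pr (∃ i ∈ insert a s, E i) = Pr (E a ∨ ∃ i ∈ s, E i) = Pr (E a) + Pr (∃ i ∈ s, E i) - Pr (E a ∧ ∃ i ∈ s, E i)`, the last is `0` (`BTP.Pr_or_add_and`, `Pr_false`, `Pr_congr`). -/
theorem Pr_sum_le {α ι : Type*} {p : ℝ} (V : Finset α) (s : Finset ι) (E : ι → Finset α → Prop)
    (hd : ∀ i ∈ s, ∀ j ∈ s, ∀ U, E i U → E j U → i = j) :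
    ∑ i ∈ s, Pr V p (E i) ≤ Pr V p (fun U => ∃ i ∈ s, E i U) := by
  induction s using Finset.induction_on with
  | empty =>
    have h0 : Pr V p (fun U => ∃ i ∈ (∅ : Finset ι), E i U) = Pr V p (fun _ => False) := by
      refine Pr_congr fun U _ => ?_
      simp
    rw [h0, Pr_false, Finset.sum_empty]
  | insert b s hb ih =>
    have ih' := ih (fun i hi j hj => hd i (Finset.mem_insert_of_mem hi) j (Finset.mem_insert_of_mem hj))
    rw [Finset.sum_insert hb]
    have h1 : Pr V p (fun U => ∃ i ∈ insert b s, E i U) =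
        Pr V p (fun U => E b U ∨ ∃ i ∈ s, E i U) := by
      refine Pr_congr fun U _ => ?_
      constructor
      · rintro ⟨i, hi, hE⟩
        rcases Finset.mem_insert.mp hi with rfl | hi
        · exact Or.inl hE
        · exact Or.inr ⟨i, hi, hE⟩
      · rintro (hE | ⟨i, hi, hE⟩)
        · exact ⟨b, Finset.mem_insert_self _ _, hE⟩
        · exact ⟨i, Finset.mem_insert_of_mem hi, hE⟩
    have h2 : Pr V p (fun U => E b U ∧ ∃ i ∈ s, E i U) = 0 := by
      have h3 : Pr V p (fun U => E b U ∧ ∃ i ∈ s, E i U) = Pr V p (fun _ => False) := by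
        refine Pr_congr fun U _ => ?_
        constructor
        · rintro ⟨hE, i, hi, hE'⟩
          have := hd b (Finset.mem_insert_self _ _) i (Finset.mem_insert_of_mem hi) U hE hE'
          exact hb (this ▸ hi)
        · exact fun h => h.elim
      rw [h3, Pr_false]
    have h4 := Pr_or_add_and (V := V) (p := p) (E := E b) (F := fun U => ∃ i ∈ s, E i U)
    rw [h1]
    linarith

section
variable {D h : ℕ} {p : ℝ}

theorem n7_hit_res {F : Finset (Site D)} {U : Finset (Mk D)} (hh : hit F 0 U) : res h F U :=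
  ⟨0, Nat.zero_le _, hh⟩

theorem n7_res_mono {F F' : Finset (Site D)} {U : Finset (Mk D)} (hF : F ⊆ F') (hh : res h F U) :
    res h F' U := by
  obtain ⟨j, hj, v, hv, hU⟩ := hh
  exact ⟨j, hj, v, hF hv, hU⟩

theorem n7_face_mono {i : Fin D} {x t t' : ℕ} (ht : t ≤ t') : face i x t ⊆ face i x t' := by
  unfold face
  refine Finset.Icc_subset_Icc le_rfl ?_
  intro m
  by_cases hm : m = i
  · simp [hm]
  · simp only [hm, if_false]
    exact_mod_cast ht

theorem n7_i {a l w i δ i' δ' : ℕ} {U : Finset (Mk (D + 2))} (h1 : Det h a l w i δ U)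
    (h2 : Det h a l w i' δ' U) : ¬ i < i' := by
  intro hlt
  have hSt := h2.1 0 (a + i + 1) (by omega) (by omega)
  have hM := h1.2.1.1
  rcases hSt with hr | ⟨_, hr⟩
  · refine hM.1 (n7_res_mono (n7_face_mono ?_) hr)
    omega
  · refine hM.2.1 (n7_hit_res ?_)
    have e1 : a + i + 1 + 1 = a + i + 2 := by omega
    have e2 : a + i + 1 + 1 - 2 = a + i := by omega
    simp only [e1] at hr
    have e3 : a + i + 2 - 2 = a + i := by omega
    rw [e3] at hr
    exact hr

theorem n7_δ {s w δ δ' : ℕ} {U : Finset (Mk (D + 2))} (h1 : Mid h s δ w U)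
    (h2 : Mid h s δ' w U) : ¬ δ < δ' := by
  intro hlt
  have hSq := h2.2.1.1 (s + δ + 1) (by omega) (by omega)
  have hM := h1.2.1
  rcases hSq with hr | ⟨_, hr⟩
  · exact hM.2.1 hr
  · exact hM.2.2.1 (n7_hit_res hr)

/-- [UB-N7] the detours are disjoint events.
PROOF. Suppose `i < i'`. In `Det .. i' δ'`: `St h a (a + i')`, direction `0`, level `x = a + i + 1`: `res h (face 0 (a+i+1) (a+i+1-2))` — impossible, this face is contained in `face 0 (a+i+1) (a+i)`, which is not resolved in `Mid h (a+i) δ w` — or `hit (face 0 (a+i+2) (a+i+2-2)) 0` — impossible since `¬ res h (face 0 (a+i+2) (a+i))`. By symmetry `i = i'`. Suppose `δ < δ'`, `s = a + i`: in `Mid h s δ' w` the event `Sq h (face 1 · s) s (s+δ')` at level `s+δ+1` gives `res h (face 1 (s+δ+1) s)` or `hit (face 1 (s+δ+2) s) 0`, both impossible by `Mid h s δ w`. -/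
theorem Det_inj {a l w i δ i' δ' : ℕ} {U : Finset (Mk (D + 2))} (h1 : Det h a l w i δ U)
    (h2 : Det h a l w i' δ' U) : i = i' ∧ δ = δ' := by
  have hi : i = i' := by
    have h3 := n7_i h1 h2
    have h4 := n7_i h2 h1
    omega
  subst hi
  refine ⟨rfl, ?_⟩
  have h3 := n7_δ h1.2.1 h2.2.1
  have h4 := n7_δ h2.2.1 h1.2.1
  omega

/-- [UB-N7] PROOF. `Pr_sum_le` for the index set `range (l - w + 1) ×ˢ range (w - 2)`, `Det_inj`, `Finset.sum_product`; `i ∈ range (l-w+1)` and `w ≤ l` give `i + w ≤ l`, `δ ∈ range (w-2)` gives `δ + 3 ≤ w`. -/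
theorem Win_ge {a l w : ℕ} (hp0 : 0 ≤ p) (hp1 : p ≤ 1) (hw : 3 ≤ w) (hl : w ≤ l)
    (V : Finset (Mk (D + 2))) :
    ∑ i ∈ Finset.range (l - w + 1), ∑ δ ∈ Finset.range (w - 2), Pr V p (Det h a l w i δ) ≤
      Pr V p (Win h a l w) := by
  have h1 : ∑ i ∈ Finset.range (l - w + 1), ∑ δ ∈ Finset.range (w - 2), Pr V p (Det h a l w i δ) =
      ∑ q ∈ Finset.range (l - w + 1) ×ˢ Finset.range (w - 2), Pr V p (Det h a l w q.1 q.2) := by
    rw [Finset.sum_product]
  rw [h1]
  have h2 := Pr_sum_le (p := p) V (Finset.range (l - w + 1) ×ˢ Finset.range (w - 2))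
    (fun q => Det h a l w q.1 q.2) (by
      rintro ⟨i, δ⟩ _ ⟨i', δ'⟩ _ U hE hE'
      have h3 := Det_inj hE hE'
      exact Prod.ext h3.1 h3.2)
  refine h2.trans (Pr_mono hp0 hp1 fun U _ => ?_)
  rintro ⟨⟨i, δ⟩, hq, hE⟩
  rw [Finset.mem_product, Finset.mem_range, Finset.mem_range] at hq
  exact ⟨i, δ, by simp only at hq; omega, by simp only at hq; omega, hE⟩

end

end UB
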