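import Pool.Agent.UB.P4
import Pool.Agent.UB.A1

set_option autoImplicit false

open scoped Classical
open Finset BTP

namespace UB

theorem n8a_aux {q : ℝ} (hq0 : 0 ≤ q) (hq1 : q ≤ 1) {m M : ℕ} (hm : m ≤ M) :
    (m : ℝ) * (q ^ M * (1 - q)) ≤ 1 - q ^ m := by
  induction m with
  | zero => simp
  | succ m ih =>
    have h1 := ih (by omega)
    have h2 : q ^ M ≤ q ^ m := pow_le_pow_of_le_one hq0 hq1 (by omega)
    have h3 : q ^ M * (1 - q) ≤ q ^ m * (1 - q) :=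
      mul_le_mul_of_nonneg_right h2 (by linarith)
    push_cast
    rw [pow_succ]
    nlinarith

/-- [UB-N8a] `uu p m / m` is decreasing.
PROOF. `uu p m = 1 - (1-p)^m = p ∑_{j<m} (1-p)^j` (`geom_sum`), an average of a decreasing sequence; or induction on `M`: `m uu(M+1) = m uu(M) + m p (1-p)^M ≤ M uu(m) + p m (1-p)^(M)` and `uu p m ≥ m p (1-p)^(m-1) ≥ m p (1-p)^M` for `m ≥ 1`. -/
theorem uu_concave {p : ℝ} (hp0 : 0 ≤ p) (hp1 : p ≤ 1) {m M : ℕ} (hm : m ≤ M) :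
    (m : ℝ) * uu p M ≤ M * uu p m := by
  induction M, hm using Nat.le_induction with
  | base => exact le_rfl
  | succ M hM ih =>
    have h1 := n8a_aux (q := 1 - p) (by linarith) (by linarith) hM
    unfold uu at *
    push_cast
    rw [pow_succ]
    nlinarith

theorem n8a_pow_le {p : ℝ} (hp1 : p ≤ 1) (n : ℕ) : (1 - p) ^ n ≤ Real.exp (-(p * n)) := by
  have h1 : 1 - p ≤ Real.exp (-p) := by
    have := Real.add_one_le_exp (-p)
    linarith
  calc (1 - p) ^ n ≤ Real.exp (-p) ^ n := pow_le_pow_left₀ (by linarith) h1 n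
    _ = Real.exp (-(p * n)) := by
        rw [← Real.exp_nat_mul]
        congr 1
        ring

/-- [UB-N8a] the loss of a frozen face.
PROOF. If `x - 2 ≤ s`: `uu_mono`, monotonicity of `bk` (`BTG.bk_mono`), `exp (-..) ≤ 1`. If `s < x - 2`: `c = (s / (x-2))^kap ∈ (0, 1]`; `c * uu p ((x-2)^kap) ≤ uu p (s^kap)` by `uu_concave`; `(x-2)/s ≤ 1 + w/s ≤ exp (w/s)`, so `c ≥ exp (-(kap * (w/s)))`; then `exp(..) * bk u ≤ c * bk u ≤ bk (c * u) ≤ bk (uu p (s^kap))` (`BTG.mul_bk_le'`, `BTG.bk_mono`, `BTG.bk_nonneg`). -/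
theorem frozen_ge {k kap s w x : ℕ} {p : ℝ} (hp0 : 0 ≤ p) (hp1 : p ≤ 1) (hs : 1 ≤ s) (hx : x ≤ s + w) :
    Real.exp (-((kap : ℝ) * (w / s))) * BTR.bk k (uu p ((x - 2) ^ kap)) ≤ BTR.bk k (uu p (s ^ kap)) := by
  have hu0 := uu_nonneg hp0 hp1 ((x - 2) ^ kap)
  have hu1 := uu_le_one hp1 ((x - 2) ^ kap)
  have hv1 := uu_le_one hp1 (s ^ kap)
  have hb0 := BTG.bk_nonneg k hu0 hu1
  have hs' : (0 : ℝ) < s := by exact_mod_cast hs
  by_cases hxs : x - 2 ≤ s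
  · have h1 : BTR.bk k (uu p ((x - 2) ^ kap)) ≤ BTR.bk k (uu p (s ^ kap)) :=
      BTG.bk_mono k hu0 (uu_mono hp0 hp1 (Nat.pow_le_pow_left hxs kap)) hv1
    have h2 : Real.exp (-((kap : ℝ) * (w / s))) ≤ 1 := by
      rw [Real.exp_le_one_iff]
      have : 0 ≤ (kap : ℝ) * (w / s) := by positivity
      linarith
    calc Real.exp (-((kap : ℝ) * (w / s))) * BTR.bk k (uu p ((x - 2) ^ kap))
        ≤ 1 * BTR.bk k (uu p ((x - 2) ^ kap)) := mul_le_mul_of_nonneg_right h2 hb0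
      _ ≤ _ := by rw [one_mul]; exact h1
  · have hlt : s < x - 2 := by omega
    set y := x - 2 with hy
    have hy0 : (0 : ℝ) < y := by
      have : 0 < y := by omega
      exact_mod_cast this
    have hsy : (s : ℝ) ≤ y := by exact_mod_cast hlt.le
    have hyw : (y : ℝ) ≤ s + w := by
      have : y ≤ s + w := by omega
      exact_mod_cast this
    set c : ℝ := ((s : ℝ) / y) ^ kap with hc
    have hc0 : 0 ≤ c := by positivity
    have hc1 : c ≤ 1 := pow_le_one₀ (by positivity) ((div_le_one hy0).2 hsy)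
    have hcu : c * uu p (y ^ kap) ≤ uu p (s ^ kap) := by
      have h1 := uu_concave hp0 hp1 (Nat.pow_le_pow_left hlt.le kap)
      push_cast at h1
      rw [hc, div_pow, div_mul_eq_mul_div, div_le_iff₀ (by positivity)]
      linarith
    have hce : Real.exp (-((kap : ℝ) * (w / s))) ≤ c := by
      have h1 : Real.exp (-((w : ℝ) / s)) ≤ (s : ℝ) / y := by
        rw [Real.exp_neg, inv_le_comm₀ (Real.exp_pos _) (by positivity), inv_div]
        calc (y : ℝ) / s ≤ (s + w) / s := by gcongr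
          _ = (w : ℝ) / s + 1 := by field_simp; ring
          _ ≤ _ := Real.add_one_le_exp _
      calc Real.exp (-((kap : ℝ) * (w / s))) = Real.exp (-((w : ℝ) / s)) ^ kap := by
            rw [← Real.exp_nat_mul]; congr 1; ring
        _ ≤ c := pow_le_pow_left₀ (Real.exp_pos _).le h1 kap
    calc Real.exp (-((kap : ℝ) * (w / s))) * BTR.bk k (uu p (y ^ kap))
        ≤ c * BTR.bk k (uu p (y ^ kap)) := mul_le_mul_of_nonneg_right hce hb0
      _ ≤ BTR.bk k (c * uu p (y ^ kap)) := BTG.mul_bk_le' k hu0 hu1 hc0 hc1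
      _ ≤ BTR.bk k (uu p (s ^ kap)) := BTG.bk_mono k (by positivity) hcu hv1

/-- [UB-N8a] PROOF. `(1-p)^(x^kap) ≤ exp(-p x^kap) ≤ exp(-p (A/2)^kap) = exp(-(1/2)^kap)`. -/
theorem uu_lower {p A : ℝ} {kap x : ℕ} (hp0 : 0 < p) (hp1 : p ≤ 1) (hA : 0 < A) (hpA : p * A ^ kap = 1)
    (hx : A / 2 ≤ x) : 1 - Real.exp (-((1 : ℝ) / 2) ^ kap) ≤ uu p (x ^ kap) := by
  have h1 := n8a_pow_le hp1 (x ^ kap)
  have h2 : ((1 : ℝ) / 2) ^ kap ≤ p * ((x ^ kap : ℕ) : ℝ) := by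
    push_cast
    have h3 : (A / 2) ^ kap ≤ (x : ℝ) ^ kap := pow_le_pow_left₀ (by positivity) hx kap
    calc ((1 : ℝ) / 2) ^ kap = p * A ^ kap * (1 / 2) ^ kap := by rw [hpA, one_mul]
      _ = p * (A / 2) ^ kap := by rw [div_eq_mul_one_div A 2, mul_pow]; ring
      _ ≤ p * (x : ℝ) ^ kap := mul_le_mul_of_nonneg_left h3 hp0.le
  have h4 : Real.exp (-(p * ((x ^ kap : ℕ) : ℝ))) ≤ Real.exp (-((1 : ℝ) / 2) ^ kap) :=
    Real.exp_le_exp.2 (by linarith)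
  unfold uu
  linarith

/-- [UB-N8a] PROOF. `1 - p ≥ exp(-2p)` for `0 ≤ p ≤ 1/2` (`Real.exp_bound`-type, or `log(1-p) ≥ -p/(1-p) ≥ -2p`: `Real.one_sub_inv_le_log_of_pos`), so `(1-p)^(x^kap) ≥ exp(-2 p x^kap) ≥ exp(-2 p (4A)^kap)`. -/
theorem uu_upper {p A : ℝ} {kap x : ℕ} (hp0 : 0 < p) (hp1 : p ≤ 1 / 2) (hA : 0 < A)
    (hpA : p * A ^ kap = 1) (hx : (x : ℝ) ≤ 4 * A) :
    Real.exp (-(2 * (4 : ℝ) ^ kap)) ≤ 1 - uu p (x ^ kap) := by
  have hq : (0 : ℝ) < 1 - p := by linarith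
  have h1 : Real.exp (-(2 * p)) ≤ 1 - p := by
    rw [← Real.le_log_iff_exp_le hq]
    have h2 := Real.one_sub_inv_le_log_of_pos hq
    have h3 : (1 - p)⁻¹ ≤ 1 + 2 * p := by
      rw [inv_le_iff_one_le_mul₀ hq]
      nlinarith
    linarith
  have h2 : p * ((x ^ kap : ℕ) : ℝ) ≤ (4 : ℝ) ^ kap := by
    push_cast
    have h3 : (x : ℝ) ^ kap ≤ (4 * A) ^ kap := pow_le_pow_left₀ (by positivity) hx kap
    calc p * (x : ℝ) ^ kap ≤ p * (4 * A) ^ kap := mul_le_mul_of_nonneg_left h3 hp0.le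
      _ = (4 : ℝ) ^ kap * (p * A ^ kap) := by rw [mul_pow]; ring
      _ = (4 : ℝ) ^ kap := by rw [hpA, mul_one]
  unfold uu
  calc Real.exp (-(2 * (4 : ℝ) ^ kap)) ≤ Real.exp (-(2 * (p * ((x ^ kap : ℕ) : ℝ)))) :=
        Real.exp_le_exp.2 (by linarith)
    _ = Real.exp (-(2 * p)) ^ (x ^ kap) := by
        rw [← Real.exp_nat_mul]; congr 1; ring
    _ ≤ (1 - p) ^ (x ^ kap) := pow_le_pow_left₀ (Real.exp_pos _).le h1 _
    _ = 1 - (1 - (1 - p) ^ (x ^ kap)) := by ring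

/-- [UB-N8a] PROOF. `uu p (s^D) ≥ 1 - exp(-p s^D) ≥ t/(1+t)`, `t = p s^D ≥ p A^D = 1/A` (`exp(-t) ≤ 1/(1+t)`), `t/(1+t)` is increasing, `(1/A)/(1+1/A) = 1/(A+1) ≥ 1/(2A)`. -/
theorem corner_ge {p A : ℝ} {D s : ℕ} (hp0 : 0 < p) (hp1 : p ≤ 1) (hA : 1 ≤ A)
    (hpA : p * A ^ (D + 1) = 1) (hs : A ≤ s) : 1 / (2 * A) ≤ uu p (s ^ D) := by
  have hA0 : 0 < A := by linarith
  have h1 := n8a_pow_le hp1 (s ^ D)
  have h2 : 1 / A ≤ p * ((s ^ D : ℕ) : ℝ) := by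
    push_cast
    have h3 : A ^ D ≤ (s : ℝ) ^ D := pow_le_pow_left₀ hA0.le hs D
    calc 1 / A = p * A ^ (D + 1) / A := by rw [hpA]
      _ = p * A ^ D := by rw [pow_succ]; field_simp
      _ ≤ p * (s : ℝ) ^ D := mul_le_mul_of_nonneg_left h3 hp0.le
  have h4 : Real.exp (-(p * ((s ^ D : ℕ) : ℝ))) ≤ Real.exp (-(1 / A)) :=
    Real.exp_le_exp.2 (by linarith)
  have h5 : Real.exp (-(1 / A)) ≤ A / (A + 1) := by
    rw [Real.exp_neg, inv_le_comm₀ (Real.exp_pos _) (by positivity), inv_div]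
    calc (A + 1) / A = 1 / A + 1 := by field_simp; ring
      _ ≤ _ := Real.add_one_le_exp _
  have h6 : 1 / (2 * A) ≤ 1 - A / (A + 1) := by
    have h7 : 1 - A / (A + 1) = 1 / (A + 1) := by field_simp; ring
    rw [h7]
    exact one_div_le_one_div_of_le (by positivity) (by linarith)
  unfold uu
  linarith

end UB
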