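import Pool.Agent.UB.N4
import Pool.Agent.UB.N6
import Pool.Agent.UB.N8a

set_option autoImplicit false

open scoped Classical
open Finset BTP

namespace UB

/-- the constant of one detour -/
noncomputable def c2 (D h : ℕ) : ℝ :=
  (1 - Real.exp (-((1 : ℝ) / 2) ^ (D + 1))) ^ (3 * D + 9) *
    Real.exp (-(2 * (4 : ℝ) ^ (D + 1))) ^ (4 * (h + 1)) *
    Real.exp (-(4 * ((D : ℝ) + 1) * (D + 2))) / 2

/-- [UB-N8b] -/
theorem c2_pos (D h : ℕ) : 0 < c2 D h := by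
  have h1 : Real.exp (-((1 : ℝ) / 2) ^ (D + 1)) < 1 := by
    rw [Real.exp_lt_one_iff]
    have : (0 : ℝ) < ((1 : ℝ) / 2) ^ (D + 1) := by positivity
    linarith
  have h2 : 0 < 1 - Real.exp (-((1 : ℝ) / 2) ^ (D + 1)) := by linarith
  unfold c2
  positivity

/-- frozen faces: the product over a window -/
theorem n8b_frozen (D h : ℕ) (p A : ℝ) (s w : ℕ) (hp0 : 0 < p) (hp1 : p ≤ 1 / 2) (hA : 1 ≤ A)
    (hs : A ≤ s) (hw2 : (w : ℝ) ^ 2 ≤ 4 * A) :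
    Real.exp (-(4 * ((D : ℝ) + 1))) *
        ∏ x ∈ Finset.Ioc s (s + w), BTR.bk (h + 1) (uu p ((x - 2) ^ (D + 1))) ≤
      BTR.bk (h + 1) (uu p (s ^ (D + 1))) ^ w := by
  have hp1' : p ≤ 1 := by linarith
  have hs0 : (0 : ℝ) < s := by linarith
  have hs1 : 1 ≤ s := by
    have : (0 : ℝ) < (s : ℝ) := hs0
    exact_mod_cast this
  have hbk : ∀ m : ℕ, 0 ≤ BTR.bk (h + 1) (uu p m) := fun m =>
    BTG.bk_nonneg (h + 1) (uu_nonneg hp0.le hp1' m) (uu_le_one hp1' m)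
  set e : ℝ := Real.exp (-(((D + 1 : ℕ) : ℝ) * (w / s))) with he
  have h1 : ∏ x ∈ Finset.Ioc s (s + w), (e * BTR.bk (h + 1) (uu p ((x - 2) ^ (D + 1)))) ≤
      ∏ _x ∈ Finset.Ioc s (s + w), BTR.bk (h + 1) (uu p (s ^ (D + 1))) := by
    refine Finset.prod_le_prod (fun x _ => ?_) (fun x hx => ?_)
    · exact mul_nonneg (Real.exp_pos _).le (hbk _)
    · rw [Finset.mem_Ioc] at hx
      exact frozen_ge hp0.le hp1' hs1 hx.2
  rw [Finset.prod_mul_distrib, Finset.prod_const, Finset.prod_const, Nat.card_Ioc,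
    Nat.add_sub_cancel_left] at h1
  refine le_trans ?_ h1
  refine mul_le_mul_of_nonneg_right ?_ (Finset.prod_nonneg fun x _ => hbk _)
  rw [he, ← Real.exp_nat_mul]
  refine Real.exp_le_exp.2 ?_
  have h2 : (w : ℝ) * ((w : ℝ) / s) ≤ 4 := by
    rw [← mul_div_assoc, div_le_iff₀ hs0]
    nlinarith
  have h3 : (0 : ℝ) ≤ (D : ℝ) + 1 := by positivity
  push_cast
  nlinarith [mul_le_mul_of_nonneg_left h2 h3]

/-- [UB-N8b] lower bound for the probability of one detour.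
PROOF. `s = a + i`, `κ = D + 1`, `β x = bk (h+1) (uu p ((x-2)^κ))`, `u₋ = 1 - exp(-(1/2)^κ)`, `w₋ = exp(-(2 * 4^κ))`, `Π(a', b') = ∏ x ∈ Ioc a' b', β x`. `Pr_Det`, then
`Pr_St` with `c = u₋` for `(a, a+i)` and `(a+i+w, a+l)` (first level `x`: `uu p ((x-2)^κ) ≥ u₋` by `uu_lower`, `uu_mono`: `a + 1 - 2 = a - 1 ≥ A/2`; note `D + 2 - 1 = D + 1`), `Pr_Mid` for the middle.
`uu p (s^κ) ≥ u₋` (`uu_lower`, `s ≥ A`), `1 - uu p (s^κ) ≥ w₋` (`uu_upper`, `s ≤ 4A`), `uu p (s^D) ≥ 1/(2A)` (`corner_ge`).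
`bk (h+1) (uu p (s^κ)) ^ w = ∏_{x ∈ Ioc s (s+w)} bk(..) ≥ ∏ exp(-(κ w/s)) β x = exp(-κ w²/s) Π(s, s+w) ≥ exp(-4κ) Π(s, s+w)` (`frozen_ge`, `s ≥ A`, `w² ≤ 4A`), so the `(D+2)w`-th power is `≥ (exp(-4κ) Π(s, s+w))^(D+2)`.
Product: `(u₋ Π(a,s))^(D+2) * (w₋^(4(h+1)) u₋^(D+5) (exp(-4κ) Π(s,s+w))^(D+2) / (2A)) * (u₋ Π(s+w, a+l))^(D+2) = c2 / A * Π(a, a+l)^(D+2)` (`Finset.prod_Ioc_consecutive`; `u₋^(D+2+D+5+D+2) = u₋^(3D+9)`, `exp(-4κ)^(D+2) = exp(-4(D+1)(D+2))`). -/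
theorem Det_ge (D h : ℕ) (p A : ℝ) (a l w N i δ : ℕ) (hp0 : 0 < p) (hp1 : p ≤ 1 / 2) (hA : 1 ≤ A)
    (hpA : p * A ^ (D + 1) = 1) (ha : A + 1 ≤ a) (hal : (a : ℝ) + l ≤ 4 * A) (hw2 : (w : ℝ) ^ 2 ≤ 4 * A)
    (hi : i + w ≤ l) (hw : δ + 3 ≤ w) (hN : a + l ≤ N) :
    c2 D h / A * (∏ x ∈ Finset.Ioc a (a + l), BTR.bk (h + 1) (uu p ((x - 2) ^ (D + 1)))) ^ (D + 2) ≤
      Pr (mks (cube (D + 2) N) h) p (Det h a l w i δ) := by
  have hp1' : p ≤ 1 := by linarith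
  have hA0 : (0 : ℝ) < A := by linarith
  have hB := betaOK (h + 1)
  have hbk : ∀ m : ℕ, 0 ≤ BTR.bk (h + 1) (uu p m) := fun m =>
    BTG.bk_nonneg (h + 1) (uu_nonneg hp0.le hp1' m) (uu_le_one hp1' m)
  set V := mks (cube (D + 2) N) h with hV
  set um : ℝ := 1 - Real.exp (-((1 : ℝ) / 2) ^ (D + 1)) with hum
  set wm : ℝ := Real.exp (-(2 * (4 : ℝ) ^ (D + 1))) with hwm
  set g : ℕ → ℝ := fun x => BTR.bk (h + 1) (uu p ((x - 2) ^ (D + 1))) with hg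
  have hum1 : um ≤ 1 := by
    have := Real.exp_pos (-((1 : ℝ) / 2) ^ (D + 1))
    linarith
  have hum0 : 0 < um := by
    have h1 : Real.exp (-((1 : ℝ) / 2) ^ (D + 1)) < 1 := by
      rw [Real.exp_lt_one_iff]
      have : (0 : ℝ) < ((1 : ℝ) / 2) ^ (D + 1) := by positivity
      linarith
    linarith
  have hwm0 : 0 < wm := Real.exp_pos _
  have hg0 : ∀ x, 0 ≤ g x := fun x => hbk _
  have hP0 : ∀ b c : ℕ, 0 ≤ ∏ x ∈ Finset.Ioc b c, g x := fun b c => Finset.prod_nonneg fun x _ => hg0 x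
  have hlow : ∀ y : ℕ, a ≤ y → um ≤ uu p ((y + 1 - 2) ^ (D + 2 - 1)) := by
    intro y hy
    have e1 : D + 2 - 1 = D + 1 := rfl
    rw [e1]
    refine uu_lower hp0 hp1' hA0 hpA ?_
    have hy' : (a : ℝ) ≤ (y : ℝ) := by exact_mod_cast hy
    have hy2 : (2 : ℝ) ≤ (y : ℝ) := by linarith
    have hy2' : 2 ≤ y := by exact_mod_cast hy2
    have e2 : ((y + 1 - 2 : ℕ) : ℝ) = (y : ℝ) - 1 := by
      rw [Nat.cast_sub (by omega)]
      push_cast
      ring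
    rw [e2]
    linarith
  have hS1 := Pr_St (D := D + 2) (h := h) (p := p) hB hp0.le hp1' (a := a) (b := a + i) (N := N)
    (by omega) (by omega) um hum0.le hum1 (fun _ => hlow a le_rfl)
  have hS2 := Pr_St (D := D + 2) (h := h) (p := p) hB hp0.le hp1' (a := a + i + w) (b := a + l) (N := N)
    (by omega) (by omega) um hum0.le hum1 (fun _ => hlow (a + i + w) (by omega))
  have hM := Pr_Mid (D := D) (h := h) (p := p) hB hp0.le hp1' (s := a + i) (δ := δ) (w := w) (N := N) hw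
    (by omega)
  rw [Pr_Det V hi hw]
  have hs : A ≤ ((a + i : ℕ) : ℝ) := by
    push_cast
    have : (0 : ℝ) ≤ (i : ℝ) := Nat.cast_nonneg i
    linarith
  have hs4 : ((a + i : ℕ) : ℝ) ≤ 4 * A := by
    have h1 : ((a + i : ℕ) : ℝ) ≤ ((a + l : ℕ) : ℝ) := by
      exact_mod_cast (by omega : a + i ≤ a + l)
    push_cast at h1 ⊢
    linarith
  have hu1 : um ≤ uu p ((a + i) ^ (D + 1)) :=
    uu_lower hp0 hp1' hA0 hpA (by linarith)
  have hu2 : wm ≤ 1 - uu p ((a + i) ^ (D + 1)) := uu_upper hp0 hp1 hA0 hpA hs4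
  have hc : 1 / (2 * A) ≤ uu p ((a + i) ^ D) := corner_ge hp0 hp1' hA hpA hs
  have hfr := n8b_frozen D h p A (a + i) w hp0 hp1 hA hs hw2
  have hM' : wm ^ (4 * (h + 1)) * um ^ (D + 5) *
      (Real.exp (-(4 * ((D : ℝ) + 1))) * ∏ x ∈ Finset.Ioc (a + i) (a + i + w), g x) ^ (D + 2) *
      (1 / (2 * A)) ≤ Pr V p (Mid h (a + i) δ w) := by
    refine le_trans ?_ hM
    have e1 : BTR.bk (h + 1) (uu p ((a + i) ^ (D + 1))) ^ ((D + 2) * w) =
        (BTR.bk (h + 1) (uu p ((a + i) ^ (D + 1))) ^ w) ^ (D + 2) := by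
      rw [← pow_mul, mul_comm w]
    rw [e1]
    have hX0 : 0 ≤ Real.exp (-(4 * ((D : ℝ) + 1))) * ∏ x ∈ Finset.Ioc (a + i) (a + i + w), g x :=
      mul_nonneg (Real.exp_pos _).le (hP0 _ _)
    have hu0 : 0 ≤ 1 - uu p ((a + i) ^ (D + 1)) := le_trans hwm0.le hu2
    have hu0' : 0 ≤ uu p ((a + i) ^ (D + 1)) := le_trans hum0.le hu1
    have i1 : wm ^ (4 * (h + 1)) ≤ (1 - uu p ((a + i) ^ (D + 1))) ^ (4 * (h + 1)) :=
      pow_le_pow_left₀ hwm0.le hu2 _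
    have i2 : um ^ (D + 5) ≤ uu p ((a + i) ^ (D + 1)) ^ (D + 5) := pow_le_pow_left₀ hum0.le hu1 _
    have i3 : (Real.exp (-(4 * ((D : ℝ) + 1))) * ∏ x ∈ Finset.Ioc (a + i) (a + i + w), g x) ^ (D + 2) ≤
        (BTR.bk (h + 1) (uu p ((a + i) ^ (D + 1))) ^ w) ^ (D + 2) := pow_le_pow_left₀ hX0 hfr _
    exact mul_le_mul (mul_le_mul (mul_le_mul i1 i2 (by positivity) (by positivity)) i3
      (by positivity) (by positivity)) hc (by positivity)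
      (mul_nonneg (mul_nonneg (by positivity) (by positivity)) (pow_nonneg (pow_nonneg (hbk _) _) _))
  have hS1' : (um * ∏ x ∈ Finset.Ioc a (a + i), g x) ^ (D + 2) ≤ Pr V p (St h a (a + i)) := hS1
  have hS2' : (um * ∏ x ∈ Finset.Ioc (a + i + w) (a + l), g x) ^ (D + 2) ≤
      Pr V p (St h (a + i + w) (a + l)) := hS2
  have hprod : ∏ x ∈ Finset.Ioc a (a + l), g x =
      (∏ x ∈ Finset.Ioc a (a + i), g x) * ((∏ x ∈ Finset.Ioc (a + i) (a + i + w), g x) *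
        ∏ x ∈ Finset.Ioc (a + i + w) (a + l), g x) := by
    rw [Finset.prod_Ioc_consecutive g (by omega : a + i ≤ a + i + w) (by omega : a + i + w ≤ a + l),
      Finset.prod_Ioc_consecutive g (by omega : a ≤ a + i) (by omega : a + i ≤ a + l)]
  have hexp : Real.exp (-(4 * ((D : ℝ) + 1))) ^ (D + 2) = Real.exp (-(4 * ((D : ℝ) + 1) * (D + 2))) := by
    rw [← Real.exp_nat_mul]
    congr 1
    push_cast
    ring
  calc c2 D h / A * (∏ x ∈ Finset.Ioc a (a + l), g x) ^ (D + 2)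
      = (um * ∏ x ∈ Finset.Ioc a (a + i), g x) ^ (D + 2) *
        ((wm ^ (4 * (h + 1)) * um ^ (D + 5) *
          (Real.exp (-(4 * ((D : ℝ) + 1))) * ∏ x ∈ Finset.Ioc (a + i) (a + i + w), g x) ^ (D + 2) *
          (1 / (2 * A))) * (um * ∏ x ∈ Finset.Ioc (a + i + w) (a + l), g x) ^ (D + 2)) := by
        rw [hprod]
        simp only [mul_pow]
        rw [hexp]
        unfold c2
        rw [← hum, ← hwm]
        have e3 : um ^ (3 * D + 9) = um ^ (D + 2) * um ^ (D + 5) * um ^ (D + 2) := by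
          rw [← pow_add, ← pow_add]
          congr 1
          ring
        rw [e3]
        field_simp
    _ ≤ _ := by
        refine mul_le_mul hS1' (mul_le_mul hM' hS2' ?_ ?_) ?_ ?_
        · exact pow_nonneg (mul_nonneg hum0.le (hP0 _ _)) _
        · exact Pr_nonneg hp0.le hp1'
        · refine mul_nonneg (mul_nonneg (mul_nonneg (by positivity)
            (pow_nonneg (mul_nonneg (Real.exp_pos _).le (hP0 _ _)) _)) (by positivity)) ?_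
          exact pow_nonneg (mul_nonneg hum0.le (hP0 _ _)) _
        · exact Pr_nonneg hp0.le hp1'

end UB
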