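import Pool.Agent.UB.N7
import Pool.Agent.UB.N8b

set_option autoImplicit false

open scoped Classical
open Finset BTP

namespace UB

/-- [UB-N8c] the window: the probability of growth is at least twice the standard product.
PROOF. `Win_ge` and `Det_ge` (`w² ≤ (√A + 4)² ≤ 4A` as `√A ≥ 4`): the sum has `(l - w + 1)(w - 2) ≥ (K √A)(√A) = K A` terms (`w - 2 ≥ √A + 1`, `l - w ≥ K √A`; casts of natural subtractions), each `≥ c2/A * Π^(D+2)`; `K = 2 / c2 D h`. (`Π ≥ 0`: `BTG.bk_nonneg`.) -/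
theorem window (D h : ℕ) (p A : ℝ) (a l w N : ℕ) (hp0 : 0 < p) (hp1 : p ≤ 1 / 2) (hA : 16 ≤ A)
    (hpA : p * A ^ (D + 1) = 1) (ha : A + 1 ≤ a) (hal : (a : ℝ) + l ≤ 4 * A)
    (hw1 : Real.sqrt A + 3 ≤ w) (hw2 : (w : ℝ) ≤ Real.sqrt A + 4)
    (hl : 2 / c2 D h * Real.sqrt A + w ≤ l) (hN : a + l ≤ N) :
    2 * (∏ x ∈ Finset.Ioc a (a + l), BTR.bk (h + 1) (uu p ((x - 2) ^ (D + 1)))) ^ (D + 2) ≤
      Pr (mks (cube (D + 2) N) h) p (Win h a l w) := by
  have hA0 : (0 : ℝ) < A := by linarith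
  have hc2 : 0 < c2 D h := c2_pos D h
  have hs4 : (4 : ℝ) ≤ Real.sqrt A := by
    rw [show (4 : ℝ) = Real.sqrt (4 ^ 2) by rw [Real.sqrt_sq (by norm_num)]]
    exact Real.sqrt_le_sqrt (by norm_num; linarith)
  have hsq : Real.sqrt A * Real.sqrt A = A := Real.mul_self_sqrt hA0.le
  have hs0 : 0 ≤ Real.sqrt A := Real.sqrt_nonneg A
  have hK0 : 0 ≤ 2 / c2 D h := by positivity
  have hKs : 0 ≤ 2 / c2 D h * Real.sqrt A := mul_nonneg hK0 hs0
  have hw3 : 3 ≤ w := by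
    have : (3 : ℝ) ≤ w := by linarith
    exact_mod_cast this
  have hwl : w ≤ l := by
    have : (w : ℝ) ≤ l := by linarith
    exact_mod_cast this
  have hww : (w : ℝ) ^ 2 ≤ 4 * A := by
    have hw0 : (0 : ℝ) ≤ w := Nat.cast_nonneg _
    have h1 : (w : ℝ) ≤ 2 * Real.sqrt A := by linarith
    calc (w : ℝ) ^ 2 ≤ (2 * Real.sqrt A) ^ 2 := pow_le_pow_left₀ hw0 h1 2
      _ = 4 * (Real.sqrt A * Real.sqrt A) := by ring
      _ = 4 * A := by rw [hsq]
  set Q : ℝ := (∏ x ∈ Finset.Ioc a (a + l), BTR.bk (h + 1) (uu p ((x - 2) ^ (D + 1)))) ^ (D + 2)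
    with hQ
  have hQ0 : 0 ≤ Q := by
    rw [hQ]
    apply pow_nonneg
    apply Finset.prod_nonneg
    intro x _
    have hu0 : 0 ≤ uu p ((x - 2) ^ (D + 1)) := by
      unfold uu
      have h1 : (1 - p) ^ ((x - 2) ^ (D + 1)) ≤ 1 := pow_le_one₀ (by linarith) (by linarith)
      linarith
    have hu1 : uu p ((x - 2) ^ (D + 1)) ≤ 1 := by
      unfold uu
      have h1 : 0 ≤ (1 - p) ^ ((x - 2) ^ (D + 1)) := pow_nonneg (by linarith) _
      linarith
    unfold BTR.bk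
    have h2 : (1 - uu p ((x - 2) ^ (D + 1))) ^ (h + 1) ≤ 1 :=
      pow_le_one₀ (by linarith) (by linarith)
    have h3 := Real.sqrt_nonneg ((1 - (1 - uu p ((x - 2) ^ (D + 1))) ^ (h + 1)) ^ 2 +
      4 * uu p ((x - 2) ^ (D + 1)) * (1 - uu p ((x - 2) ^ (D + 1))) ^ (h + 1))
    apply div_nonneg _ (by norm_num)
    linarith
  have hsum : ∑ i ∈ Finset.range (l - w + 1), ∑ δ ∈ Finset.range (w - 2), (c2 D h / A * Q) ≤
      ∑ i ∈ Finset.range (l - w + 1), ∑ δ ∈ Finset.range (w - 2),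
        Pr (mks (cube (D + 2) N) h) p (Det h a l w i δ) := by
    refine Finset.sum_le_sum fun i hi => Finset.sum_le_sum fun δ hδ => ?_
    have hi' := Finset.mem_range.mp hi
    have hδ' := Finset.mem_range.mp hδ
    exact Det_ge D h p A a l w N i δ hp0 hp1 (by linarith) hpA ha hal hww (by omega) (by omega) hN
  have hwin := Win_ge (D := D) (h := h) (p := p) (a := a) hp0.le (by linarith) hw3 hwl
    (mks (cube (D + 2) N) h)
  refine le_trans ?_ (hsum.trans hwin)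
  rw [Finset.sum_const, Finset.sum_const, Finset.card_range, Finset.card_range, nsmul_eq_mul,
    nsmul_eq_mul]
  have e1 : ((l - w + 1 : ℕ) : ℝ) = (l : ℝ) - w + 1 := by
    rw [Nat.cast_add, Nat.cast_sub hwl, Nat.cast_one]
  have e2 : ((w - 2 : ℕ) : ℝ) = (w : ℝ) - 2 := by
    rw [Nat.cast_sub (by omega)]; norm_num
  rw [e1, e2]
  have g1 : 2 / c2 D h * Real.sqrt A ≤ (l : ℝ) - w + 1 := by linarith
  have g2 : Real.sqrt A ≤ (w : ℝ) - 2 := by linarith
  have g3 : 0 ≤ c2 D h / A * Q := by positivity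
  have g4 : 2 * Q = 2 / c2 D h * Real.sqrt A * (Real.sqrt A * (c2 D h / A * Q)) := by
    have e3 : 2 / c2 D h * Real.sqrt A * (Real.sqrt A * (c2 D h / A * Q)) =
        2 / c2 D h * (Real.sqrt A * Real.sqrt A) * (c2 D h / A * Q) := by ring
    rw [e3, hsq]
    field_simp
  rw [g4]
  exact mul_le_mul g1 (mul_le_mul_of_nonneg_right g2 g3) (mul_nonneg hs0 g3) (by linarith)

end UB
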