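import Pool.Agent.UB.N3b
import Pool.Agent.UB.N4

set_option autoImplicit false

open scoped Classical
open Finset BTP

namespace UB

section
variable {D h : ℕ} {p : ℝ}

theorem n9a_dep_seed {α : Type*} (B : Finset α) : Dep B (fun U => B ⊆ U) := by
  intro U
  constructor
  · intro hU
    exact Finset.subset_inter hU (Finset.Subset.refl _)
  · intro hU
    exact hU.trans Finset.inter_subset_left

theorem n9a_seed_disjoint {b : ℕ} :
    Disjoint ((cube D 2 ×ˢ {0} : Finset (Mk D))) (shell D h 2 b) := by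
  rw [Finset.disjoint_left]
  intro w hw hw'
  rw [Finset.mem_product] at hw
  have h1 := mem_cube.mp hw.1
  obtain ⟨⟨_, m, hm⟩, _⟩ := mem_shell.mp hw'
  have h2 := (h1 m).2
  push_cast at h2 hm
  omega

theorem n9a_shell_sub_disjoint {a b a' b' : ℕ} (h1 : b ≤ a') :
    Disjoint (shell D h a b) (shell D h a' b') := by
  have h2 : shell D h a b ⊆ shell D h a a' := shell_mono le_rfl h1
  exact Finset.disjoint_of_subset_left h2 shell_disjoint

theorem n9a_fill {a₀ l w J b : ℕ} (ha : 2 ≤ a₀) (hb : a₀ + J * l ≤ b) {U : Finset (Mk (D + 2))}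
    (h1 : (cube (D + 2) 2 ×ˢ {0} : Finset (Mk (D + 2))) ⊆ U) (h2 : St h 2 a₀ U)
    (h3 : ∀ j ∈ Finset.range J, Win h (a₀ + j * l) l w U) (h4 : St h (a₀ + J * l) b U) :
    Fill 2 h (cube (D + 2) b) (U : Set (Mk (D + 2))) := by
  intro S hS
  have hJ : a₀ ≤ a₀ + J * l := Nat.le_add_right _ _
  have h0 : ∀ x ∈ cube (D + 2) 2, x ∈ S := by
    intro x hx
    have hx' : x ∈ cube (D + 2) b := by
      rw [mem_cube] at hx ⊢
      intro m
      have := hx m
      refine ⟨this.1, this.2.trans ?_⟩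
      exact_mod_cast (by omega : 2 ≤ b)
    refine (hS x hx').1 ?_
    exact Finset.mem_coe.mpr (h1 (Finset.mem_product.mpr ⟨hx, Finset.mem_singleton_self _⟩))
  have h5 := St_grow (by norm_num) ha (hJ.trans hb) hS h0 h2
  have h6 := chain_grow (by omega) J hb hS h5 (fun j hj => h3 j (Finset.mem_range.mpr hj))
  exact St_grow (by omega) hb le_rfl hS h6 h4

/-- [UB-N9a] the pieces of the growth: seed `{1,2}^(D+2)`, standard growth to `a₀`, `J` windows, standard growth to `b`.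
PROOF. `V = mks (cube (D+2) b) h`. The event `E U = (cube (D+2) 2 ×ˢ {0} ⊆ U) ∧ St h 2 a₀ U ∧ (∀ j ∈ range J, Win h (a₀ + j*l) l w U) ∧ St h (a₀ + J*l) b U` implies `Fill 2 h (cube (D+2) b) U` (for `U ⊆ V`): let `S` be closed; `cube (D+2) 2 ⊆ S` by the marks of height `0`; `St_grow`, `chain_grow`, `St_grow`. So `Q ≥ Pr V p E` (`Pr_mono`).
Independence: the seed event depends on `mks (cube (D+2) 2) h = shell (D+2) h 0 2` (or directly: it depends on `cube (D+2) 2 ×ˢ {0}`, disjoint from the shells `(2, b]`), `Dep_St`, `Dep_Win`, shells of consecutive intervals are disjoint (`shell_disjoint`, `shell_mono`), `Pr_and_dep`, `Pr_all_dep`; `Pr V p (cube (D+2) 2 ×ˢ {0} ⊆ U) = p^(2^(D+2))` (`BTP.Pr_subset`, `card_cube`). -/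
theorem Q_pieces (hp0 : 0 ≤ p) (hp1 : p ≤ 1) {a₀ l w J b : ℕ} (ha : 2 ≤ a₀) (hb : a₀ + J * l ≤ b) :
    p ^ (2 ^ (D + 2)) * (Pr (mks (cube (D + 2) b) h) p (St h 2 a₀) *
      ((∏ j ∈ Finset.range J, Pr (mks (cube (D + 2) b) h) p (Win h (a₀ + j * l) l w)) *
        Pr (mks (cube (D + 2) b) h) p (St h (a₀ + J * l) b))) ≤ Q (D + 2) 2 h b p := by
  have hJ : a₀ ≤ a₀ + J * l := Nat.le_add_right _ _
  set V := mks (cube (D + 2) b) h with hV
  have hD3j : ∀ j ∈ Finset.range J, Dep (shell (D + 2) h (a₀ + j * l) (a₀ + j * l + l))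
      (Win h (a₀ + j * l) l w) := fun j _ => Dep_Win
  have hP3 : Pr V p (fun U => ∀ j ∈ Finset.range J, Win h (a₀ + j * l) l w U) =
      ∏ j ∈ Finset.range J, Pr V p (Win h (a₀ + j * l) l w) := by
    refine Pr_all_dep V (Finset.range J) (fun j => shell (D + 2) h (a₀ + j * l) (a₀ + j * l + l))
      (fun j => Win h (a₀ + j * l) l w) hD3j ?_
    intro i _ j _ hij
    rcases lt_or_gt_of_ne hij with hlt | hlt
    · refine n9a_shell_sub_disjoint ?_
      have : (i + 1) * l ≤ j * l := Nat.mul_le_mul_right _ hlt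
      rw [Nat.add_mul, Nat.one_mul] at this
      omega
    · refine (n9a_shell_sub_disjoint ?_).symm
      have : (j + 1) * l ≤ i * l := Nat.mul_le_mul_right _ hlt
      rw [Nat.add_mul, Nat.one_mul] at this
      omega
  have hD3 : Dep (shell (D + 2) h a₀ (a₀ + J * l))
      (fun U => ∀ j ∈ Finset.range J, Win h (a₀ + j * l) l w U) := by
    refine Dep.all fun j => Dep.all fun hj => (hD3j j hj).mono (shell_mono ?_ ?_)
    · exact Nat.le_add_right _ _
    · have hj' := Finset.mem_range.mp hj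
      have : (j + 1) * l ≤ J * l := Nat.mul_le_mul_right _ hj'
      rw [Nat.add_mul, Nat.one_mul] at this
      omega
  have hD4 : Dep (shell (D + 2) h (a₀ + J * l) b) (St h (a₀ + J * l) b) := Dep_St _ _
  have hP34 := Pr_and_dep (p := p) V hD3 hD4 shell_disjoint
  have hD34 : Dep (shell (D + 2) h a₀ b)
      (fun U => (∀ j ∈ Finset.range J, Win h (a₀ + j * l) l w U) ∧ St h (a₀ + J * l) b U) :=
    (hD3.mono (shell_mono le_rfl hb)).and (hD4.mono (shell_mono hJ le_rfl))
  have hD2 : Dep (shell (D + 2) h 2 a₀) (St h 2 a₀) := Dep_St _ _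
  have hP234 := Pr_and_dep (p := p) V hD2 hD34 shell_disjoint
  have hD234 : Dep (shell (D + 2) h 2 b)
      (fun U => St h 2 a₀ U ∧ ((∀ j ∈ Finset.range J, Win h (a₀ + j * l) l w U) ∧
        St h (a₀ + J * l) b U)) :=
    (hD2.mono (shell_mono le_rfl (hJ.trans hb))).and (hD34.mono (shell_mono ha le_rfl))
  have hD1 : Dep (cube (D + 2) 2 ×ˢ {0} : Finset (Mk (D + 2)))
      (fun U => (cube (D + 2) 2 ×ˢ {0} : Finset (Mk (D + 2))) ⊆ U) := n9a_dep_seed _
  have hP := Pr_and_dep (p := p) V hD1 hD234 n9a_seed_disjoint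
  have hP1 : Pr V p (fun U => (cube (D + 2) 2 ×ˢ {0} : Finset (Mk (D + 2))) ⊆ U) =
      p ^ (2 ^ (D + 2)) := by
    rw [Pr_subset]
    · congr 1
      rw [Finset.card_product, Finset.card_singleton, Nat.mul_one, card_cube]
    · intro x hx
      rw [Finset.mem_product, Finset.mem_singleton] at hx
      rw [hV, mem_mks]
      refine ⟨?_, by omega⟩
      have hx1 := mem_cube.mp hx.1
      rw [mem_cube]
      intro m
      refine ⟨(hx1 m).1, (hx1 m).2.trans ?_⟩
      exact_mod_cast (by omega : 2 ≤ b)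
  rw [hP1] at hP
  rw [hP234] at hP
  rw [hP34] at hP
  rw [hP3] at hP
  rw [← hP]
  unfold Q
  refine Pr_mono hp0 hp1 fun U _ => ?_
  rintro ⟨h1, h2, h3, h4⟩
  exact n9a_fill ha hb h1 h2 h3 h4

end

end UB
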