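import Pool.Agent.UB.D0

set_option autoImplicit false

open scoped Classical
open Finset BTP

namespace UB

theorem p2_inter {α : Type*} (inst : DecidableEq α) {x : α} {U B : Finset α} (hx : x ∈ B) :
    x ∈ U ↔ x ∈ U ∩ B := by
  rw [Finset.mem_inter]
  exact ⟨fun h => ⟨h, hx⟩, fun h => h.1⟩

section
variable {α : Type*} {p : ℝ}

/-- [UB-P2] PROOF. `U ∩ B' ∩ B = U ∩ B`. -/
theorem Dep.mono {B B' : Finset α} {E : Finset α → Prop} (h : Dep B E) (hB : B ⊆ B') : Dep B' E := by
  intro U
  rw [h U, h (U ∩ B'), Finset.inter_assoc, Finset.inter_eq_right.mpr hB]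

theorem Dep.and {B : Finset α} {E F : Finset α → Prop} (h : Dep B E) (h' : Dep B F) :
    Dep B (fun U => E U ∧ F U) := by
  exact fun U => and_congr (h U) (h' U)

theorem Dep.or {B : Finset α} {E F : Finset α → Prop} (h : Dep B E) (h' : Dep B F) :
    Dep B (fun U => E U ∨ F U) := by
  exact fun U => or_congr (h U) (h' U)

theorem Dep.not {B : Finset α} {E : Finset α → Prop} (h : Dep B E) : Dep B (fun U => ¬ E U) := by
  exact fun U => not_congr (h U)

theorem Dep.all {B : Finset α} {ι : Sort*} {E : ι → Finset α → Prop} (h : ∀ i, Dep B (E i)) :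
    Dep B (fun U => ∀ i, E i U) := by
  exact fun U => forall_congr' fun i => h i U

theorem Dep.ex {B : Finset α} {ι : Sort*} {E : ι → Finset α → Prop} (h : ∀ i, Dep B (E i)) :
    Dep B (fun U => ∃ i, E i U) := by
  exact fun U => exists_congr fun i => h i U

theorem Dep.const {B : Finset α} {P : Prop} : Dep B (fun _ => P) := by
  exact fun _ => Iff.rfl

/-- [UB-P2] independence. PROOF. `BTP.Pr_indep V B E F` (BTP/P2): `E U ↔ E (U ∩ B)`, and `F U ↔ F (U ∩ B') = F ((U \ B) ∩ B') ↔ F (U \ B)` as `B, B'` are disjoint. -/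
theorem Pr_and_dep {B B' : Finset α} {E F : Finset α → Prop} (V : Finset α) (h : Dep B E) (h' : Dep B' F)
    (hd : Disjoint B B') : Pr V p (fun U => E U ∧ F U) = Pr V p E * Pr V p F := by
  refine Pr_indep V B E F (fun U _ => h U) (fun U _ => ?_)
  rw [h' U, h' (U \ B)]
  have e : (U \ B) ∩ B' = U ∩ B' := by
    ext x
    simp only [Finset.mem_inter, Finset.mem_sdiff]
    constructor
    · rintro ⟨⟨h1, -⟩, h2⟩
      exact ⟨h1, h2⟩
    · rintro ⟨h1, h2⟩
      exact ⟨⟨h1, fun h3 => Finset.disjoint_left.mp hd h3 h2⟩, h2⟩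
  rw [e]

/-- [UB-P2] PROOF. `Finset.induction_on s`, `Pr_and_dep` with `B a` and `s.biUnion B` (`Finset.disjoint_biUnion_right`; `Dep` of the family by `Dep.mono`). -/
theorem Pr_all_dep {ι : Type*} (V : Finset α) (s : Finset ι) (B : ι → Finset α) (E : ι → Finset α → Prop)
    (h : ∀ i ∈ s, Dep (B i) (E i)) (hd : ∀ i ∈ s, ∀ j ∈ s, i ≠ j → Disjoint (B i) (B j)) :
    Pr V p (fun U => ∀ i ∈ s, E i U) = ∏ i ∈ s, Pr V p (E i) := by
  induction s using Finset.induction_on with
  | empty =>
    rw [Finset.prod_empty, ← Pr_true (V := V) (p := p)]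
    exact Pr_congr fun U _ => by simp
  | insert a s ha ih =>
    rw [Finset.prod_insert ha]
    have h1 := ih (fun i hi => h i (Finset.mem_insert_of_mem hi))
      (fun i hi j hj hij => hd i (Finset.mem_insert_of_mem hi) j (Finset.mem_insert_of_mem hj) hij)
    rw [← h1]
    have h2 : Dep (s.biUnion B) (fun U => ∀ i ∈ s, E i U) := by
      intro U
      refine forall_congr' fun i => forall_congr' fun hi => ?_
      exact (h i (Finset.mem_insert_of_mem hi)).mono (Finset.subset_biUnion_of_mem B hi) U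
    have h3 : Disjoint (B a) (s.biUnion B) := by
      rw [Finset.disjoint_biUnion_right]
      intro i hi
      exact hd a (Finset.mem_insert_self _ _) i (Finset.mem_insert_of_mem hi)
        (fun e => ha (e ▸ hi))
    rw [← Pr_and_dep V (h a (Finset.mem_insert_self _ _)) h2 h3]
    exact Pr_congr fun U _ => Finset.forall_mem_insert a s (fun i => E i U)

end

section
variable {D : ℕ}

/-- [UB-P2] -/
theorem Dep_hit (F : Finset (Site D)) (j : ℕ) : Dep (F ×ˢ {j}) (hit F j) := by
  intro U
  unfold hit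
  refine exists_congr fun v => and_congr_right fun hv => ?_
  refine p2_inter _ ?_
  rw [Finset.mem_product]
  exact ⟨hv, Finset.mem_singleton.mpr rfl⟩

/-- [UB-P2] -/
theorem Dep_res (h : ℕ) (F : Finset (Site D)) : Dep (mks F h) (res h F) := by
  intro U
  unfold res
  refine exists_congr fun j => and_congr_right fun hj => ?_
  refine (Dep_hit F j).mono ?_ U
  unfold mks
  refine Finset.product_subset_product_right ?_
  rw [Finset.singleton_subset_iff, Finset.mem_range]
  omega

/-- [UB-P2] -/
theorem Dep_Sq (h : ℕ) (L : ℕ → Finset (Site D)) (a b : ℕ) {B : Finset (Mk D)}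
    (hB : ∀ x, a < x → x ≤ b → mks (L x) h ⊆ B) : Dep B (Sq h L a b) := by
  intro U
  unfold Sq
  refine forall_congr' fun x => forall_congr' fun h1 => forall_congr' fun h2 => ?_
  refine or_congr ((Dep_res h (L x)).mono (hB x h1 h2) U) (and_congr_right fun h3 => ?_)
  refine (Dep_hit (L (x + 1)) 0).mono ?_ U
  refine Finset.Subset.trans ?_ (hB (x + 1) (by omega) (by omega))
  unfold mks
  refine Finset.product_subset_product_right ?_
  rw [Finset.singleton_subset_iff, Finset.mem_range]
  omega

end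

end UB
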