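import Pool.Agent.UB.P4

set_option autoImplicit false

open scoped Classical
open Finset BTP

namespace UB

/-- the marks of the levels `a < x ≤ c` -/
noncomputable def p5a_B {D : ℕ} (h : ℕ) (L : ℕ → Finset (Site D)) (a c : ℕ) : Finset (Mk D) :=
  (Finset.Ioc a c).biUnion fun x => mks (L x) h

theorem p5a_mks_sub {D : ℕ} (h : ℕ) (L : ℕ → Finset (Site D)) (a c : ℕ) {x : ℕ} (h1 : a < x)
    (h2 : x ≤ c) : mks (L x) h ⊆ p5a_B h L a c :=
  Finset.subset_biUnion_of_mem (fun x => mks (L x) h) (Finset.mem_Ioc.2 ⟨h1, h2⟩)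

theorem p5a_disj {D : ℕ} (h : ℕ) (L : ℕ → Finset (Site D)) (a c y : ℕ)
    (hd : ∀ x, a < x → x ≤ c → Disjoint (L x) (L y)) :
    Disjoint (mks (L y) h) (p5a_B h L a c) := by
  unfold p5a_B
  rw [Finset.disjoint_biUnion_right]
  intro x hx
  rw [Finset.mem_Ioc] at hx
  unfold mks
  exact Finset.disjoint_product.2 (Or.inl (hd x hx.1 hx.2).symm)

theorem p5a_sub {D : ℕ} (F : Finset (Site D)) (h : ℕ) :
    F ×ˢ ({0} : Finset ℕ) ⊆ mks F h := by
  intro w hw
  rw [Finset.mem_product, Finset.mem_singleton] at hw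
  unfold mks
  rw [Finset.mem_product, Finset.mem_range]
  exact ⟨hw.1, by omega⟩

/-- [UB-P5] the two-step recursion for the sequences without double gaps.
PROOF. `Sq h L a (b+2) U` follows from `res h (L (b+2)) U ∧ Sq h L a (b+1) U`, and also from `hit (L (b+2)) 0 U ∧ ¬ res h (L (b+1)) U ∧ Sq h L a b U` (levels `x ≤ b`: from `Sq h L a b`; `x = b+1`: `hit (L (b+2)) 0`; `x = b+2`: `res`, since `hit _ 0 → res`; for `b = a` the level `b+1 = a+1` is treated in the same way). The two events are disjoint: `Sq h L a (b+1) U` gives `res h (L (b+1)) U` (level `b+1`, the second alternative is impossible).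
So `Pr (Sq a (b+2)) ≥ Pr(first) + Pr(second)` (`BTP.Pr_or_add_and`, `Pr_false`, `Pr_mono`) and independence (`Pr_and_dep`, `Dep_res`, `Dep_hit`, `Dep_Sq`; the sets `mks (L x) h` are disjoint): `Pr(first) = Pr_res * Pr (Sq a (b+1))`, `Pr(second) = Pr_hit * Pr_not_res * Pr (Sq a b)`. -/
theorem Sq_rec {D : ℕ} (h : ℕ) (V : Finset (Mk D)) {p : ℝ} (hp0 : 0 ≤ p) (hp1 : p ≤ 1)
    (L : ℕ → Finset (Site D)) (a b : ℕ) (hab : a ≤ b)
    (hV : ∀ x, a < x → x ≤ b + 2 → mks (L x) h ⊆ V)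
    (hd : ∀ x y, a < x → x < y → y ≤ b + 2 → Disjoint (L x) (L y)) :
    (1 - (1 - uu p (L (b + 2)).card) ^ (h + 1)) * Pr V p (Sq h L a (b + 1)) +
      uu p (L (b + 2)).card * (1 - uu p (L (b + 1)).card) ^ (h + 1) * Pr V p (Sq h L a b) ≤
      Pr V p (Sq h L a (b + 2)) := by
  have hB2 : mks (L (b + 2)) h ⊆ V := hV (b + 2) (by omega) le_rfl
  have hB1 : mks (L (b + 1)) h ⊆ V := hV (b + 1) (by omega) (by omega)
  have hB0 : (L (b + 2)) ×ˢ ({0} : Finset ℕ) ⊆ V := (p5a_sub (L (b + 2)) h).trans hB2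
  -- the sets of the marks
  have hdis : ∀ c, c ≤ b + 1 → Disjoint (mks (L (b + 2)) h) (p5a_B h L a c) := fun c hc =>
    p5a_disj h L a c (b + 2) fun x h1 h2 => hd x (b + 2) h1 (by omega) le_rfl
  have h1 : Pr V p (fun U => res h (L (b + 2)) U ∧ Sq h L a (b + 1) U) =
      (1 - (1 - uu p (L (b + 2)).card) ^ (h + 1)) * Pr V p (Sq h L a (b + 1)) := by
    rw [Pr_and_dep V (Dep_res h (L (b + 2)))
      (Dep_Sq h L a (b + 1) fun x h1 h2 => p5a_mks_sub h L a (b + 1) h1 h2)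
      (hdis (b + 1) le_rfl), Pr_res hB2]
  have h2 : Pr V p (fun U => hit (L (b + 2)) 0 U ∧ (¬ res h (L (b + 1)) U ∧ Sq h L a b U)) =
      uu p (L (b + 2)).card * (1 - uu p (L (b + 1)).card) ^ (h + 1) * Pr V p (Sq h L a b) := by
    have e1 : Dep (p5a_B h L a (b + 1)) (fun U => ¬ res h (L (b + 1)) U ∧ Sq h L a b U) :=
      Dep.and ((Dep.not (Dep_res h (L (b + 1)))).mono
        (p5a_mks_sub h L a (b + 1) (by omega) le_rfl))
        (Dep_Sq h L a b fun x h1 h2 => p5a_mks_sub h L a (b + 1) h1 (by omega))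
    have e2 : Disjoint ((L (b + 2)) ×ˢ ({0} : Finset ℕ)) (p5a_B h L a (b + 1)) :=
      Finset.disjoint_of_subset_left (p5a_sub (L (b + 2)) h) (hdis (b + 1) le_rfl)
    have e3 : Disjoint (mks (L (b + 1)) h) (p5a_B h L a b) :=
      p5a_disj h L a b (b + 1) fun x h1 h2 => hd x (b + 1) h1 (by omega) (by omega)
    rw [Pr_and_dep V (Dep_hit (L (b + 2)) 0) e1 e2, Pr_hit hB0,
      Pr_and_dep V (Dep.not (Dep_res h (L (b + 1))))
        (Dep_Sq h L a b fun x h1 h2 => p5a_mks_sub h L a b h1 h2) e3, Pr_not_res hB1, mul_assoc]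
  have h3 : Pr V p (fun U => (res h (L (b + 2)) U ∧ Sq h L a (b + 1) U) ∧
      (hit (L (b + 2)) 0 U ∧ (¬ res h (L (b + 1)) U ∧ Sq h L a b U))) = 0 := by
    rw [← Pr_false (V := V) (p := p)]
    refine Pr_congr fun U _ => ?_
    refine ⟨fun hU => ?_, fun hU => hU.elim⟩
    obtain ⟨⟨_, hs⟩, _, hn, _⟩ := hU
    rcases hs (b + 1) (by omega) le_rfl with hr | hr
    · exact hn hr
    · exact absurd hr.1 (lt_irrefl _)
  have h4 : Pr V p (fun U => (res h (L (b + 2)) U ∧ Sq h L a (b + 1) U) ∨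
      (hit (L (b + 2)) 0 U ∧ (¬ res h (L (b + 1)) U ∧ Sq h L a b U))) ≤
      Pr V p (Sq h L a (b + 2)) := by
    refine Pr_mono hp0 hp1 fun U _ hU => ?_
    intro x hx hx'
    rcases hU with ⟨hr, hs⟩ | ⟨hh, _, hs⟩
    · rcases Nat.lt_or_ge x (b + 2) with hlt | hge
      · rcases hs x hx (by omega) with h5 | h5
        · exact Or.inl h5
        · exact Or.inr ⟨hlt, h5.2⟩
      · have hxe : x = b + 2 := le_antisymm hx' hge
        subst hxe
        exact Or.inl hr
    · rcases Nat.lt_or_ge x (b + 1) with hlt | hge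
      · rcases hs x hx (by omega) with h5 | h5
        · exact Or.inl h5
        · exact Or.inr ⟨by omega, h5.2⟩
      · rcases Nat.eq_or_lt_of_le hge with he | hlt
        · subst he
          exact Or.inr ⟨by omega, hh⟩
        · have hxe : x = b + 2 := by omega
          subst hxe
          exact Or.inl ⟨0, Nat.zero_le _, hh⟩
  have h5 := Pr_or_add_and (V := V) (p := p)
    (E := fun U => res h (L (b + 2)) U ∧ Sq h L a (b + 1) U)
    (F := fun U => hit (L (b + 2)) 0 U ∧ (¬ res h (L (b + 1)) U ∧ Sq h L a b U))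
  rw [h1, h2, h3, add_zero] at h5
  rw [← h5]
  exact h4

end UB
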