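import Pool.Agent.UB.P5a

set_option autoImplicit false

open scoped Classical
open Finset BTP

namespace UB

/-- the inequality of the induction step -/
theorem p5b_step (β : ℝ → ℝ) (k : ℕ) (u u' P R0 R1 R2 : ℝ)
    (h1 : β u ^ 2 = (1 - (1 - u) ^ k) * β u + u * (1 - u) ^ k)
    (h2 : 1 - (1 - u) ^ k ≤ β u) (h3 : β u' ≤ β u) (hu0 : 0 ≤ u) (hu1 : u ≤ 1)
    (huu : u' ≤ u) (hP : 0 ≤ P) (hR0 : P ≤ R0) (hR1 : P * β u' ≤ R1)
    (hR2 : (1 - (1 - u) ^ k) * R1 + u * (1 - u') ^ k * R0 ≤ R2) :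
    P * β u' * β u ≤ R2 := by
  have hw0 : 0 ≤ (1 - u) ^ k := pow_nonneg (by linarith) _
  have hw1 : (1 - u) ^ k ≤ 1 := pow_le_one₀ (by linarith) (by linarith)
  have hww : (1 - u) ^ k ≤ (1 - u') ^ k := pow_le_pow_left₀ (by linarith) (by linarith) _
  have hR0' : 0 ≤ R0 := le_trans hP hR0
  have e1 : (1 - (1 - u) ^ k) * (P * β u') ≤ (1 - (1 - u) ^ k) * R1 :=
    mul_le_mul_of_nonneg_left hR1 (by linarith)
  have e2 : u * (1 - u) ^ k * P ≤ u * (1 - u') ^ k * R0 := by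
    have e21 : u * (1 - u) ^ k ≤ u * (1 - u') ^ k := mul_le_mul_of_nonneg_left hww hu0
    have e22 : 0 ≤ u * (1 - u) ^ k := mul_nonneg hu0 hw0
    calc u * (1 - u) ^ k * P ≤ u * (1 - u) ^ k * R0 := mul_le_mul_of_nonneg_left hR0 e22
      _ ≤ u * (1 - u') ^ k * R0 := mul_le_mul_of_nonneg_right e21 hR0'
  have e3 : (1 - (1 - u) ^ k) * (β u - β u') ≤ β u * (β u - β u') :=
    mul_le_mul_of_nonneg_right h2 (by linarith)
  have e4 : β u' * β u ≤ (1 - (1 - u) ^ k) * β u' + u * (1 - u) ^ k := by nlinarith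
  have e5 : P * (β u' * β u) ≤ P * ((1 - (1 - u) ^ k) * β u' + u * (1 - u) ^ k) :=
    mul_le_mul_of_nonneg_left e4 hP
  nlinarith

/-- [UB-P5] probability of no double gap.
PROOF. `R b' = Pr V p (Sq h L a b')`, `Π b' = ∏ x ∈ Ioc a b', β (u x)`, `u x = uu p (m x)`, `β = BTR.bk (h+1)`. Show `c Π b' ≤ R b'` for `a ≤ b' ≤ b` by two-step induction (`Nat.twoStepInduction` / strong induction on `b' - a`).
`b' = a`: `R = 1` (`Sq h L a a` is vacuous, `Pr_true`), `Π = 1`, `c ≤ 1`. `b' = a+1`: `Sq h L a (a+1) U ↔ res h (L (a+1)) U`, `R = 1 - (1-u)^(h+1) ≥ u ≥ c ≥ c β` (`one_sub`, `pow_le_of_le_one`, `β ≤ 1`).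
`b' + 2`: `Sq_rec`, `u' = u (b'+1) ≤ u = u (b'+2)` (`uu_mono`), `(1-u')^(h+1) ≥ (1-u)^(h+1)`, `v = 1-(1-u)^(h+1)`, so
`R (b'+2) ≥ c Π(b') (v β(u') + u (1-u)^(h+1)) = c Π(b') (β(u)² - v (β(u) - β(u'))) ≥ c Π(b') (β(u)² - β(u) (β(u) - β(u'))) = c Π(b') β(u') β(u) = c Π(b'+2)` by `v ≤ β(u)`, `β(u') ≤ β(u)`. -/
theorem Sq_ge {D : ℕ} (h : ℕ) (hB : BetaOK (h + 1)) (V : Finset (Mk D)) {p : ℝ} (hp0 : 0 ≤ p) (hp1 : p ≤ 1)
    (L : ℕ → Finset (Site D)) (m : ℕ → ℕ) (a b : ℕ) (hab : a ≤ b)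
    (hV : ∀ x, a < x → x ≤ b → mks (L x) h ⊆ V)
    (hd : ∀ x y, a < x → x < y → y ≤ b → Disjoint (L x) (L y))
    (hm : ∀ x, a < x → x ≤ b → (L x).card = m x)
    (hmono : ∀ x y, a < x → x ≤ y → y ≤ b → m x ≤ m y)
    (c : ℝ) (hc0 : 0 ≤ c) (hc1 : c ≤ 1) (hc : a < b → c ≤ uu p (m (a + 1))) :
    c * ∏ x ∈ Finset.Ioc a b, BTR.bk (h + 1) (uu p (m x)) ≤ Pr V p (Sq h L a b) := by
  obtain ⟨hB1, hB2, hB3, hB4, hB5, -⟩ := hB
  have hu0 : ∀ x, 0 ≤ uu p (m x) := fun x => uu_nonneg hp0 hp1 _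
  have hu1 : ∀ x, uu p (m x) ≤ 1 := fun x => uu_le_one hp1 _
  have hβ0 : ∀ x, 0 ≤ BTR.bk (h + 1) (uu p (m x)) := fun x =>
    le_trans (hu0 x) (hB2 _ (hu0 x) (hu1 x))
  have main : ∀ n, a + n ≤ b →
      c * ∏ x ∈ Finset.Ioc a (a + n), BTR.bk (h + 1) (uu p (m x)) ≤ Pr V p (Sq h L a (a + n)) := by
    intro n
    induction n using Nat.twoStepInduction with
    | zero =>
      intro _
      have e : Pr V p (Sq h L a (a + 0)) = 1 := by
        rw [← Pr_true (V := V) (p := p)]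
        refine Pr_congr fun U _ => ⟨fun _ => trivial, fun _ x hx1 hx2 => ?_⟩
        omega
      rw [e]
      simpa using hc1
    | one =>
      intro hn
      have e1 : Pr V p (res h (L (a + 1))) ≤ Pr V p (Sq h L a (a + 1)) := by
        refine Pr_mono hp0 hp1 fun U _ hU x hx1 hx2 => ?_
        have : x = a + 1 := by omega
        subst this
        exact Or.inl hU
      rw [Pr_res (hV (a + 1) (by omega) hn), hm (a + 1) (by omega) hn] at e1
      refine le_trans ?_ e1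
      rw [Finset.prod_Ioc_succ_top (le_refl a), Finset.Ioc_self, Finset.prod_empty, one_mul]
      have e2 : (1 - uu p (m (a + 1))) ^ (h + 1) ≤ 1 - uu p (m (a + 1)) :=
        pow_le_of_le_one (by linarith [hu1 (a + 1)]) (by linarith [hu0 (a + 1)]) (Nat.succ_ne_zero h)
      have e3 : c * BTR.bk (h + 1) (uu p (m (a + 1))) ≤ c * 1 :=
        mul_le_mul_of_nonneg_left (hB4 _ (hu0 _) (hu1 _)) hc0
      have e4 := hc (by omega)
      linarith
    | more n ih1 ih2 =>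
      intro hn
      have hrec := Sq_rec h V hp0 hp1 L a (a + n) (by omega) (fun x hx1 hx2 => hV x hx1 (by omega))
        (fun x y hx hxy hy => hd x y hx hxy (by omega))
      rw [hm (a + n + 2) (by omega) (by omega), hm (a + n + 1) (by omega) (by omega)] at hrec
      have hih1 := ih1 (by omega)
      have hih2 := ih2 (by omega)
      have e1 : ∏ x ∈ Finset.Ioc a (a + (n + 1)), BTR.bk (h + 1) (uu p (m x)) =
          (∏ x ∈ Finset.Ioc a (a + n), BTR.bk (h + 1) (uu p (m x))) *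
            BTR.bk (h + 1) (uu p (m (a + n + 1))) :=
        Finset.prod_Ioc_succ_top (Nat.le_add_right a n) _
      have e2 : ∏ x ∈ Finset.Ioc a (a + (n + 2)), BTR.bk (h + 1) (uu p (m x)) =
          (∏ x ∈ Finset.Ioc a (a + (n + 1)), BTR.bk (h + 1) (uu p (m x))) *
            BTR.bk (h + 1) (uu p (m (a + n + 2))) :=
        Finset.prod_Ioc_succ_top (Nat.le_add_right a (n + 1)) _
      rw [e1, ← mul_assoc] at hih2
      rw [e2, e1, ← mul_assoc, ← mul_assoc]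
      have hle : uu p (m (a + n + 1)) ≤ uu p (m (a + n + 2)) :=
        uu_mono hp0 hp1 (hmono _ _ (by omega) (by omega) (by omega))
      exact p5b_step (BTR.bk (h + 1)) (h + 1) (uu p (m (a + n + 2))) (uu p (m (a + n + 1)))
        (c * ∏ x ∈ Finset.Ioc a (a + n), BTR.bk (h + 1) (uu p (m x)))
        (Pr V p (Sq h L a (a + n))) (Pr V p (Sq h L a (a + n + 1))) (Pr V p (Sq h L a (a + n + 2)))
        (hB1 _ (hu0 _) (hu1 _)) (hB3 _ (hu0 _) (hu1 _)) (hB5 _ _ (hu0 _) hle (hu1 _))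
        (hu0 _) (hu1 _) hle (mul_nonneg hc0 (Finset.prod_nonneg fun x _ => hβ0 x)) hih1 hih2 hrec
  obtain ⟨k, rfl⟩ := Nat.exists_eq_add_of_le hab
  exact main k le_rfl

end UB
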