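import Pool.Agent.UB.M4

set_option autoImplicit false

open scoped Classical
open Finset BTP

namespace UB

section
variable {D s h : ℕ}

/-- [UB-R1a] deterministic part: one layer after the other.
PROOF. Let `S` be closed. Show `∀ x ∈ cube (D+1) a, x ∈ S` by induction on `a`, `1 ≤ a ≤ b`. `a = 1`: `x = 1`, in `S` by the mark `h0`. Step `a → a + 1 ≤ b`: `grow` with `Λ = cube (D+1) b`, block side `a`, `lo = 1`, `hi = a`, `LO = 1`, `HI = a + 1` (constant functions; `cube D b = Icc (0 + 1) (0 + b)`). `hup`: `c = a + 1`, the cube `z` has `0 ≤ z j ≤ 1`, so `z = fun j => if ε j then 1 else 0` for `ε j = decide (z j = 1)`: `hF a i ε`. `hdn`: impossible (`LO = lo`). -/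
theorem Q_rec_det (b : ℕ) {U : Set (Mk (D + 1))} (hU : ∀ w ∈ U, w.1 ∈ cube (D + 1) b)
    (h0 : ((fun _ => 1 : Site (D + 1)), 0) ∈ U)
    (hF : ∀ a, 1 ≤ a → a < b → ∀ (i : Fin (D + 1)) (ε : Fin D → Bool),
      Fill s (h + 1) (cubeAt (fun j => if ε j then 1 else 0) a) (pull h i (a + 1) (a + 1 + 1) U)) :
    Fill (s + 1) h (cube (D + 1) b) U := by
  intro S hS
  have hmem : ∀ a : ℕ, ∀ x : Site (D + 1), x ∈ cube (D + 1) a ↔
      x ∈ Finset.Icc (fun _ => (1 : ℤ) : Site (D + 1)) (fun _ => (a : ℤ)) := by
    intro a x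
    unfold cube cubeAt
    simp only [zero_add]
  rcases Nat.eq_zero_or_pos b with hb | hb
  · intro x hx
    exfalso
    rw [hmem, Finset.mem_Icc] at hx
    have h1 := hx.1 0
    have h2 := hx.2 0
    simp only [hb, Nat.cast_zero] at h2
    have h3 := h1.trans h2
    norm_num at h3
  have key : ∀ a : ℕ, 1 ≤ a → a ≤ b → ∀ x ∈ cube (D + 1) a, x ∈ S := by
    intro a ha
    induction a, ha using Nat.le_induction with
    | base =>
      intro _ x hx
      rw [hmem, Finset.mem_Icc] at hx
      have hx1 : x = fun _ => (1 : ℤ) := by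
        funext i
        have h1 := hx.1 i
        have h2 := hx.2 i
        simp only [Nat.cast_one] at h2
        exact le_antisymm h2 h1
      have hxb : x ∈ cube (D + 1) b := by
        rw [hmem, Finset.mem_Icc, hx1]
        refine ⟨le_rfl, fun i => ?_⟩
        show (1 : ℤ) ≤ (b : ℤ)
        exact_mod_cast hb
      have h2 := (hS x hxb).1
      rw [hx1] at h2 ⊢
      exact h2 h0
    | succ a ha ih =>
      intro hab x hx
      rw [hmem] at hx
      have hQ : ∀ x ∈ Finset.Icc (fun _ => (1 : ℤ) : Site (D + 1)) (fun _ => (a : ℤ)), x ∈ S :=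
        fun x hx => ih (by omega) x ((hmem a x).2 hx)
      refine grow (b := a) ha hS hU (fun _ => (1 : ℤ)) (fun _ => (a : ℤ)) (fun _ => (1 : ℤ))
        (fun _ => ((a + 1 : ℕ) : ℤ)) le_rfl (fun i => ?_) (fun i => ?_) ?_ hQ ?_ ?_ x hx
      · show (a : ℤ) ≤ ((a + 1 : ℕ) : ℤ)
        push_cast
        omega
      · show (1 : ℤ) + (a : ℤ) ≤ (a : ℤ) + 1
        omega
      · intro y hy
        rw [hmem, Finset.mem_Icc]
        rw [Finset.mem_Icc] at hy
        refine ⟨hy.1, fun i => (hy.2 i).trans ?_⟩
        show ((a + 1 : ℕ) : ℤ) ≤ (b : ℤ)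
        exact_mod_cast hab
      · intro i c hc1 hc2 z hz
        have hc : c = (a : ℤ) + 1 := by
          have h1 : (a : ℤ) < c := hc1
          have h2 : c ≤ ((a + 1 : ℕ) : ℤ) := hc2
          push_cast at h2
          omega
        have hz' : z = fun j => if (decide (z j = 1)) = true then (1 : ℤ) else 0 := by
          funext j
          have h1 : (1 : ℤ) ≤ z j + 1 := (hz j).1
          have h2 : z j + (a : ℤ) ≤ ((a + 1 : ℕ) : ℤ) := (hz j).2
          push_cast at h2
          by_cases h3 : z j = 1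
          · simp only [h3, decide_true, if_true]
          · rw [if_neg (by simpa using h3)]
            omega
        have h1 := hF a ha (by omega) i (fun j => decide (z j = 1))
        rw [← hz'] at h1
        rw [hc]
        exact h1
      · intro i c hc1 hc2
        exfalso
        have h1 : c < (1 : ℤ) := hc1
        have h2 : (1 : ℤ) ≤ c := hc2
        omega
  exact key b hb le_rfl

end

end UB
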