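import Pool.Agent.UB.M4

set_option autoImplicit false

open scoped Classical
open Finset BTP

namespace UB

section
variable {D s h : ℕ}

theorem r2a_pull {i : Fin (D + 1)} {c c' : ℤ} {U : Set (Mk (D + 1))} {B : Finset (Site D)}
    (hF : Fill s h B (pull h i c 0 U)) : Fill s (h + 1) B (pull h i c c' U) := by
  apply Fill_succ
  refine (Fill_loc ?_).1 hF
  intro x _ j hj
  have hj' : j ≠ h + 1 := by omega
  unfold pull
  simp [hj, hj']

/-- [UB-R2a] deterministic part: a filled block grows if all cubes of side `b` in all layers are filled.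
PROOF. Let `S` be closed in `Λ = cube (D+1) a`. `cubeAt z₀ b ⊆ Λ` is filled: `Cl_sub`, so it lies in `S`. `grow` with `lo = z₀ + 1`, `hi = z₀ + b`, `LO = 1`, `HI = a`: `hup`, `hdn` from `hF` (`c` between `1` and `a`; `Fill s h (cubeAt z b) (pull h i c c' U)` does not depend on `c'` by `Fill_loc`: the marks of height `≤ h` of `pull h i c c' U` do not involve `c'`), `Fill_succ`. -/
theorem Q_blocks_det (a b : ℕ) (hb : 1 ≤ b) {U : Set (Mk (D + 1))} (hU : ∀ w ∈ U, w.1 ∈ cube (D + 1) a)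
    (z₀ : Site (D + 1)) (hz₀ : ∀ i, 0 ≤ z₀ i ∧ z₀ i + b ≤ a) (h0 : Fill (s + 1) h (cubeAt z₀ b) U)
    (hF : ∀ (i : Fin (D + 1)) (c : ℤ), 1 ≤ c → c ≤ a → ∀ z : Site D, (∀ j, 0 ≤ z j ∧ z j + b ≤ a) →
      Fill s h (cubeAt z b) (pull h i c 0 U)) :
    Fill (s + 1) h (cube (D + 1) a) U := by
  intro S hS x hx
  have hΛ : Finset.Icc (fun _ : Fin (D + 1) => (1 : ℤ)) (fun _ => (a : ℤ)) ⊆ cube (D + 1) a := by
    intro y hy
    unfold cube cubeAt
    simpa using hy
  have hsub : cubeAt z₀ b ⊆ cube (D + 1) a := by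
    intro y hy
    unfold cubeAt at hy
    rw [Finset.mem_Icc] at hy
    apply hΛ
    rw [Finset.mem_Icc]
    constructor
    · intro i
      have h1 := hy.1 i
      have h2 := (hz₀ i).1
      simp only at h1 ⊢
      linarith
    · intro i
      have h1 := hy.2 i
      have h2 := (hz₀ i).2
      simp only at h1 ⊢
      linarith
  have hb' : (1 : ℤ) ≤ b := by exact_mod_cast hb
  refine grow hb hS hU (fun i => z₀ i + 1) (fun i => z₀ i + b) (fun _ => 1) (fun _ => a)
    (fun i => ?_) (fun i => ?_) (fun i => ?_) hΛ (fun y hy => h0 S (Cl_sub hsub hS) y hy)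
    (fun i c hc1 hc2 z hz => ?_) (fun i c hc1 hc2 z hz => ?_) x ?_
  · have := (hz₀ i).1
    linarith
  · exact (hz₀ i).2
  · linarith
  · have h1 := (hz₀ i).1
    exact r2a_pull (hF i c (by linarith) hc2 z fun j => ⟨by linarith [(hz j).1], (hz j).2⟩)
  · have h1 := (hz₀ i).2
    exact r2a_pull (hF i c hc2 (by linarith) z fun j => ⟨by linarith [(hz j).1], (hz j).2⟩)
  · unfold cube cubeAt at hx
    simpa using hx

end

end UB
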